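import Pool.Agent.H616.SP.Sum

set_option autoImplicit false

/-!
# The fixed point for general local factors
-/

namespace Pool.Agent.H616.SP

open Filter Topology Set Complex
open Pool.Agent.H483.FE Pool.Agent.H483.SA
open scoped ComplexConjugate

lemma pow_le_small {A Y : ℝ} (hA : 1 ≤ A) (hY : 1 ≤ Y) (hAY : A ^ 2 ≤ Y ^ (1 / 200 : ℝ)) {p k : ℕ} (hp : Y < p) :
    A ^ (2 * k) ≤ ((p ^ k : ℕ) : ℝ) ^ (1 / 200 : ℝ) := by
  have hY0 : 0 < Y := by linarith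
  have hp0 : (0:ℝ) < p := by linarith
  have h7 : A ^ 2 ≤ (p : ℝ) ^ (1 / 200 : ℝ) := hAY.trans (Real.rpow_le_rpow hY0.le hp.le (by norm_num))
  calc A ^ (2 * k) = (A ^ 2) ^ k := by rw [pow_mul]
    _ ≤ ((p : ℝ) ^ (1 / 200 : ℝ)) ^ k := by gcongr
    _ = ((p ^ k : ℕ) : ℝ) ^ (1 / 200 : ℝ) := by
        push_cast
        rw [← Real.rpow_natCast, ← Real.rpow_mul hp0.le, ← Real.rpow_natCast, ← Real.rpow_mul hp0.le]
        congr 1; ring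

lemma z3_sum {α : ℝ} (hα : 77 / 400 ≤ α) : ∃ C : ℝ, 0 ≤ C ∧ ∀ A Y : ℝ, 1 ≤ A → 1 ≤ Y → A ^ 2 ≤ Y ^ (1 / 200 : ℝ) →
    ∀ S : Finset ℕ, ∑ q ∈ S, z3 A α Y q ≤ C * Y ^ (-(3 / 25 : ℝ)) := by
  classical
  obtain ⟨C, hC0, hC⟩ := ppow_sum_gt (κ := 34 / 100) (κ' := 38 / 100) (k0 := 3) (by norm_num) (by norm_num)
    (by norm_num) (by norm_num)
  refine ⟨2 * C, by positivity, fun A Y hA hY hAY S => ?_⟩
  have h1 := hC Y hY (S.filter fun q => PK 3 q ∧ Y < q.minFac) (fun q hq => (Finset.mem_filter.1 hq).2)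
  have h2 : ∑ q ∈ S, z3 A α Y q ≤ ∑ q ∈ S with PK 3 q ∧ Y < q.minFac, 2 * (q : ℝ) ^ (-(38 / 100 : ℝ)) := by
    rw [Finset.sum_filter]
    apply Finset.sum_le_sum
    intro q _
    unfold z3
    split_ifs with h
    · obtain ⟨⟨p, k, hp, hk, rfl⟩, hYp⟩ := h
      rw [minFac_pow hp (by omega)] at hYp
      rw [ex_pow hp (by omega)]
      have hp0 : (0:ℝ) < p := by linarith
      have hq1 : (1:ℝ) ≤ ((p ^ k : ℕ) : ℝ) := by exact_mod_cast Nat.one_le_iff_ne_zero.2 (pow_ne_zero k hp.ne_zero)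
      have hq0 : (0:ℝ) < ((p ^ k : ℕ) : ℝ) := by linarith
      have h3 := pow_le_small (k := k) hA hY hAY hYp
      have h4 : ((p ^ k : ℕ) : ℝ) ^ (-(2 * α)) ≤ ((p ^ k : ℕ) : ℝ) ^ (-(385 / 1000) : ℝ) :=
        Real.rpow_le_rpow_of_exponent_le hq1 (by linarith)
      calc 2 * A ^ (2 * k) * ((p ^ k : ℕ) : ℝ) ^ (-(2 * α)) ≤
            2 * ((p ^ k : ℕ) : ℝ) ^ (1 / 200 : ℝ) * ((p ^ k : ℕ) : ℝ) ^ (-(385 / 1000) : ℝ) := by
            gcongr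
        _ = 2 * ((p ^ k : ℕ) : ℝ) ^ (-(38 / 100) : ℝ) := by
            rw [mul_assoc, ← Real.rpow_add hq0]; norm_num
    · exact le_rfl
  rw [← Finset.mul_sum] at h2
  refine h2.trans ?_
  have e : Y ^ (-((38 / 100 - 34 / 100 : ℝ) * (3 : ℕ))) = Y ^ (-(3 / 25 : ℝ)) := by norm_num
  rw [e] at h1
  calc _ ≤ 2 * (C * Y ^ (-(3 / 25 : ℝ))) := by gcongr
    _ = _ := by ring

lemma z5_sum : ∃ C : ℝ, 0 ≤ C ∧ ∀ Y : ℝ, 1 ≤ Y →
    ∀ S : Finset ℕ, ∑ q ∈ S, z5 Y q ≤ C * Y ^ (-(9 / 20 : ℝ)) := by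
  classical
  obtain ⟨C, hC0, hC⟩ := ppow_sum_gt (κ := 34 / 100) (κ' := 49 / 100) (k0 := 3) (by norm_num) (by norm_num)
    (by norm_num) (by norm_num)
  refine ⟨C, by positivity, fun Y hY S => ?_⟩
  have h1 := hC Y hY (S.filter fun q => PK 3 q ∧ Y < q.minFac) (fun q hq => (Finset.mem_filter.1 hq).2)
  have h2 : ∑ q ∈ S, z5 Y q = ∑ q ∈ S with PK 3 q ∧ Y < q.minFac, (q : ℝ) ^ (-(49 / 100 : ℝ)) := by
    rw [Finset.sum_filter]
    apply Finset.sum_congr rfl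
    intro q _
    unfold z5
    split_ifs <;> rfl
  rw [h2]
  have e : Y ^ (-((49 / 100 - 34 / 100 : ℝ) * (3 : ℕ))) = Y ^ (-(9 / 20 : ℝ)) := by norm_num
  rw [e] at h1
  exact h1

section

variable {γ : ℂ → ℂ} {α y0 K Q A : ℝ} {c : ℂ → ℕ → ℂ}

/-- the pointwise bound in the closure -/
lemma clo_ac (Ad : Adm γ α) (hQ : 1 ≤ Q) (hQ0 : 0 < Q) (hK : 0 < K) (D : Dt γ α y0 K Q) {b : L2}
    (hb : b ∈ clo (TS Ad hQ0 D)) {R : ℝ} (hbR : ‖b‖ ≤ R) (p : ℕ) : ‖ac α y0 Q b p‖ ^ 2 ≤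
      2 * K * (1 + Real.log Q ^ 2) * R ^ 2 * Q ^ (-(1 + 4 * α)) * (p : ℝ) ^ (4 * α - 1) := by
  have hR0 : 0 ≤ R := (norm_nonneg _).trans hbR
  by_cases hp : Big Q y0 p
  · have hp0 : (0:ℝ) < p := by exact_mod_cast hp.1.pos
    have h1 := clo_pt Ad hQ0 D hb hp
    have h2 := logsq_le_MM (Q := Q) p
    have h3 : ww α y0 Q p = Real.log p / Q * ((p : ℝ) / Q) ^ (2 * α) := by unfold ww; rw [if_pos hp]
    have h4 : Real.exp (-(zz Q p)) = Q / p := by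
      unfold zz
      rw [neg_sub, Real.exp_sub, Real.exp_log hQ0, Real.exp_log hp0]
    have hbR2 : ‖b‖ ^ 2 ≤ R ^ 2 := by gcongr
    have hw0 := ww_nonneg (α := α) (y0 := y0) hQ0 p
    have hM := MM_pos Q p
    rw [ac_sq hQ0]
    calc ww α y0 Q p / MM Q p * ‖b p‖ ^ 2
        ≤ ww α y0 Q p / MM Q p * (ww α y0 Q p * (K * Real.exp (-(zz Q p)) * ‖b‖ ^ 2)) := by gcongr
      _ ≤ ww α y0 Q p / MM Q p * (ww α y0 Q p * (K * Real.exp (-(zz Q p)) * R ^ 2)) := by gcongr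
      _ = K * R ^ 2 * (Real.log p ^ 2 / MM Q p) * ((((p : ℝ) / Q) ^ (2 * α)) ^ 2 * Q⁻¹ * (p : ℝ)⁻¹) := by
          rw [h4, h3]
          field_simp
      _ ≤ K * R ^ 2 * (2 * (1 + Real.log Q ^ 2)) * ((((p : ℝ) / Q) ^ (2 * α)) ^ 2 * Q⁻¹ * (p : ℝ)⁻¹) := by
          gcongr
          rw [div_le_iff₀ hM]
          exact h2
      _ = _ := by
          have e1 : (((p : ℝ) / Q) ^ (2 * α)) ^ 2 = (p : ℝ) ^ (4 * α) * Q ^ (-(4 * α)) := by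
            rw [← Real.rpow_natCast, ← Real.rpow_mul (by positivity), Real.div_rpow hp0.le hQ0.le,
              Real.rpow_neg hQ0.le, div_eq_mul_inv]
            congr 2
            · push_cast; ring
            · congr 1; push_cast; ring
          have e2 : (p : ℝ) ^ (4 * α - 1) = (p : ℝ) ^ (4 * α) * (p : ℝ)⁻¹ := by
            rw [Real.rpow_sub hp0, Real.rpow_one, div_eq_mul_inv]
          have e3 : Q ^ (-(1 + 4 * α)) = Q ^ (-(4 * α)) * Q⁻¹ := by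
            rw [← Real.rpow_neg_one Q, ← Real.rpow_add hQ0]; congr 1; ring
          rw [e1, e2, e3]
          ring
  · rw [ac_zero hp]
    simp
    positivity

/-- the linear functional -/
noncomputable def ell2 (Ad : Adm γ α) (hc : Loc c A) (hα : 0 < α) (hα2 : α < 1 / 2) (hQ : 1 ≤ Q)
    (hY1 : 1 ≤ Q * Real.exp y0)
    (c1 : 16 * A ^ 4 * (Q * Real.exp y0) ^ (-(2 * α)) ≤ 1)
    (c3 : ∀ S : Finset ℕ, ∑ q ∈ S, z3 A α (Q * Real.exp y0) q ≤ 1)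
    (b : L2) (ha : ∀ p, ‖ac α y0 Q b p‖ ≤ 1) : GS Ad →ₗ[ℝ] ℝ where
  toFun h := -((h : ℝ → ℂ) (-Real.log Q)).re - (LL2 c α y0 Q b (h : ℝ → ℂ)).re
  map_add' h1 h2 := by
    have s1 := cc2_h_summable hc hα hα2 hQ hY1 c1 c3 b ha (good_dec h1.2)
    have s2 := cc2_h_summable hc hα hα2 hQ hY1 c1 c3 b ha (good_dec h2.2)
    have e : LL2 c α y0 Q b ((h1 + h2 : GS Ad) : ℝ → ℂ) =
        LL2 c α y0 Q b (h1 : ℝ → ℂ) + LL2 c α y0 Q b (h2 : ℝ → ℂ) := by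
      unfold LL2
      rw [← s1.tsum_add s2]
      congr 1
      funext n
      simp only [Submodule.coe_add, Pi.add_apply]
      ring
    rw [e]
    simp only [Submodule.coe_add, Pi.add_apply, Complex.add_re]
    ring
  map_smul' x h := by
    have e : LL2 c α y0 Q b ((x • h : GS Ad) : ℝ → ℂ) = x * LL2 c α y0 Q b (h : ℝ → ℂ) := by
      unfold LL2
      rw [← tsum_mul_left]
      congr 1
      funext n
      simp only [Submodule.coe_smul, Pi.smul_apply, Complex.real_smul]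
      ring
    rw [e]
    simp only [Submodule.coe_smul, Pi.smul_apply, Complex.real_smul, Complex.re_ofReal_mul, RingHom.id_apply,
      smul_eq_mul]
    ring

lemma mf_split (hc : Loc c A) (b : ℕ → ℂ) (n : ℕ) :
    mf c Q y0 (ac α y0 Q b) n = (if n = 1 then 1 else 0) + ac α y0 Q b n + cc2 c Q y0 (ac α y0 Q b) n := by
  unfold cc2 Cn
  rcases Nat.eq_zero_or_pos n with rfl | hn
  · rw [mf_zero, ac_not_prime 0 Nat.not_prime_zero]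
    simp
  by_cases h1 : n = 1
  · subst h1
    rw [mf_one, ac_not_prime 1 Nat.not_prime_one]
    simp
  by_cases hp : n.Prime
  · rw [if_neg h1, if_neg (by rintro ⟨-, -, h⟩; exact h hp), mf_ne hn.ne', pp_prime hp, Finset.prod_singleton]
    unfold rho
    rw [hp.minFac_eq]
    by_cases hb : Big Q y0 n
    · rw [if_pos ⟨⟨n, 1, hp, le_rfl, by simp⟩, hb⟩]
      have : ex n = 1 := by
        have := ex_pow hp one_ne_zero
        rwa [pow_one] at this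
      rw [this, hc.one]; ring
    · rw [if_neg (fun h => hb h.2), ac_zero hb]; ring
  · rw [if_neg h1, if_pos ⟨hn.ne', h1, hp⟩, ac_not_prime n hp]; ring

end

/-- **The relations.** -/
theorem relations2 {α y0 K A : ℝ} {c : ℂ → ℕ → ℂ} (hc : Loc c A) (hα : 77 / 400 ≤ α) (hα5 : α ≤ 1 / 5) (hK : 0 < K) :
    ∃ Q₁ : ℝ, 1 ≤ Q₁ ∧ ∀ Q : ℝ, Q₁ ≤ Q → ∀ γ : ℂ → ℂ, Adm γ α → Dt2 γ α y0 K Q → ∃ a : ℕ → ℂ,
      (∀ p, ¬ Big Q y0 p → a p = 0) ∧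
      (∀ p, ‖a p‖ ≤ 1) ∧ (∃ C : ℝ, ∀ p : ℕ, ‖a p‖ ^ 2 ≤ C * (p : ℝ) ^ (4 * α - 1)) ∧
      A ^ 2 ≤ (Q * Real.exp y0) ^ (1 / 200 : ℝ) ∧
      (Summable fun n : ℕ => ‖mf c Q y0 a n‖ ^ 2 * (n : ℝ) ^ (-(2 * α))) ∧
      ∀ h, Good γ h → HasSum (fun n : ℕ => (mf c Q y0 a n * h (zz Q n)).re) 0 := by
  have hα0 : 0 < α := by linarith
  have hα2 : α < 1 / 2 := by linarith
  have hA : 1 ≤ A := hc.one_le
  obtain ⟨Cz, hCz0, hCz⟩ := z3_sum hα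
  obtain ⟨Cv, hCv0, hCv⟩ := z5_sum
  obtain ⟨C₀, hC₁, hC₀⟩ := log_bd
  set W := Real.exp y0 ^ (4 * α - 1) with hW
  set W2 := Real.exp y0 ^ (-(2 * α)) with hW2
  set W3 := Real.exp y0 ^ (-(3 / 25 : ℝ)) with hW3
  set W4 := Real.exp y0 ^ (-(9 / 20 : ℝ)) with hW4
  have ev1 := ev_small 3 (32 * 32 * K) (c := 4 * α) (ε := 1) (by positivity) one_pos
  have ev2 := ev_small 2 (1920 * 32 * K) (c := 4 * α) (ε := 1) (by positivity) one_pos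
  have ev3 := ev_small 6 (42 * K * 32 * K) (c := 4 * α) (ε := 1 / 36) (by positivity) (by norm_num)
  have ev4 := ev_small 4 (32 * K ^ 2 * W) (c := 1 + 2 * α) (ε := 1) (by positivity) one_pos
  have ev5 : ∀ᶠ Q : ℝ in atTop, -Real.log Q ≤ 2 * y0 :=
    (tendsto_neg_atTop_atBot.comp Real.tendsto_log_atTop).eventually_le_atBot (2 * y0)
  have ev5' : ∀ᶠ Q : ℝ in atTop, -Real.log Q ≤ y0 :=
    (tendsto_neg_atTop_atBot.comp Real.tendsto_log_atTop).eventually_le_atBot y0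
  have ev6 := ev_small 4 (42 * K) (c := 2 / 25) (ε := 1 / 36) (by positivity) (by norm_num)
  have ev7 := ev_small 1 (336 * K * A ^ 4 * W2) (c := 2 * α) (ε := 1 / 36) (by positivity) (by norm_num)
  have ev8 := ev_small 0 (16 * A ^ 4 * W2) (c := 2 * α) (ε := 1) (by positivity) one_pos
  have ev9 := ev_small 0 (Cz * W3) (c := 3 / 25) (ε := 1) (by positivity) one_pos
  have ev10 := ev_small 0 (Cv * W4) (c := 9 / 20) (ε := 1) (by positivity) one_pos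
  have ev11 := ev_small 0 (9 * C₀ * (Cv * W4) ^ 2) (c := 9 / 10 - 2 * α) (ε := 1) (by linarith) one_pos
  have ev12 : ∀ᶠ Q : ℝ in atTop, A ^ 2 ≤ (Q * Real.exp y0) ^ (1 / 200 : ℝ) := by
    have h1 : Tendsto (fun Q : ℝ => (Q * Real.exp y0) ^ (1 / 200 : ℝ)) atTop atTop :=
      (tendsto_rpow_atTop (by norm_num)).comp (tendsto_id.atTop_mul_const (Real.exp_pos _))
    exact h1.eventually_ge_atTop _
  obtain ⟨Q₁, hQ₁⟩ := eventually_atTop.1 (ev1.and (ev2.and (ev3.and (ev4.and (ev5.and (ev6.and (ev7.and (ev8.and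
    (ev9.and (ev10.and (ev11.and (ev12.and (ev5'.and (eventually_ge_atTop (max 1 (Real.exp (-y0)))))))))))))))))
  refine ⟨max Q₁ 1, le_max_right _ _, fun Q hQ γ Ad D => ?_⟩
  obtain ⟨d1, d2, d3, d4, d5, d6, d7, d8, d9, d10, d11, d12, d13, d14⟩ := hQ₁ Q ((le_max_left _ _).trans hQ)
  have hQ1 : 1 ≤ Q := (le_max_left _ _).trans d14
  have hQe : Real.exp (-y0) ≤ Q := (le_max_right _ _).trans d14
  have hQ0 : 0 < Q := by linarith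
  have hY1 : 1 ≤ Q * Real.exp y0 := by
    calc (1:ℝ) = Real.exp (-y0) * Real.exp y0 := by rw [← Real.exp_add]; simp
      _ ≤ _ := by gcongr
  have hYmul : ∀ s : ℝ, (Q * Real.exp y0) ^ s = Q ^ s * Real.exp y0 ^ s :=
    fun s => Real.mul_rpow hQ0.le (Real.exp_pos _).le
  set L := Real.log Q with hL
  have hL0 : 0 ≤ L := Real.log_nonneg hQ1
  have hΛ : 1 + L ^ 2 ≤ (1 + L) ^ 2 := by nlinarith
  have hΛ0 : 0 < 1 + L ^ 2 := by positivity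
  have hΛ1 : 1 ≤ 1 + L ^ 2 := by nlinarith
  set R := Real.sqrt (16 * (1 + L ^ 2) * K * Q ^ (1 - 2 * α)) with hRdef
  have hq1 : 0 < Q ^ (1 - 2 * α) := Real.rpow_pos_of_pos hQ0 _
  have hR0 : 0 < R := Real.sqrt_pos.2 (by positivity)
  have hR2 : R ^ 2 = 16 * (1 + L ^ 2) * K * Q ^ (1 - 2 * α) := Real.sq_sqrt (by positivity)
  have hη : 2 * R ^ 2 * Q ^ (-(1 + 2 * α)) = 32 * K * (1 + L ^ 2) * Q ^ (-(4 * α)) := by
    rw [hR2]
    have : Q ^ (-(4 * α)) = Q ^ (1 - 2 * α) * Q ^ (-(1 + 2 * α)) := by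
      rw [← Real.rpow_add hQ0]; congr 1; ring
    rw [this]; ring
  have hq4 : 0 < Q ^ (-(4 * α)) := Real.rpow_pos_of_pos hQ0 _
  have b1 : 32 * (2 * R ^ 2 * Q ^ (-(1 + 2 * α))) * (1 + L) ≤ 1 := by
    rw [hη]
    calc _ = 32 * 32 * K * ((1 + L ^ 2) * (1 + L)) * Q ^ (-(4 * α)) := by ring
      _ ≤ 32 * 32 * K * ((1 + L) ^ 2 * (1 + L)) * Q ^ (-(4 * α)) := by gcongr
      _ = 32 * 32 * K * (1 + L) ^ 3 * Q ^ (-(4 * α)) := by ring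
      _ ≤ 1 := d1
  have b2 : 1920 * (2 * R ^ 2 * Q ^ (-(1 + 2 * α))) ≤ 1 := by
    rw [hη]
    calc _ = 1920 * 32 * K * (1 + L ^ 2) * Q ^ (-(4 * α)) := by ring
      _ ≤ 1920 * 32 * K * (1 + L) ^ 2 * Q ^ (-(4 * α)) := by gcongr
      _ ≤ 1 := d2
  have c4 : 42 * (K * ((2 * R ^ 2 * Q ^ (-(1 + 2 * α))) * (1 + L ^ 2) ^ 2)) ≤ 1 / 36 := by
    rw [hη]
    calc _ = 42 * K * 32 * K * (1 + L ^ 2) ^ 3 * Q ^ (-(4 * α)) := by ring
      _ ≤ 42 * K * 32 * K * ((1 + L) ^ 2) ^ 3 * Q ^ (-(4 * α)) := by gcongr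
      _ = 42 * K * 32 * K * (1 + L) ^ 6 * Q ^ (-(4 * α)) := by ring
      _ ≤ 1 / 36 := d3
  have c5 : 42 * (K * ((1 + L ^ 2) ^ 2 * Q ^ (-(2 / 25 : ℝ)))) ≤ 1 / 36 := by
    calc _ = 42 * K * (1 + L ^ 2) ^ 2 * Q ^ (-(2 / 25 : ℝ)) := by ring
      _ ≤ 42 * K * ((1 + L) ^ 2) ^ 2 * Q ^ (-(2 / 25 : ℝ)) := by gcongr
      _ = 42 * K * (1 + L) ^ 4 * Q ^ (-(2 / 25 : ℝ)) := by ring
      _ ≤ 1 / 36 := d6
  have c6 : 336 * (K * (A ^ 4 * (1 + L) * (Q * Real.exp y0) ^ (-(2 * α)))) ≤ 1 / 36 := by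
    rw [hYmul, ← hW2]
    calc _ = 336 * K * A ^ 4 * W2 * (1 + L) ^ 1 * Q ^ (-(2 * α)) := by ring
      _ ≤ 1 / 36 := d7
  have c1 : 16 * A ^ 4 * (Q * Real.exp y0) ^ (-(2 * α)) ≤ 1 := by
    rw [hYmul, ← hW2]
    calc _ = 16 * A ^ 4 * W2 * (1 + L) ^ 0 * Q ^ (-(2 * α)) := by ring
      _ ≤ 1 := d8
  have c3 : ∀ S : Finset ℕ, ∑ q ∈ S, z3 A α (Q * Real.exp y0) q ≤ 1 := by
    intro S
    refine (hCz A _ hA hY1 d12 S).trans ?_
    rw [hYmul, ← hW3]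
    calc _ = Cz * W3 * (1 + L) ^ 0 * Q ^ (-(3 / 25 : ℝ)) := by ring
      _ ≤ 1 := d9
  set ζ := Cv * W4 * Q ^ (-(9 / 20 : ℝ)) with hζdef
  have hζ0 : 0 ≤ ζ := by positivity
  have hζ : ∀ S : Finset ℕ, ∑ q ∈ S, z5 (Q * Real.exp y0) q ≤ ζ := by
    intro S
    refine (hCv _ hY1 S).trans (le_of_eq ?_)
    rw [hYmul, ← hW4, hζdef]; ring
  have hζ1 : ζ ≤ 1 := by
    calc _ = Cv * W4 * (1 + L) ^ 0 * Q ^ (-(9 / 20 : ℝ)) := by rw [hζdef]; ring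
      _ ≤ 1 := d10
  have hsrc0 : 3 * Real.sqrt (K * Q * C₀) * ζ ≤ R / 4 := by
    apply le_of_sq_le_sq _ (by positivity)
    rw [mul_pow, mul_pow, Real.sq_sqrt (by positivity), div_pow, hR2, hζdef, mul_pow (Cv * W4)]
    have e1 : (Q ^ (-(9 / 20 : ℝ))) ^ 2 * Q = Q ^ (1 - 2 * α) * Q ^ (-(9 / 10 - 2 * α)) := by
      rw [← Real.rpow_natCast, ← Real.rpow_mul hQ0.le, ← Real.rpow_add hQ0]
      nth_rewrite 2 [← Real.rpow_one Q]
      rw [← Real.rpow_add hQ0]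
      congr 1
      push_cast
      ring
    calc 3 ^ 2 * (K * Q * C₀) * ((Cv * W4) ^ 2 * (Q ^ (-(9 / 20 : ℝ))) ^ 2)
        = K * (9 * C₀ * (Cv * W4) ^ 2) * ((Q ^ (-(9 / 20 : ℝ))) ^ 2 * Q) := by ring
      _ = K * Q ^ (1 - 2 * α) * (9 * C₀ * (Cv * W4) ^ 2 * (1 + L) ^ 0 * Q ^ (-(9 / 10 - 2 * α))) := by
          rw [e1]; ring
      _ ≤ K * Q ^ (1 - 2 * α) * 1 := by gcongr
      _ ≤ K * Q ^ (1 - 2 * α) * (1 + L ^ 2) := by gcongr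
      _ = _ := by ring
  set T := TS Ad hQ0 D.toDt with hT
  have hTn : ∀ h : GS Ad, ‖T h‖ = Real.sqrt (SS α y0 Q (h : ℝ → ℂ)) := by
    intro h
    rw [← TS_norm Ad hQ0 D.toDt h, Real.sqrt_sq (norm_nonneg _)]
  -- pointwise bounds
  have hbound : ∀ b : L2, b ∈ clo T → ‖b‖ ≤ R → ∀ p : ℕ, ‖ac α y0 Q b p‖ ^ 2 ≤
      32 * K ^ 2 * (1 + L ^ 2) ^ 2 * Q ^ (-(6 * α)) * (p : ℝ) ^ (4 * α - 1) := by
    intro b hb hbR p
    refine (clo_ac Ad hQ1 hQ0 hK D.toDt hb hbR p).trans (le_of_eq ?_)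
    rw [hR2]
    have e3 : Q ^ (-(6 * α)) = Q ^ (1 - 2 * α) * Q ^ (-(1 + 4 * α)) := by
      rw [← Real.rpow_add hQ0]; congr 1; ring
    rw [e3]; ring
  have hone : ∀ b : L2, b ∈ clo T → ‖b‖ ≤ R → ∀ p : ℕ, ‖ac α y0 Q b p‖ ≤ 1 := by
    intro b hb hbR p
    by_cases hp : Big Q y0 p
    · have hp0 : (0:ℝ) < p := by exact_mod_cast hp.1.pos
      have h1 := hbound b hb hbR p
      have h2 : (p : ℝ) ^ (4 * α - 1) ≤ Q ^ (4 * α - 1) * W := by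
        rw [hW, ← hYmul]
        exact Real.rpow_le_rpow_of_nonpos (by positivity) hp.2.le (by linarith)
      have h3 : ‖ac α y0 Q b p‖ ^ 2 ≤ 1 := by
        calc _ ≤ 32 * K ^ 2 * (1 + L ^ 2) ^ 2 * Q ^ (-(6 * α)) * (p : ℝ) ^ (4 * α - 1) := h1
          _ ≤ 32 * K ^ 2 * ((1 + L) ^ 2) ^ 2 * Q ^ (-(6 * α)) * (Q ^ (4 * α - 1) * W) := by gcongr
          _ = 32 * K ^ 2 * W * (1 + L) ^ 4 * (Q ^ (-(6 * α)) * Q ^ (4 * α - 1)) := by ring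
          _ = 32 * K ^ 2 * W * (1 + L) ^ 4 * Q ^ (-(1 + 2 * α)) := by
              rw [← Real.rpow_add hQ0]; congr 2; ring
          _ ≤ 1 := d4
      nlinarith [norm_nonneg (ac α y0 Q b p)]
    · rw [ac_zero hp]
      simp
  have hac0 : ∀ p : ℕ, ‖ac α y0 Q ((0 : L2) : ℕ → ℂ) p‖ ≤ 1 := by
    intro p; unfold ac; simp
  -- the source
  have hsrc : ∀ h : GS Ad, |((h : ℝ → ℂ) (-L)).re| ≤ R / 4 * ‖T h‖ := by
    intro h
    have h1 : ‖(h : ℝ → ℂ) (-L)‖ ^ 2 = (1 + L ^ 2) * ‖dv (h : ℝ → ℂ) (-L)‖ ^ 2 := by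
      have e : ‖(((-L : ℝ)) : ℂ) - I‖ ^ 2 = 1 + L ^ 2 := by
        have e : (((-L : ℝ)) : ℂ) - I = ⟨-L, -1⟩ := by apply Complex.ext <;> simp
        rw [← Complex.normSq_eq_norm_sq, e, Complex.normSq_mk]
        ring
      unfold dv
      rw [norm_div, div_pow, e]
      field_simp
    have h2 := D.left (h : ℝ → ℂ) h.2 (-L) d13
    have h3 : Real.exp (-(2 * (1 / 2 - α)) * -L) = Q ^ (1 - 2 * α) := by
      rw [Real.rpow_def_of_pos hQ0]; congr 1; ring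
    rw [h3, ← TS_norm Ad hQ0 D.toDt h] at h2
    have h4 : ‖(h : ℝ → ℂ) (-L)‖ ^ 2 ≤ (R / 4 * ‖T h‖) ^ 2 := by
      rw [h1, mul_pow, div_pow, hR2]
      calc _ ≤ (1 + L ^ 2) * (K * Q ^ (1 - 2 * α) * ‖T h‖ ^ 2) := by gcongr
        _ = _ := by ring
    exact (Complex.abs_re_le_norm _).trans (abs_le_of_sq_le_sq' h4 (by positivity) |>.2)
  have hlp : -(2 * y0) ≤ Real.log Q := by linarith
  -- the functional
  set Lf : L2 → GS Ad → ℝ := fun b h => -((h : ℝ → ℂ) (-Real.log Q)).re - (LL2 c α y0 Q b (h : ℝ → ℂ)).re with hLf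
  obtain ⟨b, hb, hbR, hbfix⟩ := fixpt T hR0.le Lf
    (fun b hb hbR => ⟨ell2 Ad hc hα0 hα2 hQ1 hY1 c1 c3 b (hone b hb hbR), fun h => rfl⟩) (by
      intro b hb hbR h
      have h1 := hsrc h
      have h2 := LL2_diff hc hα0 hα2 hQ1 hY1 D hK hR0 b1 b2 c1 c3 c4 c5 c6 hbR (b' := 0) (by simpa using hR0.le)
        (hone b hb hbR) hac0 h.2
      have h3 := LL2_zero hc hQ1 hlp d12 hY1 D hK hC₁ hC₀ hζ hζ1 h.2
      rw [sub_zero, ← hTn h] at h2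
      rw [← hTn h] at h3
      have h4 := Complex.abs_re_le_norm (LL2 c α y0 Q b (h : ℝ → ℂ))
      have h5 : 1 / 2 * ‖b‖ * ‖T h‖ ≤ 1 / 2 * R * ‖T h‖ := by gcongr
      have h6 : ‖LL2 c α y0 Q b (h : ℝ → ℂ)‖ ≤ ‖LL2 c α y0 Q b (h : ℝ → ℂ) - LL2 c α y0 Q ((0 : L2) : ℕ → ℂ) h‖ +
          ‖LL2 c α y0 Q ((0 : L2) : ℕ → ℂ) (h : ℝ → ℂ)‖ := by
        have := norm_add_le (LL2 c α y0 Q b (h : ℝ → ℂ) - LL2 c α y0 Q ((0 : L2) : ℕ → ℂ) h)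
          (LL2 c α y0 Q ((0 : L2) : ℕ → ℂ) (h : ℝ → ℂ))
        rwa [sub_add_cancel] at this
      have h7 : 3 * Real.sqrt (K * Q * C₀) * ζ * ‖T h‖ ≤ R / 4 * ‖T h‖ := by gcongr
      simp only [hLf]
      rw [abs_le] at h1 h4 ⊢
      constructor <;> linarith [h1.1, h1.2, h4.1, h4.2])
    (by
      intro b hb b' hb' hbR hbR' h
      have h2 := LL2_diff hc hα0 hα2 hQ1 hY1 D hK hR0 b1 b2 c1 c3 c4 c5 c6 hbR hbR' (hone b hb hbR)
        (hone b' hb' hbR') h.2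
      rw [← hTn h] at h2
      have h4 := Complex.abs_re_le_norm (LL2 c α y0 Q b (h : ℝ → ℂ) - LL2 c α y0 Q b' (h : ℝ → ℂ))
      rw [Complex.sub_re] at h4
      simp only [hLf]
      have e : -((h : ℝ → ℂ) (-Real.log Q)).re - (LL2 c α y0 Q b (h : ℝ → ℂ)).re -
          (-((h : ℝ → ℂ) (-Real.log Q)).re - (LL2 c α y0 Q b' (h : ℝ → ℂ)).re) =
          -((LL2 c α y0 Q b (h : ℝ → ℂ)).re - (LL2 c α y0 Q b' (h : ℝ → ℂ)).re) := by ring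
      rw [e, abs_neg]
      exact h4.trans h2)
  have hab := hone b hb hbR
  refine ⟨ac α y0 Q b, fun p hp => ac_zero hp, hab, ⟨_, hbound b hb hbR⟩, d12,
    mf_summable hc hα0 hQ1 hY1 c1 c3 b hab, ?_⟩
  intro h hg
  have hD := good_dec hg
  have hfix := hbfix ⟨h, hg⟩
  have h1 := lp.hasSum_inner (𝕜 := ℝ) b (T ⟨h, hg⟩)
  rw [hfix] at h1
  have h2 : HasSum (fun n : ℕ => (ac α y0 Q b n * h (zz Q n)).re)
      (-(h (-Real.log Q)).re - (LL2 c α y0 Q b h).re) := by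
    refine h1.congr_fun ?_
    intro n
    rw [Complex.inner]
    have e : (T ⟨h, hg⟩ : L2) n = ((Real.sqrt (ww α y0 Q n) : ℝ) : ℂ) * dv h (zz Q n) := rfl
    rw [e]
    congr 1
    unfold ac dv
    ring
  have h3 := Complex.hasSum_re (cc2_h_summable hc hα0 hα2 hQ1 hY1 c1 c3 b hab hD).hasSum
  have h4 : HasSum (fun n : ℕ => if n = 1 then (h (zz Q n)).re else 0) ((h (-Real.log Q)).re) := by
    have := hasSum_ite_eq (α := ℝ) (β := ℕ) 1 ((h (-Real.log Q)).re)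
    refine this.congr_fun ?_
    intro n
    split_ifs with hn
    · subst hn; simp [zz]
    · rfl
  have h5 := (h4.add h2).add h3
  have e0 : (h (-Real.log Q)).re + (-(h (-Real.log Q)).re - (LL2 c α y0 Q b h).re) +
      (∑' n, cc2 c Q y0 (ac α y0 Q b) n * h (zz Q n)).re = 0 := by
    unfold LL2; ring
  rw [e0] at h5
  refine h5.congr_fun ?_
  intro n
  rw [mf_split hc b n]
  split_ifs with hn
  · rw [add_mul, add_mul, one_mul, Complex.add_re, Complex.add_re]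
  · rw [zero_add, add_mul, Complex.add_re]; simp

end Pool.Agent.H616.SP
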