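import Pool.Agent.H616.SP.Roots
import Pool.Agent.H616.SP.Fix

set_option autoImplicit false

/-!
# Multiplicativity, the bound `n^ε` and the Euler product
-/

namespace Pool.Agent.H616.SP

open Filter Topology Polynomial
open Pool.Agent.H483.FE Pool.Agent.H483.SA

section

variable {c : ℂ → ℕ → ℂ} {Q y0 : ℝ} {a : ℕ → ℂ}

lemma pp_disjoint {m n : ℕ} (h : Nat.Coprime m n) : Disjoint (pp m) (pp n) := by
  rw [Finset.disjoint_left]
  intro q h1 h2
  obtain ⟨p, k, hp, hk, rfl, hpm, -⟩ := pp_spec h1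
  obtain ⟨p', k', hp', hk', he, hpn, -⟩ := pp_spec h2
  have e : p = p' := by
    rw [← minFac_pow hp (by omega : k ≠ 0), he, minFac_pow hp' (by omega)]
  have h3 := Nat.dvd_gcd (Nat.dvd_of_mem_primeFactors hpm) (e ▸ Nat.dvd_of_mem_primeFactors hpn)
  rw [h.gcd_eq_one] at h3
  exact hp.one_lt.ne' (Nat.dvd_one.1 h3)

lemma mf_mul {m n : ℕ} (h : Nat.Coprime m n) : mf c Q y0 a (m * n) = mf c Q y0 a m * mf c Q y0 a n := by
  rcases Nat.eq_zero_or_pos m with rfl | hm
  · rw [zero_mul, mf_zero, zero_mul]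
  rcases Nat.eq_zero_or_pos n with rfl | hn
  · rw [mul_zero, mf_zero, mul_zero]
  rw [mf_ne (Nat.mul_pos hm hn).ne', mf_ne hm.ne', mf_ne hn.ne', pp_mul h, Finset.prod_union (pp_disjoint h)]

lemma mf_pow {p k : ℕ} (hp : p.Prime) (hk : k ≠ 0) :
    mf c Q y0 a (p ^ k) = open Classical in if Big Q y0 p then c (a p) k else 0 := by
  rw [mf_ne (pow_ne_zero k hp.ne_zero), pp_prime_pow hp hk, Finset.prod_singleton]
  unfold rho
  rw [minFac_pow hp hk, ex_pow hp hk]
  by_cases hb : Big Q y0 p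
  · rw [if_pos ⟨⟨p, k, hp, by omega, rfl⟩, hb⟩, if_pos hb]
  · rw [if_neg (fun h => hb h.2), if_neg hb]

end

/-! ### coefficients of the inverse of a product -/

lemma mk_pow_mul (x : ℂ) : PowerSeries.mk (fun k => x ^ k) * ((1 - C x * X : ℂ[X]) : PowerSeries ℂ) = 1 := by
  ext k
  rw [Polynomial.coe_sub, Polynomial.coe_one, Polynomial.coe_mul, Polynomial.coe_C, Polynomial.coe_X, mul_sub, mul_one,
    map_sub, PowerSeries.coeff_mk, PowerSeries.coeff_one]
  rcases k with _ | k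
  · simp
  · have e : (PowerSeries.mk fun k => x ^ k) * (PowerSeries.C x * PowerSeries.X) =
        (PowerSeries.C x * PowerSeries.mk fun k => x ^ k) * PowerSeries.X := by ring
    rw [e, PowerSeries.coeff_succ_mul_X, PowerSeries.coeff_C_mul, PowerSeries.coeff_mk, if_neg (by omega), pow_succ]
    ring

lemma const_ne (x : ℂ) : PowerSeries.constantCoeff ((1 - C x * X : ℂ[X]) : PowerSeries ℂ) ≠ 0 := by
  rw [← PowerSeries.coeff_zero_eq_constantCoeff_apply, Polynomial.coeff_coe]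
  simp

lemma inv_prod_bd {ι : Type*} (al : ι → ℂ) (hal : ∀ j, ‖al j‖ ≤ 1) (S : Finset ι) (f : ℕ → ℂ)
    (hf : PowerSeries.mk f * ((∏ j ∈ S, (1 - C (al j) * X) : ℂ[X]) : PowerSeries ℂ) = 1) (k : ℕ) :
    ‖f k‖ ≤ ((k : ℝ) + 1) ^ S.card := by
  classical
  induction S using Finset.induction_on generalizing f k with
  | empty =>
    rw [Finset.prod_empty, Polynomial.coe_one, mul_one] at hf
    have := congrArg (PowerSeries.coeff k) hf
    rw [PowerSeries.coeff_mk, PowerSeries.coeff_one] at this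
    rw [this]
    split_ifs <;> simp
  | insert j S hj ih =>
    rw [Finset.prod_insert hj, Polynomial.coe_mul, ← mul_assoc] at hf
    set g : ℕ → ℂ := fun k => PowerSeries.coeff k
      (PowerSeries.mk f * ((1 - C (al j) * X : ℂ[X]) : PowerSeries ℂ)) with hg
    have hgm : PowerSeries.mk g = PowerSeries.mk f * ((1 - C (al j) * X : ℂ[X]) : PowerSeries ℂ) := by
      ext k; rw [PowerSeries.coeff_mk]
    rw [← hgm] at hf
    have h1 := ih g hf
    have h2 : PowerSeries.mk f = PowerSeries.mk (fun k => (al j) ^ k) * PowerSeries.mk g := by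
      rw [hgm, mul_left_comm, mk_pow_mul, mul_one]
    have h3 := congrArg (PowerSeries.coeff k) h2
    rw [PowerSeries.coeff_mk, PowerSeries.coeff_mul, Finset.Nat.sum_antidiagonal_eq_sum_range_succ_mk] at h3
    rw [h3, Finset.card_insert_of_notMem hj]
    refine (norm_sum_le _ _).trans ?_
    calc ∑ i ∈ Finset.range k.succ, ‖PowerSeries.coeff i (PowerSeries.mk fun k => (al j) ^ k) *
          PowerSeries.coeff (k - i) (PowerSeries.mk g)‖ ≤ ∑ i ∈ Finset.range k.succ, ((k : ℝ) + 1) ^ S.card := by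
          apply Finset.sum_le_sum
          intro i hi
          rw [PowerSeries.coeff_mk, PowerSeries.coeff_mk, norm_mul, norm_pow]
          have h4 := h1 (k - i)
          have h5 : ‖al j‖ ^ i ≤ 1 := pow_le_one₀ (norm_nonneg _) (hal j)
          have h6 : (((k - i : ℕ) : ℝ) + 1) ^ S.card ≤ ((k : ℝ) + 1) ^ S.card := by
            have : ((k - i : ℕ) : ℝ) ≤ k := by exact_mod_cast Nat.sub_le k i
            gcongr
          calc _ ≤ 1 * (((k - i : ℕ) : ℝ) + 1) ^ S.card := by gcongr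
            _ ≤ _ := by rw [one_mul]; exact h6
      _ = _ := by rw [Finset.sum_const, Finset.card_range, nsmul_eq_mul, pow_succ]; push_cast; ring

/-! ### the bound `n^ε` -/

lemma poly_exp (m : ℕ) {r : ℝ} (hr : 1 < r) : ∃ C : ℝ, 1 ≤ C ∧ ∀ k : ℕ, ((k : ℝ) + 1) ^ m ≤ C * r ^ k := by
  have h1 := (isLittleO_pow_const_const_pow_of_one_lt (R := ℝ) m hr).tendsto_div_nhds_zero
  obtain ⟨B, hB⟩ := h1.bddAbove_range
  have hB' : ∀ k : ℕ, (k : ℝ) ^ m / r ^ k ≤ B := fun k => hB ⟨k, rfl⟩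
  refine ⟨max 1 (r * B), le_max_left _ _, fun k => ?_⟩
  have h2 := hB' (k + 1)
  have hr0 : 0 < r := by linarith
  rw [div_le_iff₀ (by positivity)] at h2
  push_cast at h2
  calc ((k : ℝ) + 1) ^ m ≤ B * r ^ (k + 1) := h2
    _ = (r * B) * r ^ k := by ring
    _ ≤ _ := by gcongr; exact le_max_right _ _

/-- a divisor type bound -/
lemma divisor_type (m : ℕ) {ε : ℝ} (hε : 0 < ε) : ∃ C : ℝ, ∀ n : ℕ, n ≠ 0 →
    ∏ q ∈ pp n, ((ex q : ℝ) + 1) ^ m ≤ C * (n : ℝ) ^ ε := by
  obtain ⟨C, hC1, hC⟩ := poly_exp m (r := (2:ℝ) ^ ε) (Real.one_lt_rpow (by norm_num) hε)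
  obtain ⟨P0, hP0⟩ : ∃ P0 : ℕ, (2:ℝ) ^ m ≤ (P0 : ℝ) ^ ε := by
    have h1 : Tendsto (fun n : ℕ => (n : ℝ) ^ ε) atTop atTop :=
      (tendsto_rpow_atTop hε).comp tendsto_natCast_atTop_atTop
    exact (h1.eventually_ge_atTop _).exists
  refine ⟨C ^ P0, fun n hn => ?_⟩
  have hC0 : 0 ≤ C := by linarith
  have hpt : ∀ p ∈ n.primeFactors, (((n.factorization p : ℕ) : ℝ) + 1) ^ m ≤
      (if p < P0 then C else 1) * ((p ^ n.factorization p : ℕ) : ℝ) ^ ε := by
    intro p hp
    have hpp := Nat.prime_of_mem_primeFactors hp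
    have hp0 : (0:ℝ) < p := by exact_mod_cast hpp.pos
    set k := n.factorization p
    have e1 : ((p ^ k : ℕ) : ℝ) ^ ε = ((p : ℝ) ^ ε) ^ k := by
      push_cast
      rw [← Real.rpow_natCast, ← Real.rpow_natCast, ← Real.rpow_mul hp0.le, ← Real.rpow_mul hp0.le, mul_comm]
    rw [e1]
    split_ifs with h
    · refine (hC k).trans ?_
      have h2 : (2:ℝ) ^ ε ≤ (p : ℝ) ^ ε := by
        have : (2:ℝ) ≤ p := by exact_mod_cast hpp.two_le
        gcongr
      gcongr
    · rw [one_mul]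
      have h3 : ((k : ℝ) + 1) ≤ 2 ^ k := by
        have := Nat.lt_two_pow_self (n := k)
        exact_mod_cast this
      have h4 : (P0 : ℝ) ^ ε ≤ (p : ℝ) ^ ε := by
        have : (P0 : ℝ) ≤ p := by exact_mod_cast not_lt.1 h
        gcongr
      calc ((k : ℝ) + 1) ^ m ≤ (2 ^ k) ^ m := by gcongr
        _ = (2 ^ m) ^ k := by rw [← pow_mul, ← pow_mul, mul_comm]
        _ ≤ ((p : ℝ) ^ ε) ^ k := by
            gcongr
            exact hP0.trans h4
  rw [prod_pp' n (fun q => ((ex q : ℝ) + 1) ^ m)]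
  calc ∏ p ∈ n.primeFactors, (((ex (p ^ n.factorization p) : ℕ) : ℝ) + 1) ^ m
      ≤ ∏ p ∈ n.primeFactors, ((if p < P0 then C else 1) * ((p ^ n.factorization p : ℕ) : ℝ) ^ ε) := by
        apply Finset.prod_le_prod
        · intro p _; positivity
        · intro p hp
          rw [ex_pow (Nat.prime_of_mem_primeFactors hp) (fac_pos hp)]
          exact hpt p hp
    _ = (∏ p ∈ n.primeFactors, (if p < P0 then C else 1)) * (n : ℝ) ^ ε := by
        rw [Finset.prod_mul_distrib, Real.finsetProd_rpow _ _ (fun q _ => Nat.cast_nonneg _)]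
        congr 2
        conv_rhs => rw [← prod_pp hn, prod_pp' n (fun q => q)]
        push_cast
        rfl
    _ ≤ C ^ P0 * (n : ℝ) ^ ε := by
        gcongr
        rw [Finset.prod_ite, Finset.prod_const, Finset.prod_const_one, mul_one]
        apply pow_le_pow_right₀ hC1
        calc (n.primeFactors.filter fun p => p < P0).card ≤ (Finset.range P0).card := by
              apply Finset.card_le_card
              intro p hp
              exact Finset.mem_range.2 (Finset.mem_filter.1 hp).2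
          _ = P0 := Finset.card_range _

/-- the Ramanujan bound -/
lemma mf_ram {c : ℂ → ℕ → ℂ} {Q y0 : ℝ} {a : ℕ → ℂ} {m : ℕ}
    (hb : ∀ p k : ℕ, p.Prime → k ≠ 0 → ‖mf c Q y0 a (p ^ k)‖ ≤ ((k : ℝ) + 1) ^ m) {ε : ℝ} (hε : 0 < ε) :
    ∃ C : ℝ, ∀ n : ℕ, 1 ≤ n → ‖mf c Q y0 a n‖ ≤ C * (n : ℝ) ^ ε := by
  obtain ⟨C, hC⟩ := divisor_type m hε
  refine ⟨C, fun n hn => ?_⟩
  have hn0 : n ≠ 0 := by omega
  refine le_trans ?_ (hC n hn0)
  rw [mf_ne hn0, norm_prod]
  apply Finset.prod_le_prod (fun q _ => norm_nonneg _)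
  intro q hq
  obtain ⟨p, k, hp, hk, rfl, -, -⟩ := pp_spec hq
  have h1 := hb p k hp (by omega)
  rw [mf_ne (pow_ne_zero k hp.ne_zero), pp_prime_pow hp (by omega), Finset.prod_singleton] at h1
  rw [ex_pow hp (by omega)]
  exact h1

/-! ### the Euler product -/

/-- evaluation of a formal identity -/
lemma local_eval {f : ℕ → ℂ} {R : ℂ[X]} (hf : PowerSeries.mk f * (R : PowerSeries ℂ) = 1) {x : ℂ}
    (hs : Summable fun k => ‖f k * x ^ k‖) : (∑' k, f k * x ^ k) * R.eval x = 1 := by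
  have hR : Summable fun k => ‖R.coeff k * x ^ k‖ := by
    apply summable_of_ne_finset_zero (s := R.support)
    intro k hk
    rw [Polynomial.notMem_support_iff.1 hk]; simp
  have h1 : ∑' k, R.coeff k * x ^ k = R.eval x := by
    rw [Polynomial.eval_eq_sum, Polynomial.sum, tsum_eq_sum (s := R.support)]
    intro k hk
    rw [Polynomial.notMem_support_iff.1 hk]; simp
  rw [← h1, tsum_mul_tsum_eq_tsum_sum_antidiagonal_of_summable_norm hs hR]
  have h2 : ∀ n : ℕ, ∑ kl ∈ Finset.HasAntidiagonal.antidiagonal n, f kl.1 * x ^ kl.1 * (R.coeff kl.2 * x ^ kl.2) =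
      if n = 0 then 1 else 0 := by
    intro n
    have h3 := congrArg (PowerSeries.coeff n) hf
    rw [PowerSeries.coeff_mul, PowerSeries.coeff_one] at h3
    simp only [PowerSeries.coeff_mk, Polynomial.coeff_coe] at h3
    calc _ = ∑ kl ∈ Finset.HasAntidiagonal.antidiagonal n, (f kl.1 * R.coeff kl.2) * x ^ n := by
          apply Finset.sum_congr rfl
          intro kl hkl
          rw [← Finset.HasAntidiagonal.mem_antidiagonal.1 hkl, pow_add]
          ring
      _ = (if n = 0 then 1 else 0) * x ^ n := by rw [← Finset.sum_mul, h3]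
      _ = _ := by split_ifs with h <;> simp [h]
  simp_rw [h2]
  rw [tsum_ite_eq]

/-- the local exponential -/
lemma local_exp {m : ℕ} (al : Fin m → ℂ) (hal : ∀ j, ‖al j‖ ≤ 1) {x : ℂ} (hx : ‖x‖ < 1) :
    Complex.exp (∑' k : ℕ, (∑ j, al j ^ (k + 1)) / ((k + 1 : ℕ) : ℂ) * x ^ (k + 1)) = ∏ j, (1 - al j * x)⁻¹ := by
  have hz : ∀ j, ‖al j * x‖ < 1 := by
    intro j
    rw [norm_mul]
    calc ‖al j‖ * ‖x‖ ≤ 1 * ‖x‖ := by
          have := hal j
          gcongr
      _ < 1 := by rw [one_mul]; exact hx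
  have h1 : ∀ j, HasSum (fun k : ℕ => (al j * x) ^ (k + 1) / ((k + 1 : ℕ) : ℂ)) (-Complex.log (1 - al j * x)) := by
    intro j
    have h2 := Complex.hasSum_taylorSeries_neg_log (hz j)
    have h3 := (hasSum_nat_add_iff' 1).2 h2
    simpa using h3
  have h2 := hasSum_sum (s := Finset.univ) (fun j _ => h1 j)
  have h3 : ∑' k : ℕ, (∑ j, al j ^ (k + 1)) / ((k + 1 : ℕ) : ℂ) * x ^ (k + 1) = ∑ j, -Complex.log (1 - al j * x) := by
    rw [← h2.tsum_eq]
    congr 1
    funext k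
    rw [Finset.sum_div, Finset.sum_mul]
    apply Finset.sum_congr rfl
    intro j _
    rw [mul_pow]; ring
  rw [h3, Complex.exp_sum]
  apply Finset.prod_congr rfl
  intro j _
  rw [Complex.exp_neg, Complex.exp_log]
  intro h
  have h4 : al j * x = 1 := by linear_combination -h
  have := hz j
  rw [h4] at this
  simp at this

section

variable {c : ℂ → ℕ → ℂ} {Q y0 : ℝ} {a : ℕ → ℂ} {m : ℕ}

/-- the Euler product -/
theorem euler_poly (al : ℕ → Fin m → ℂ) (hal : ∀ p j, ‖al p j‖ ≤ 1)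
    (hloc : ∀ p : ℕ, p.Prime → PowerSeries.mk (fun k => mf c Q y0 a (p ^ k)) *
      ((∏ j, (1 - C (al p j) * X) : ℂ[X]) : PowerSeries ℂ) = 1) {s : ℂ} (hs0 : 0 < s.re)
    (hs : LSeriesSummable (mf c Q y0 a) s) :
    HasProd (fun p : Nat.Primes => ∏ j, (1 - al p j * ((p : ℕ) : ℂ) ^ (-s))⁻¹) (LSeries (mf c Q y0 a) s) := by
  set f := mf c Q y0 a with hf
  have h0 : LSeries.term f s 0 = 0 := LSeries.term_zero _ _
  have h1 : LSeries.term f s 1 = 1 := by
    rw [LSeries.term_of_ne_zero one_ne_zero, hf, mf_one]; simp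
  have hmul : ∀ {m n : ℕ}, Nat.Coprime m n →
      LSeries.term f s (m * n) = LSeries.term f s m * LSeries.term f s n := by
    intro m n h
    rcases Nat.eq_zero_or_pos m with rfl | hm
    · simp
    rcases Nat.eq_zero_or_pos n with rfl | hn
    · simp
    rw [LSeries.term_of_ne_zero (Nat.mul_pos hm hn).ne', LSeries.term_of_ne_zero hm.ne',
      LSeries.term_of_ne_zero hn.ne', hf, mf_mul h]
    push_cast
    rw [Complex.natCast_mul_natCast_cpow]
    field_simp
  have hprod := EulerProduct.eulerProduct_hasProd h1 hmul hs.norm h0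
  have e : (∑' n, LSeries.term f s n) = LSeries f s := rfl
  rw [e] at hprod
  convert! hprod using 1
  funext p
  have hp := p.2
  have hp0 : ((p : ℕ) : ℂ) ≠ 0 := by exact_mod_cast hp.ne_zero
  set x : ℂ := ((p : ℕ) : ℂ) ^ (-s) with hx
  have hx1 : ‖x‖ < 1 := by
    rw [hx, Complex.norm_natCast_cpow_of_pos hp.pos]
    apply Real.rpow_lt_one_of_one_lt_of_neg
    · exact_mod_cast hp.one_lt
    · simp; exact hs0
  have hterm : ∀ k : ℕ, LSeries.term f s ((p : ℕ) ^ k) = f ((p : ℕ) ^ k) * x ^ k := by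
    intro k
    rw [LSeries.term_of_ne_zero (pow_ne_zero _ hp.ne_zero), div_eq_mul_inv]
    congr 1
    rw [hx, ← Complex.cpow_nat_mul, ← Complex.cpow_neg]
    push_cast
    rw [← Complex.cpow_nat_mul' (by simp [Complex.natCast_arg, Real.pi_pos]) (by simp [Complex.natCast_arg, Real.pi_pos.le])]
  have hsum : Summable fun k => ‖f ((p : ℕ) ^ k) * x ^ k‖ := by
    have h3 : Summable fun k : ℕ => ‖LSeries.term f s ((p : ℕ) ^ k)‖ :=
      hs.norm.comp_injective (Nat.pow_right_injective hp.two_le)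
    refine h3.congr fun k => ?_
    rw [hterm]
  have hle := local_eval (hloc p hp) hsum
  have h4 : (∑' k, LSeries.term f s ((p : ℕ) ^ k)) = ∑' k, f ((p : ℕ) ^ k) * x ^ k := by
    congr 1; funext k; exact hterm k
  rw [h4, Finset.prod_inv_distrib]
  have h5 : (∏ j, (1 - C (al p j) * X) : ℂ[X]).eval x = ∏ j, (1 - al p j * x) := by
    rw [Polynomial.eval_prod]
    simp
  rw [h5] at hle
  exact (eq_inv_of_mul_eq_one_left hle).symm

/-- the coefficients of the logarithm -/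
noncomputable def bcf (al : ℕ → Fin m → ℂ) (n : ℕ) : ℂ := (∑ j, al n.minFac j ^ (ex n)) / ((ex n : ℕ) : ℂ)

lemma bcf_pow (al : ℕ → Fin m → ℂ) {p k : ℕ} (hp : p.Prime) (hk : k ≠ 0) :
    bcf al (p ^ k) = (∑ j, al p j ^ k) / (k : ℂ) := by
  unfold bcf
  rw [minFac_pow hp hk, ex_pow hp hk]

lemma bcf_le {al : ℕ → Fin m → ℂ} (hal : ∀ p j, ‖al p j‖ ≤ 1) {p k : ℕ} (hp : p.Prime) (hk : k ≠ 0) :
    ‖bcf al (p ^ k)‖ ≤ m := by
  rw [bcf_pow al hp hk, norm_div, Complex.norm_natCast]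
  have hk1 : (1:ℝ) ≤ k := by exact_mod_cast Nat.one_le_iff_ne_zero.2 hk
  have h1 : ‖∑ j, al p j ^ k‖ ≤ m := by
    refine (norm_sum_le _ _).trans ?_
    calc ∑ j : Fin m, ‖al p j ^ k‖ ≤ ∑ _j : Fin m, (1:ℝ) := by
          apply Finset.sum_le_sum
          intro j _
          rw [norm_pow]
          exact pow_le_one₀ (norm_nonneg _) (hal p j)
      _ = m := by simp
  calc _ ≤ ‖∑ j, al p j ^ k‖ / 1 := by gcongr
    _ ≤ m := by rw [div_one]; exact h1

/-- the Euler product in exponential form -/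
theorem euler_exp2 (al : ℕ → Fin m → ℂ) (hal : ∀ p j, ‖al p j‖ ≤ 1)
    (hloc : ∀ p : ℕ, p.Prime → PowerSeries.mk (fun k => mf c Q y0 a (p ^ k)) *
      ((∏ j, (1 - C (al p j) * X) : ℂ[X]) : PowerSeries ℂ) = 1) {s : ℂ} (hs0 : 0 < s.re)
    (hs : LSeriesSummable (mf c Q y0 a) s) :
    HasProd (fun p : Nat.Primes =>
      Complex.exp (∑' k : ℕ, bcf al ((p : ℕ) ^ (k + 1)) * ((p : ℕ) : ℂ) ^ (-(((k + 1 : ℕ) : ℂ) * s))))
      (LSeries (mf c Q y0 a) s) := by
  convert! euler_poly al hal hloc hs0 hs using 1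
  funext p
  have hp := p.2
  have hx1 : ‖((p : ℕ) : ℂ) ^ (-s)‖ < 1 := by
    rw [Complex.norm_natCast_cpow_of_pos hp.pos]
    apply Real.rpow_lt_one_of_one_lt_of_neg
    · exact_mod_cast hp.one_lt
    · simp; exact hs0
  rw [← local_exp (al p) (hal p) hx1]
  congr 1
  congr 1
  funext k
  rw [bcf_pow al hp (by omega)]
  have e : ((p : ℕ) : ℂ) ^ (-(((k + 1 : ℕ) : ℂ) * s)) = (((p : ℕ) : ℂ) ^ (-s)) ^ (k + 1) := by
    rw [← Complex.cpow_nat_mul]
    congr 1
    push_cast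
    ring
  rw [e]

end

end Pool.Agent.H616.SP
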