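import Pool.Agent.H483.SA.Main
import Pool.Agent.H616.SP.Eul

set_option autoImplicit false

/-!
# The family: polynomial Euler products with an arbitrary gamma factor of degree larger than `400/77`
-/

namespace Pool.Agent.H616.SP

open Set Filter Topology Complex
open Pool.Agent.H483.FE Pool.Agent.H483.SA Pool.Agent.H902R3.PZ
open scoped ComplexConjugate

/-- the data of one member -/
structure Mem (r : ℕ) (lam : Fin r → ℝ) (mu : Fin r → ℂ) (m : ℕ) (N : ℂ → Prop) (P : ℂ → Polynomial ℂ) (Q : ℝ) (ω : ℂ)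
    (f : ℕ → ℂ) (al : ℕ → Fin m → ℂ) (P0 : ℝ) (G : ℂ → ℂ) : Prop where
  f0 : f 0 = 0
  f1 : f 1 = 1
  mul : ∀ a b : ℕ, Nat.Coprime a b → f (a * b) = f a * f b
  big : ∀ p : ℕ, p.Prime → P0 < p → ‖f p‖ ≤ 1 ∧ (∀ j, N (al p j)) ∧
    P (f p) = ∏ j, (1 - Polynomial.C (al p j) * Polynomial.X)
  small : ∀ p : ℕ, p.Prime → (p : ℝ) ≤ P0 → ∀ j, al p j = 0
  loc : ∀ p : ℕ, p.Prime → PowerSeries.mk (fun k => f (p ^ k)) *
      ((∏ j, (1 - Polynomial.C (al p j) * Polynomial.X) : Polynomial ℂ) : PowerSeries ℂ) = 1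
  dec : ∃ C : ℝ, ∀ p : ℕ, p.Prime → ‖f p‖ ^ 2 ≤ C * (p : ℝ) ^ (4 * (77 / 400 : ℝ) - 1)
  ram : ∀ ε : ℝ, 0 < ε → ∃ C : ℝ, ∀ n : ℕ, 1 ≤ n → ‖f n‖ ≤ C * (n : ℝ) ^ ε
  alb : ∀ p j, ‖al p j‖ ≤ 1
  diff : Differentiable ℂ G
  ord : Gr G
  ser : ∀ s : ℂ, 277 / 400 < s.re → LSeriesSummable f s ∧ G s = LSeries f s
  eul : ∀ s : ℂ, 277 / 400 < s.re →
    HasProd (fun p : Nat.Primes => ∏ j, (1 - al p j * ((p : ℕ) : ℂ) ^ (-s))⁻¹) (LSeries f s)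
  eux : ∀ s : ℂ, 277 / 400 < s.re → HasProd (fun p : Nat.Primes =>
      Complex.exp (∑' k : ℕ, bcf al ((p : ℕ) ^ (k + 1)) * ((p : ℕ) : ℂ) ^ (-(((k + 1 : ℕ) : ℂ) * s))))
      (LSeries f s)
  fe : ∀ s : ℂ, (∀ j, ∀ n : ℕ, (lam j : ℂ) * s + mu j ≠ -(n : ℂ)) →
        (∀ j, ∀ n : ℕ, (lam j : ℂ) * (1 - conj s) + mu j ≠ -(n : ℂ)) →
        G s * (Q : ℂ) ^ s * ∏ j, Complex.Gamma ((lam j : ℂ) * s + mu j) =
          ω * conj (G (1 - conj s) * (Q : ℂ) ^ (1 - conj s) *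
            ∏ j, Complex.Gamma ((lam j : ℂ) * (1 - conj s) + mu j))

/-- **The family.** -/
theorem family2 {r : ℕ} {lam : Fin r → ℝ} {mu : Fin r → ℂ} (hl : ∀ j, 0 < lam j) (hm : ∀ j, 0 ≤ (mu j).re)
    (h1 : 400 / 77 < 2 * ∑ j, lam j) {P : ℂ → Polynomial ℂ} {M : ℝ} (hP : PF P M) {m : ℕ} {N : ℂ → Prop}
    (hN : ∀ z, N z → ‖z‖ ≤ 1)
    (hroots : ∀ a : ℂ, ‖a‖ ≤ 1 → ∃ al : Fin m → ℂ, (∀ j, N (al j)) ∧
      P a = ∏ j, (1 - Polynomial.C (al j) * Polynomial.X)) :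
    ∃ Q₀ : ℝ, 1 ≤ Q₀ ∧ ∀ Q : ℝ, Q₀ ≤ Q → ∀ ω : ℂ, ‖ω‖ = 1 →
      ∃ (f : ℕ → ℂ) (al : ℕ → Fin m → ℂ) (P0 : ℝ) (G : ℂ → ℂ), Mem r lam mu m N P Q ω f al P0 G := by
  set α : ℝ := 77 / 400 with hαdef
  have hα0 : 0 < α := by rw [hαdef]; norm_num
  have hα2 : α < 1 / 2 := by rw [hαdef]; norm_num
  have h1' : 1 < (2 * ∑ j, lam j) * α := by
    rw [hαdef]
    have : (400 / 77 : ℝ) * (77 / 400) = 1 := by norm_num
    nlinarith
  have hA : ∀ c : ℂ, c ≠ 0 → Adm2 (gm c lam mu) α := fun c hc => gm_Adm2 hc hl hm hα0 hα2 (by linarith)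
  obtain ⟨C, hC, hR⟩ := (hA 1 one_ne_zero).rho'
  obtain ⟨y0, K, Q₁, -, hK, hQ₁, hdat⟩ := data2 (α := α) (E := 50 * (4 * C ^ 2)) (θ := 0.615) hα0
    (by rw [hαdef]; norm_num) (by positivity) (by norm_num) (by norm_num) (by rw [hαdef]; norm_num) pi_main
  obtain ⟨Q₂, hQ₂, hrel⟩ := relations2 (α := α) (y0 := y0) (K := K) hP.loc hαdef.ge (by rw [hαdef]; norm_num) hK
  refine ⟨max Q₁ Q₂, hQ₁.trans (le_max_left _ _), fun Q hQ ω hω => ?_⟩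
  have hQ1 : 1 ≤ Q := (hQ₁.trans (le_max_left _ _)).trans hQ
  have hQ0 : 0 < Q := by linarith
  obtain ⟨c, hc, hcω⟩ := exists_root hω
  have hc0 : c ≠ 0 := by rintro rfl; simp at hc
  have hAc := (hA c hc0).toAdm
  have hD : Dt2 (gm c lam mu) α y0 K Q := hdat Q ((le_max_left _ _).trans hQ) _ (by
    intro h hg
    obtain ⟨f', g1, g2, g3, g4, g5⟩ := dv_energy hAc hC (gm_Rho hR hc) h hg
    exact ⟨f', ⟨g1, g2, g3, g4, g5⟩⟩)
  obtain ⟨a, ha1, ha2, ha3, ha3', ha4, ha5⟩ := hrel Q ((le_max_right _ _).trans hQ) _ hAc hD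
  obtain ⟨G, hG1, hG2, hG3, hG4⟩ := series_of hc0 hQ0 hl hm hAc (mf_zero (cof P) Q y0 a) ha4 ha5
  rw [hcω] at hG4
  -- the roots
  choose! R hR1 hR2 using hroots
  classical
  set al : ℕ → Fin m → ℂ := fun p => if Big Q y0 p then R (a p) else 0 with hal
  have hfp : ∀ p : ℕ, p.Prime → mf (cof P) Q y0 a p = a p := by
    intro p hp
    have h2 := mf_pow (c := cof P) (Q := Q) (y0 := y0) (a := a) hp one_ne_zero
    rw [pow_one] at h2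
    rw [h2]
    split_ifs with hb
    · exact hP.loc.one (a p)
    · exact (ha1 p hb).symm
  have hloc : ∀ p : ℕ, p.Prime → PowerSeries.mk (fun k => mf (cof P) Q y0 a (p ^ k)) *
      ((∏ j, (1 - Polynomial.C (al p j) * Polynomial.X) : Polynomial ℂ) : PowerSeries ℂ) = 1 := by
    intro p hp
    by_cases hb : Big Q y0 p
    · have e1 : (PowerSeries.mk fun k => mf (cof P) Q y0 a (p ^ k)) = PowerSeries.mk (cof P (a p)) := by
        ext k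
        rw [PowerSeries.coeff_mk, PowerSeries.coeff_mk]
        rcases Nat.eq_zero_or_pos k with rfl | hk
        · rw [pow_zero, mf_one, cof_zero (hP.c0 _)]
        · rw [mf_pow hp hk.ne', if_pos hb]
      have e2 : al p = R (a p) := by simp only [hal]; rw [if_pos hb]
      rw [e1, e2, ← hR2 (a p) (ha2 p)]
      exact cof_mul (hP.c0 _)
    · have e1 : (PowerSeries.mk fun k => mf (cof P) Q y0 a (p ^ k)) = 1 := by
        ext k
        rw [PowerSeries.coeff_mk, PowerSeries.coeff_one]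
        rcases Nat.eq_zero_or_pos k with rfl | hk
        · rw [pow_zero, mf_one, if_pos rfl]
        · rw [mf_pow hp hk.ne', if_neg hb, if_neg hk.ne']
      have e2 : al p = 0 := by simp only [hal]; rw [if_neg hb]
      rw [e1, e2]
      simp
  have halb : ∀ p j, ‖al p j‖ ≤ 1 := by
    intro p j
    simp only [hal]
    split_ifs
    · exact hN _ (hR1 (a p) (ha2 p) j)
    · simp
  have hser : ∀ s : ℂ, 277 / 400 < s.re → LSeriesSummable (mf (cof P) Q y0 a) s ∧ G s = LSeries (mf (cof P) Q y0 a) s := by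
    intro s hs
    apply hG3
    rw [hαdef]
    linarith
  refine ⟨mf (cof P) Q y0 a, al, Q * Real.exp y0, G, ⟨mf_zero _ _ _ _, mf_one _ _ _ _, fun x y h => mf_mul h, ?_, ?_,
    hloc, ?_, ?_, halb, hG1, hG2, hser, ?_, ?_, hG4⟩⟩
  · intro p hp hlt
    rw [hfp p hp]
    have hb : Big Q y0 p := ⟨hp, hlt⟩
    have e2 : al p = R (a p) := by simp only [hal]; rw [if_pos hb]
    rw [e2]
    exact ⟨ha2 p, hR1 (a p) (ha2 p), hR2 (a p) (ha2 p)⟩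
  · intro p hp hle j
    have hb : ¬ Big Q y0 p := fun h => absurd h.2 (not_lt.2 hle)
    simp only [hal]
    rw [if_neg hb]
    rfl
  · obtain ⟨C', hC'⟩ := ha3
    exact ⟨C', fun p hp => by rw [hfp p hp]; exact hC' p⟩
  · intro ε hε
    apply mf_ram (m := (Finset.univ : Finset (Fin m)).card) _ hε
    intro p k hp hk
    exact inv_prod_bd (al p) (halb p) Finset.univ (fun k => mf (cof P) Q y0 a (p ^ k)) (hloc p hp) k
  · intro s hs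
    exact euler_poly al halb hloc (by linarith) (hser s hs).1
  · intro s hs
    exact euler_exp2 al halb hloc (by linarith) (hser s hs).1

/-- the completely multiplicative family -/
theorem family_cm {r : ℕ} {lam : Fin r → ℝ} {mu : Fin r → ℂ} (hl : ∀ j, 0 < lam j) (hm : ∀ j, 0 ≤ (mu j).re)
    (h1 : 400 / 77 < 2 * ∑ j, lam j) :
    ∃ Q₀ : ℝ, 1 ≤ Q₀ ∧ ∀ Q : ℝ, Q₀ ≤ Q → ∀ ω : ℂ, ‖ω‖ = 1 →
      ∃ (f : ℕ → ℂ) (al : ℕ → Fin 1 → ℂ) (P0 : ℝ) (G : ℂ → ℂ),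
        Mem r lam mu 1 (fun z => ‖z‖ ≤ 1) (fun a => 1 - Polynomial.C a * Polynomial.X) Q ω f al P0 G :=
  family2 hl hm h1 PF_lin (fun _ h => h) (fun a ha => ⟨fun _ => a, fun _ => ha, by simp⟩)

/-- the unimodular family of rank `3 + l`, `l ≥ 3` -/
theorem family_uni {r : ℕ} {lam : Fin r → ℝ} {mu : Fin r → ℂ} (hl : ∀ j, 0 < lam j) (hm : ∀ j, 0 ≤ (mu j).re)
    (h1 : 400 / 77 < 2 * ∑ j, lam j) {l : ℕ} (hl3 : 3 ≤ l) :
    ∃ Q₀ : ℝ, 1 ≤ Q₀ ∧ ∀ Q : ℝ, Q₀ ≤ Q → ∀ ω : ℂ, ‖ω‖ = 1 →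
      ∃ (f : ℕ → ℂ) (al : ℕ → Fin (3 + l) → ℂ) (P0 : ℝ) (G : ℂ → ℂ),
        Mem r lam mu (3 + l) (fun z => ‖z‖ = 1) (uni l) Q ω f al P0 G :=
  family2 hl hm h1 (PF_uni hl3) (fun _ h => h.le) (fun _ ha => uni_roots (by omega) ha)

end Pool.Agent.H616.SP
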