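import Pool.Agent.H483.UF.Fac
import Pool.Agent.H616.SP.Fam

set_option autoImplicit false

/-!
# The Selberg class with polynomial Euler products
-/

namespace Pool.Agent.H616.SP

open Complex Finset
open Pool.Agent.H483.UF

/-- The completed function `Φ(s) = Q^s ∏_{j < d} Γ(α_j s + r_j) F(s)`. -/
noncomputable def Phi (m : ℕ) (G : ℂ → ℂ) (Q : ℝ) (d : ℕ) (α : Fin d → ℝ) (r : Fin d → ℂ) (s : ℂ) : ℂ :=
  (Q : ℂ) ^ s * (∏ j, Gamma ((α j : ℂ) * s + r j)) * (G s / (s - 1) ^ m)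

/-- no factor `Γ(α_j s + r_j)` has a pole at `s` -/
def NoPole (d : ℕ) (α : Fin d → ℝ) (r : Fin d → ℂ) (s : ℂ) : Prop :=
  ∀ j, ∀ t : ℕ, (α j : ℂ) * s + r j ≠ -(t : ℂ)

/-- The Selberg class. -/
structure IsSel (a : ArithmeticFunction ℂ) : Prop where
  one : a 1 = 1
  conv : ∀ s : ℂ, 1 < s.re → LSeriesSummable (fun n => a n) s
  cont : ∃ (m : ℕ) (G : ℂ → ℂ), Differentiable ℂ G ∧
    (∃ A B : ℝ, ∀ z : ℂ, ‖G z‖ ≤ A * Real.exp (‖z‖ ^ B)) ∧
    (∀ s : ℂ, 1 < s.re → G s = (s - 1) ^ m * LSeries (fun n => a n) s) ∧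
    ∃ (Q : ℝ) (d : ℕ) (α : Fin d → ℝ) (r : Fin d → ℂ) (ε : ℂ), 0 < Q ∧ (∀ j, 0 < α j) ∧
      (∀ j, 0 ≤ (r j).re) ∧ ‖ε‖ = 1 ∧
      ∀ s : ℂ, s ≠ 0 → s ≠ 1 → NoPole d α r s → NoPole d α r (1 - starRingEnd ℂ s) →
        Phi m G Q d α r s = ε * starRingEnd ℂ (Phi m G Q d α r (1 - starRingEnd ℂ s))
  ramanujan : ∀ ε : ℝ, 0 < ε → ∃ C : ℝ, ∀ n : ℕ, 1 ≤ n → ‖a n‖ ≤ C * (n : ℝ) ^ ε
  euler : ∃ (b : ℕ → ℂ) (θ C : ℝ), θ < 1 / 2 ∧
    (∀ p l : ℕ, p.Prime → 1 ≤ l → ‖b (p ^ l)‖ ≤ C * ((p ^ l : ℕ) : ℝ) ^ θ) ∧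
    ∀ s : ℂ, 1 < s.re → HasProd (fun p : Nat.Primes =>
      exp (∑' l : ℕ, b ((p : ℕ) ^ (l + 1)) * ((p : ℕ) : ℂ) ^ (-(((l + 1 : ℕ) : ℂ) * s))))
      (LSeries (fun n => a n) s)

lemma isSel_iff (a : ArithmeticFunction ℂ) : IsSel a ↔ S a := by
  unfold S
  rw [← Pool.Agent.H177R3.Lit.inS_iff]
  exact ⟨fun h => ⟨h.one, h.conv, h.cont, h.ramanujan, h.euler⟩,
    fun h => ⟨h.one, h.conv, h.cont, h.ram, h.euler⟩⟩

/-- the local factor at `p` is the inverse of a polynomial of degree at most `m` -/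
def LocPoly (a : ArithmeticFunction ℂ) (m : ℕ) : Prop :=
  ∀ p : ℕ, p.Prime → ∃ R : Polynomial ℂ, R.natDegree ≤ m ∧
    PowerSeries.mk (fun k => a (p ^ k)) * (R : PowerSeries ℂ) = 1

/-- the polynomial Selberg class -/
def SPo (a : ArithmeticFunction ℂ) : Prop := IsSel a ∧ a.IsMultiplicative ∧ ∃ m, LocPoly a m

/-- primitive elements of the polynomial Selberg class -/
def PPo (a : ArithmeticFunction ℂ) : Prop :=
  SPo a ∧ a ≠ 1 ∧ ∀ f g : ArithmeticFunction ℂ, SPo f → SPo g → a = f * g → f = 1 ∨ g = 1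

/-- factorisation into primitive elements -/
theorem factor_po_aux : ∀ (n : ℕ) (a : ArithmeticFunction ℂ) (d : ℝ), SPo a →
    Pool.Agent.H336R4.PF.Cls (fun n => a n) d → d < n + 1 →
    ∃ M : Multiset (ArithmeticFunction ℂ), (∀ p ∈ M, PPo p) ∧ M.prod = a := by
  intro n
  induction n with
  | zero =>
    intro a d ha hd hlt
    by_cases h : a = 1
    · exact ⟨0, by simp, by simp [h]⟩
    · have := degree_ge ((isSel_iff a).1 ha.1) h hd
      norm_num at hlt
      linarith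
  | succ n ih =>
    intro a d ha hd hlt
    by_cases h : a = 1
    · exact ⟨0, by simp, by simp [h]⟩
    · by_cases hP : PPo a
      · exact ⟨{a}, by simpa using hP, by simp⟩
      · have : ∃ f g : ArithmeticFunction ℂ, SPo f ∧ SPo g ∧ a = f * g ∧ f ≠ 1 ∧ g ≠ 1 := by
          by_contra hno
          apply hP
          refine ⟨ha, h, fun f g hf hg hfg => ?_⟩
          by_contra hcon
          rw [not_or] at hcon
          exact hno ⟨f, g, hf, hg, hfg, hcon.1, hcon.2⟩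
        obtain ⟨f, g, hf, hg, hfg, hf1, hg1⟩ := this
        have sf := (isSel_iff f).1 hf.1
        have sg := (isSel_iff g).1 hg.1
        obtain ⟨d₁, hd₁⟩ := Pool.Agent.H177R3.PFV.ss_cls sf
        obtain ⟨d₂, hd₂⟩ := Pool.Agent.H177R3.PFV.ss_cls sg
        have hadd := Pool.Agent.H336R4.PF.degAdd _ _ _ d d₁ d₂ hd hd₁ hd₂ (fun s hs => by
          rw [← LS_mul sf sg hs, ← hfg])
        have h1 := degree_ge sf hf1 hd₁
        have h2 := degree_ge sg hg1 hd₂
        push_cast at hlt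
        obtain ⟨M₁, m1, m2⟩ := ih f d₁ hf hd₁ (by linarith)
        obtain ⟨M₂, m3, m4⟩ := ih g d₂ hg hd₂ (by linarith)
        refine ⟨M₁ + M₂, ?_, by rw [Multiset.prod_add, m2, m4, hfg]⟩
        intro p hp
        rcases Multiset.mem_add.1 hp with hp | hp
        · exact m1 p hp
        · exact m3 p hp

theorem factor_po {a : ArithmeticFunction ℂ} (ha : SPo a) :
    ∃ M : Multiset (ArithmeticFunction ℂ), (∀ p ∈ M, PPo p) ∧ M.prod = a := by
  obtain ⟨d, hd⟩ := Pool.Agent.H177R3.PFV.ss_cls ((isSel_iff a).1 ha.1)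
  exact factor_po_aux ⌈d⌉₊ a d ha hd (lt_of_le_of_lt (Nat.le_ceil d) (by linarith))

/-! ### local factors of products -/

lemma mul_pp (f g : ArithmeticFunction ℂ) {p : ℕ} (hp : p.Prime) (k : ℕ) :
    (f * g) (p ^ k) = ∑ i ∈ Finset.range (k + 1), f (p ^ i) * g (p ^ (k - i)) := by
  rw [ArithmeticFunction.mul_apply, Nat.sum_divisorsAntidiagonal (fun x y => f x * g y), Nat.divisors_prime_pow hp,
    Finset.sum_map]
  apply Finset.sum_congr rfl
  intro i hi
  rw [Finset.mem_range] at hi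
  simp only [Function.Embedding.coeFn_mk]
  congr 2
  exact Nat.pow_div (by omega) hp.pos

lemma mk_mul (f g : ArithmeticFunction ℂ) {p : ℕ} (hp : p.Prime) :
    PowerSeries.mk (fun k => (f * g) (p ^ k)) =
      PowerSeries.mk (fun k => f (p ^ k)) * PowerSeries.mk (fun k => g (p ^ k)) := by
  ext k
  rw [PowerSeries.coeff_mul, PowerSeries.coeff_mk, mul_pp f g hp, Finset.Nat.sum_antidiagonal_eq_sum_range_succ_mk]
  simp only [PowerSeries.coeff_mk]

lemma LocPoly.mul {f g : ArithmeticFunction ℂ} {m n : ℕ} (hf : LocPoly f m) (hg : LocPoly g n) :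
    LocPoly (f * g) (m + n) := by
  intro p hp
  obtain ⟨R, h1, h2⟩ := hf p hp
  obtain ⟨T, h3, h4⟩ := hg p hp
  refine ⟨R * T, (Polynomial.natDegree_mul_le).trans (by omega), ?_⟩
  rw [mk_mul f g hp, Polynomial.coe_mul, mul_mul_mul_comm, h2, h4, one_mul]

lemma SPo.mul {f g : ArithmeticFunction ℂ} (hf : SPo f) (hg : SPo g) : SPo (f * g) := by
  refine ⟨(isSel_iff _).2 (((isSel_iff f).1 hf.1).mul ((isSel_iff g).1 hg.1)), hf.2.1.mul hg.2.1, ?_⟩
  obtain ⟨m, hm⟩ := hf.2.2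
  obtain ⟨n, hn⟩ := hg.2.2
  exact ⟨m + n, hm.mul hn⟩

lemma SPo_one : SPo 1 := by
  refine ⟨(isSel_iff _).2 S_one, ArithmeticFunction.isMultiplicative_one, 0, fun p hp => ⟨1, by simp, ?_⟩⟩
  ext k
  rw [Polynomial.coe_one, mul_one, PowerSeries.coeff_mk, PowerSeries.coeff_one, ArithmeticFunction.one_apply]
  rcases Nat.eq_zero_or_pos k with rfl | hk
  · simp
  · rw [if_neg (by intro h; exact hk.ne' ((Nat.pow_eq_one.1 h).resolve_left hp.one_lt.ne')), if_neg hk.ne']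

lemma SPo.prod {M : Multiset (ArithmeticFunction ℂ)} (h : ∀ p ∈ M, SPo p) : SPo M.prod := by
  induction M using Multiset.induction_on with
  | empty => simpa using SPo_one
  | cons a M ih =>
    rw [Multiset.prod_cons]
    exact (h a (Multiset.mem_cons_self a M)).mul (ih fun p hp => h p (Multiset.mem_cons_of_mem hp))

/-- constant local polynomial -/
lemma deg_zero {f : ℕ → ℂ} (h1 : f 0 = 1) {R : Polynomial ℂ} (hR : PowerSeries.mk f * (R : PowerSeries ℂ) = 1)
    (hd : R.natDegree = 0) : R = 1 := by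
  rw [Polynomial.eq_C_of_natDegree_eq_zero hd] at hR ⊢
  have h2 := congrArg (PowerSeries.coeff 0) hR
  rw [Polynomial.coe_C, mul_comm, PowerSeries.coeff_C_mul, PowerSeries.coeff_mk, h1, mul_one, PowerSeries.coeff_one,
    if_pos rfl] at h2
  rw [h2, Polynomial.C_1]

lemma lin_deg (x : ℂ) : (1 - Polynomial.C x * Polynomial.X : Polynomial ℂ).natDegree ≤ 1 := by
  refine (Polynomial.natDegree_sub_le _ _).trans ?_
  rw [Polynomial.natDegree_one]
  exact max_le (by omega) ((Polynomial.natDegree_C_mul_le x _).trans Polynomial.natDegree_X_le)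

lemma mk_eq_of_mul {f g : ℕ → ℂ} {R : PowerSeries ℂ} (h1 : PowerSeries.mk f * R = 1) (h2 : PowerSeries.mk g * R = 1) :
    f = g := by
  have h3 : PowerSeries.mk f = PowerSeries.mk g := by
    calc PowerSeries.mk f = PowerSeries.mk f * (PowerSeries.mk g * R) := by rw [h2, mul_one]
      _ = (PowerSeries.mk f * R) * PowerSeries.mk g := by ring
      _ = _ := by rw [h1, one_mul]
  funext k
  have := congrArg (PowerSeries.coeff k) h3
  rwa [PowerSeries.coeff_mk, PowerSeries.coeff_mk] at this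

/-- **divisors of elements with local factors `(1 - x X)⁻¹`** -/
theorem local_split {f g : ArithmeticFunction ℂ} (hf1 : f 1 = 1) (hg1 : g 1 = 1) {m n : ℕ} (hf : LocPoly f m)
    (hg : LocPoly g n) {p : ℕ} (hp : p.Prime) {x : ℂ} (hF : ∀ k, (f * g) (p ^ k) = x ^ k) :
    (∀ k, f (p ^ k) = x ^ k) ∨ (∀ k, k ≠ 0 → f (p ^ k) = 0) := by
  obtain ⟨R, -, h2⟩ := hf p hp
  obtain ⟨T, -, h4⟩ := hg p hp
  have h5 : PowerSeries.mk (fun k => x ^ k) * ((R * T : Polynomial ℂ) : PowerSeries ℂ) = 1 := by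
    have : PowerSeries.mk (fun k => x ^ k) = PowerSeries.mk (fun k => (f * g) (p ^ k)) := by
      congr 1; funext k; exact (hF k).symm
    rw [this, mk_mul f g hp, Polynomial.coe_mul, mul_mul_mul_comm, h2, h4, one_mul]
  have h6 : R * T = 1 - Polynomial.C x * Polynomial.X := by
    apply Polynomial.coe_injective
    have h7 := mk_pow_mul x
    calc ((R * T : Polynomial ℂ) : PowerSeries ℂ) =
          (PowerSeries.mk (fun k => x ^ k) * ((1 - Polynomial.C x * Polynomial.X : Polynomial ℂ) : PowerSeries ℂ)) *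
            ((R * T : Polynomial ℂ) : PowerSeries ℂ) := by rw [h7, one_mul]
      _ = (PowerSeries.mk (fun k => x ^ k) * ((R * T : Polynomial ℂ) : PowerSeries ℂ)) *
            ((1 - Polynomial.C x * Polynomial.X : Polynomial ℂ) : PowerSeries ℂ) := by ring
      _ = _ := by rw [h5, one_mul]
  have hd : (R * T).natDegree ≤ 1 := by
    rw [h6]
    exact lin_deg x
  have hRT0 : R * T ≠ 0 := by
    intro h
    rw [h, Polynomial.coe_zero, mul_zero] at h5
    exact zero_ne_one h5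
  have hR0 : R ≠ 0 := left_ne_zero_of_mul hRT0
  have hT0 : T ≠ 0 := right_ne_zero_of_mul hRT0
  rw [Polynomial.natDegree_mul hR0 hT0] at hd
  have hf1' : f (p ^ 0) = 1 := by rw [pow_zero, hf1]
  have hg1' : g (p ^ 0) = 1 := by rw [pow_zero, hg1]
  by_cases hR : R.natDegree = 0
  · right
    have hRone := deg_zero (f := fun k => f (p ^ k)) hf1' h2 hR
    rw [hRone, Polynomial.coe_one, mul_one] at h2
    intro k hk
    have := congrArg (PowerSeries.coeff k) h2
    rwa [PowerSeries.coeff_mk, PowerSeries.coeff_one, if_neg hk] at this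
  · left
    have hT : T.natDegree = 0 := by omega
    have hTone := deg_zero (f := fun k => g (p ^ k)) hg1' h4 hT
    rw [hTone, mul_one] at h6
    rw [h6] at h2
    have := mk_eq_of_mul h2 (mk_pow_mul x)
    intro k
    exact congrFun this k

/-- completely multiplicative -/
def CM (a : ArithmeticFunction ℂ) : Prop := ∀ m n : ℕ, a (m * n) = a m * a n

lemma CM_of {a : ArithmeticFunction ℂ} (ha : a.IsMultiplicative) (h : ∀ p k : ℕ, p.Prime → a (p ^ k) = a p ^ k) :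
    CM a := by
  intro m n
  rcases Nat.eq_zero_or_pos m with rfl | hm
  · simp
  rcases Nat.eq_zero_or_pos n with rfl | hn
  · simp
  have hfac : ∀ n : ℕ, n ≠ 0 → a n = n.factorization.prod fun p k => a p ^ k := by
    intro n hn
    rw [ha.multiplicative_factorization a hn]
    apply Finsupp.prod_congr
    intro p hp
    exact h p _ (Nat.prime_of_mem_primeFactors (by rwa [← Nat.support_factorization]))
  rw [hfac _ (Nat.mul_pos hm hn).ne', hfac m hm.ne', hfac n hn.ne', Nat.factorization_mul hm.ne' hn.ne',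
    Finsupp.prod_add_index']
  · intro p; simp
  · intro p k l; exact pow_add _ _ _

lemma CM.pow {a : ArithmeticFunction ℂ} (h : CM a) (h1 : a 1 = 1) (n k : ℕ) : a (n ^ k) = a n ^ k := by
  induction k with
  | zero => simpa using h1
  | succ k ih => rw [pow_succ, h, ih, pow_succ]

/-- divisors of completely multiplicative elements -/
theorem cm_div {F f g : ArithmeticFunction ℂ} (hF : CM F) (hf : SPo f) (hg : SPo g) (h : F = f * g) :
    CM f ∧ ∀ p : ℕ, p.Prime → f p = F p ∨ f p = 0 := by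
  obtain ⟨m, hm⟩ := hf.2.2
  obtain ⟨n, hn⟩ := hg.2.2
  have hF1 : F 1 = 1 := by rw [h, ArithmeticFunction.mul_apply]; simp [hf.1.one, hg.1.one]
  have key : ∀ p : ℕ, p.Prime → (∀ k, f (p ^ k) = F p ^ k) ∨ (∀ k, k ≠ 0 → f (p ^ k) = 0) := fun p hp =>
    local_split hf.1.one hg.1.one hm hn hp (fun k => by rw [← h]; exact hF.pow hF1 p k)
  refine ⟨CM_of hf.2.1 fun p k hp => ?_, fun p hp => ?_⟩
  · rcases key p hp with h1 | h1
    · have h2 := h1 1
      rw [pow_one, pow_one] at h2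
      rw [h1 k, h2]
    · have h2 := h1 1 one_ne_zero
      rw [pow_one] at h2
      rcases Nat.eq_zero_or_pos k with rfl | hk
      · rw [pow_zero, pow_zero, hf.1.one]
      · rw [h1 k hk.ne', h2, zero_pow hk.ne']
  · rcases key p hp with h1 | h1
    · left
      have h2 := h1 1
      rwa [pow_one, pow_one] at h2
    · right
      have h2 := h1 1 one_ne_zero
      rwa [pow_one] at h2

/-! ### the members -/

/-- the arithmetic function of a member -/
def af (f : ℕ → ℂ) (h : f 0 = 0) : ArithmeticFunction ℂ := ⟨f, h⟩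

lemma af_apply (f : ℕ → ℂ) (h : f 0 = 0) (n : ℕ) : af f h n = f n := rfl

section

variable {r : ℕ} {lam : Fin r → ℝ} {mu : Fin r → ℂ} {m : ℕ} {N : ℂ → Prop} {P : ℂ → Polynomial ℂ} {Q : ℝ} {ω : ℂ}
  {f : ℕ → ℂ} {al : ℕ → Fin m → ℂ} {P0 : ℝ} {G : ℂ → ℂ}

lemma Mem.phi (M : Mem r lam mu m N P Q ω f al P0 G) (s : ℂ) (h1 : NoPole r lam mu s)
    (h2 : NoPole r lam mu (1 - starRingEnd ℂ s)) :
    Phi 0 G Q r lam mu s = ω * starRingEnd ℂ (Phi 0 G Q r lam mu (1 - starRingEnd ℂ s)) := by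
  have := M.fe s h1 h2
  unfold Phi
  rw [pow_zero, div_one, pow_zero, div_one]
  calc _ = G s * (Q : ℂ) ^ s * ∏ j, Gamma ((lam j : ℂ) * s + mu j) := by ring
    _ = _ := this
    _ = _ := by congr 2; ring

lemma Mem.isSel (M : Mem r lam mu m N P Q ω f al P0 G) (hQ : 0 < Q) (hω : ‖ω‖ = 1) (hl : ∀ j, 0 < lam j)
    (hm : ∀ j, 0 ≤ (mu j).re) : IsSel (af f M.f0) := by
  refine ⟨M.f1, fun s hs => (M.ser s (by linarith)).1, ⟨0, G, M.diff, ?_, fun s hs => ?_, Q, r, lam, mu, ω, hQ, hl, hm, hω,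
    fun s _ _ h1 h2 => M.phi s h1 h2⟩, M.ram, ⟨bcf al, 0, m, by norm_num, fun p l hp hl => ?_, fun s hs => M.eux s (by linarith)⟩⟩
  · obtain ⟨B, A, h⟩ := M.ord.order
    exact ⟨A, B, h⟩
  · rw [pow_zero, one_mul]
    exact (M.ser s (by linarith)).2
  · rw [Real.rpow_zero, mul_one]
    exact bcf_le M.alb hp (by omega)

lemma Mem.isMul (M : Mem r lam mu m N P Q ω f al P0 G) : (af f M.f0).IsMultiplicative :=
  ⟨M.f1, fun {a b} h => M.mul a b h⟩

lemma Mem.locPoly (M : Mem r lam mu m N P Q ω f al P0 G) : LocPoly (af f M.f0) m := by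
  intro p hp
  refine ⟨_, ?_, M.loc p hp⟩
  refine (Polynomial.natDegree_prod_le _ _).trans ?_
  calc ∑ j : Fin m, (1 - Polynomial.C (al p j) * Polynomial.X : Polynomial ℂ).natDegree ≤ ∑ _j : Fin m, 1 := by
        apply Finset.sum_le_sum
        intro j _
        exact lin_deg _
    _ = m := by simp

lemma Mem.spo (M : Mem r lam mu m N P Q ω f al P0 G) (hQ : 0 < Q) (hω : ‖ω‖ = 1) (hl : ∀ j, 0 < lam j)
    (hm : ∀ j, 0 ≤ (mu j).re) : SPo (af f M.f0) :=
  ⟨M.isSel hQ hω hl hm, M.isMul, m, M.locPoly⟩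

/-- convergence of the sum of the squares -/
lemma Mem.sq (M : Mem r lam mu m N P Q ω f al P0 G) :
    Summable fun p : Nat.Primes => ‖f p‖ ^ 2 / ((p : ℕ) : ℝ) := by
  obtain ⟨C, hC⟩ := M.dec
  have h1 : Summable fun n : ℕ => |C| * (n : ℝ) ^ (4 * (77 / 400 : ℝ) - 2) :=
    (Real.summable_nat_rpow.2 (by norm_num)).mul_left _
  have h2 : Summable fun p : Nat.Primes => |C| * (((p : ℕ)) : ℝ) ^ (4 * (77 / 400 : ℝ) - 2) :=
    h1.comp_injective Nat.Primes.coe_nat_injective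
  refine Summable.of_nonneg_of_le (fun p => by positivity) (fun p => ?_) h2
  have hp0 : (0:ℝ) < ((p : ℕ) : ℝ) := by exact_mod_cast p.2.pos
  have e : (((p : ℕ)) : ℝ) ^ (4 * (77 / 400 : ℝ) - 2) = (((p : ℕ)) : ℝ) ^ (4 * (77 / 400 : ℝ) - 1) / (p : ℕ) := by
    rw [← Real.rpow_sub_one hp0.ne']
    congr 1
    ring
  rw [e, ← mul_div_assoc]
  gcongr
  refine (hC p p.2).trans ?_
  gcongr
  exact le_abs_self C

/-- bounded partial sums of the squares -/
lemma Mem.sqB (M : Mem r lam mu m N P Q ω f al P0 G) :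
    ∃ C : ℝ, ∀ T : Finset ℕ, ∑ p ∈ T.filter Nat.Prime, ‖f p‖ ^ 2 / (p : ℝ) ≤ C := by
  obtain ⟨C, hC⟩ := M.dec
  have h1 : Summable fun n : ℕ => |C| * (n : ℝ) ^ (4 * (77 / 400 : ℝ) - 2) :=
    (Real.summable_nat_rpow.2 (by norm_num)).mul_left _
  refine ⟨∑' n : ℕ, |C| * (n : ℝ) ^ (4 * (77 / 400 : ℝ) - 2), fun T => ?_⟩
  refine le_trans (Finset.sum_le_sum (g := fun n : ℕ => |C| * (n : ℝ) ^ (4 * (77 / 400 : ℝ) - 2)) fun p hp => ?_)
    (h1.sum_le_tsum _ fun n _ => by positivity)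
  have hpp := (Finset.mem_filter.1 hp).2
  have hp0 : (0:ℝ) < (p : ℝ) := by exact_mod_cast hpp.pos
  have e : (p : ℝ) ^ (4 * (77 / 400 : ℝ) - 2) = (p : ℝ) ^ (4 * (77 / 400 : ℝ) - 1) / p := by
    rw [← Real.rpow_sub_one hp0.ne']
    congr 1
    ring
  rw [e, ← mul_div_assoc]
  gcongr
  refine (hC p hpp).trans ?_
  gcongr
  exact le_abs_self C

/-- the local factor as a sum -/
lemma Mem.local_sum (M : Mem r lam mu m N P Q ω f al P0 G) {s : ℂ} (hs : 277 / 400 < s.re) {p : ℕ} (hp : p.Prime) :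
    ∏ j, (1 - al p j * (p : ℂ) ^ (-s))⁻¹ = ∑' k : ℕ, LSeries.term f s (p ^ k) := by
  set x : ℂ := (p : ℂ) ^ (-s) with hx
  have hterm : ∀ k : ℕ, LSeries.term f s (p ^ k) = f (p ^ k) * x ^ k := by
    intro k
    rw [LSeries.term_of_ne_zero (pow_ne_zero _ hp.ne_zero), div_eq_mul_inv]
    congr 1
    rw [hx, ← Complex.cpow_nat_mul, ← Complex.cpow_neg]
    push_cast
    rw [← Complex.cpow_nat_mul' (by simp [Complex.natCast_arg, Real.pi_pos]) (by simp [Complex.natCast_arg, Real.pi_pos.le])]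
  have hsum : Summable fun k => ‖f (p ^ k) * x ^ k‖ := by
    have h3 : Summable fun k : ℕ => ‖LSeries.term f s (p ^ k)‖ :=
      (M.ser s hs).1.norm.comp_injective (Nat.pow_right_injective hp.two_le)
    refine h3.congr fun k => ?_
    rw [hterm]
  have hle := local_eval (M.loc p hp) hsum
  have h4 : (∑' k, LSeries.term f s (p ^ k)) = ∑' k, f (p ^ k) * x ^ k := by
    congr 1; funext k; exact hterm k
  rw [h4, Finset.prod_inv_distrib]
  have h5 : (∏ j, (1 - Polynomial.C (al p j) * Polynomial.X) : Polynomial ℂ).eval x = ∏ j, (1 - al p j * x) := by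
    rw [Polynomial.eval_prod]
    simp
  rw [h5] at hle
  exact (eq_inv_of_mul_eq_one_left hle).symm

/-- no zeros for `Re s > 277/400` -/
theorem Mem.ne (M : Mem r lam mu m N P Q ω f al P0 G) {s : ℂ} (hs : 277 / 400 < s.re) : LSeries f s ≠ 0 := by
  have h1 := M.eul s hs
  have hx1 : ∀ p : Nat.Primes, ‖((p : ℕ) : ℂ) ^ (-s)‖ < 1 := by
    intro p
    rw [Complex.norm_natCast_cpow_of_pos p.2.pos]
    apply Real.rpow_lt_one_of_one_lt_of_neg
    · exact_mod_cast p.2.one_lt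
    · simp; linarith
  have hF : ∀ p : Nat.Primes, ∏ j, (1 - al p j * ((p : ℕ) : ℂ) ^ (-s))⁻¹ ≠ 0 := by
    intro p
    rw [Finset.prod_ne_zero_iff]
    intro j _
    apply inv_ne_zero
    intro h
    have h2 : al p j * ((p : ℕ) : ℂ) ^ (-s) = 1 := by linear_combination -h
    have h3 : ‖al p j * ((p : ℕ) : ℂ) ^ (-s)‖ < 1 := by
      rw [norm_mul]
      calc _ ≤ 1 * ‖((p : ℕ) : ℂ) ^ (-s)‖ := by
            have := M.alb p j
            gcongr
        _ < 1 := by rw [one_mul]; exact hx1 p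
    rw [h2] at h3
    simp at h3
  have hsn := (M.ser s hs).1.norm
  have hpair : Summable fun x : Nat.Primes × ℕ => ‖LSeries.term f s ((x.1 : ℕ) ^ (x.2 + 1))‖ := by
    apply hsn.comp_injective (i := fun x : Nat.Primes × ℕ => (x.1 : ℕ) ^ (x.2 + 1))
    intro x y hxy
    simp only at hxy
    have hx := x.1.2
    have hy := y.1.2
    have e1 : (x.1 : ℕ) = y.1 := by
      have a1 := minFac_pow hx (by omega : x.2 + 1 ≠ 0)
      have a2 := minFac_pow hy (by omega : y.2 + 1 ≠ 0)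
      rw [← a1, ← a2, hxy]
    have e2 : x.2 + 1 = y.2 + 1 := by
      have a1 := ex_pow hx (by omega : x.2 + 1 ≠ 0)
      have a2 := ex_pow hy (by omega : y.2 + 1 ≠ 0)
      rw [← a1, ← a2, hxy]
    exact Prod.ext (Subtype.ext e1) (by omega)
  have hsum : Summable fun p : Nat.Primes => ∏ j, (1 - al p j * ((p : ℕ) : ℂ) ^ (-s))⁻¹ - 1 := by
    have h2 : Summable fun p : Nat.Primes => ∑' k : ℕ, ‖LSeries.term f s ((p : ℕ) ^ (k + 1))‖ := hpair.prod
    refine Summable.of_norm_bounded h2 fun p => ?_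
    rw [M.local_sum hs p.2]
    have h3 : Summable fun k : ℕ => LSeries.term f s ((p : ℕ) ^ k) :=
      ((M.ser s hs).1.norm.comp_injective (Nat.pow_right_injective p.2.two_le)).of_norm
    rw [h3.tsum_eq_zero_add, pow_zero]
    have h4 : LSeries.term f s 1 = 1 := by
      rw [LSeries.term_of_ne_zero one_ne_zero, M.f1]; simp
    rw [h4, add_sub_cancel_left]
    apply norm_tsum_le_tsum_norm
    exact (summable_nat_add_iff 1).2 h3.norm
  have h4 := Complex.summable_log_one_add_of_summable hsum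
  have h5 := Complex.hasProd_of_hasSum_log (f := fun p : Nat.Primes =>
    1 + (∏ j, (1 - al p j * ((p : ℕ) : ℂ) ^ (-s))⁻¹ - 1)) (by
      intro p
      rw [add_sub_cancel]
      exact hF p) h4.hasSum
  simp only [add_sub_cancel] at h5
  rw [h1.unique h5]
  exact Complex.exp_ne_zero _

end

/-- bounded sums for divisors -/
lemma sq_of_div {F P : ArithmeticFunction ℂ} {C : ℝ}
    (hF : ∀ T : Finset ℕ, ∑ p ∈ T.filter Nat.Prime, ‖F p‖ ^ 2 / (p : ℝ) ≤ C)
    (h : ∀ p : ℕ, p.Prime → P p = F p ∨ P p = 0) (T : Finset ℕ) :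
    ∑ p ∈ T.filter Nat.Prime, ‖P p‖ ^ 2 / (p : ℝ) ≤ C := by
  refine le_trans (Finset.sum_le_sum fun p hp => ?_) (hF T)
  have hp0 : (0:ℝ) < (p : ℝ) := by exact_mod_cast (Finset.mem_filter.1 hp).2.pos
  rcases h p (Finset.mem_filter.1 hp).2 with h1 | h1
  · rw [h1]
  · rw [h1, norm_zero, zero_pow two_ne_zero, zero_div]
    positivity

/-- completely multiplicative functions bounded at the primes -/
lemma CM.norm_le {a : ArithmeticFunction ℂ} (h : CM a) (h1 : a 1 = 1) (hp : ∀ p : ℕ, p.Prime → ‖a p‖ ≤ 1) (n : ℕ) :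
    ‖a n‖ ≤ 1 := by
  induction n using Nat.recOnMul with
  | zero => simp
  | one => simp [h1]
  | prime p hpp => exact hp p hpp
  | mul a' b' iha ihb =>
    rw [h, norm_mul]
    exact mul_le_one₀ iha (norm_nonneg _) ihb

/-- the gamma factor avoids its poles in the strip -/
lemma noPole_of {r : ℕ} {lam : Fin r → ℝ} {mu : Fin r → ℂ} (hl : ∀ j, 0 < lam j) (hm : ∀ j, 0 ≤ (mu j).re) {s : ℂ}
    (hs : 0 < s.re) : NoPole r lam mu s := by
  intro j t h
  have h1 := congrArg Complex.re h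
  have h2 : ((lam j : ℂ) * s + mu j).re = lam j * s.re + (mu j).re := by
    simp
  rw [h2] at h1
  have h3 : (-(t : ℂ)).re = -(t : ℝ) := by simp
  rw [h3] at h1
  have := mul_pos (hl j) hs
  have h4 : (0:ℝ) ≤ t := t.cast_nonneg
  linarith [hm j]

/-- the members of the family in the form used for the degree -/
lemma Mem.cls {r : ℕ} {lam : Fin r → ℝ} {mu : Fin r → ℂ} {m : ℕ} {N : ℂ → Prop} {P : ℂ → Polynomial ℂ} {Q : ℝ} {ω : ℂ}
    {f : ℕ → ℂ} {al : ℕ → Fin m → ℂ} {P0 : ℝ} {G : ℂ → ℂ} (M : Mem r lam mu m N P Q ω f al P0 G) (hQ : 0 < Q) (hω : ‖ω‖ = 1)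
    (hl : ∀ j, 0 < lam j) (hm : ∀ j, 0 ≤ (mu j).re) :
    Pool.Agent.H336R4.PF.Cls (fun n => af f M.f0 n) (2 * ∑ j, lam j) := by
  have hS := (isSel_iff _).1 (M.isSel hQ hω hl hm)
  obtain ⟨d, hd⟩ := Pool.Agent.H177R3.PFV.ss_cls hS
  refine ⟨M.f1, M.ram, ⟨0, G, ⟨M.diff, ?_, fun s hs => ?_⟩, Q, r, lam, mu, ω, hQ, ⟨hl, hm, hω, fun s h1 h2 => ?_⟩, rfl⟩,
    hd.2.2.2⟩
  · obtain ⟨B, A, h⟩ := M.ord.order
    exact ⟨B, A, h⟩
  · rw [pow_zero, one_mul]
    exact (M.ser s (by linarith)).2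
  · have := M.phi s (noPole_of hl hm h1) (noPole_of hl hm (by simp; linarith))
    unfold Phi at this
    exact this

/-- the trivial element has no functional equation with a gamma factor -/
lemma Mem.ne_one {r : ℕ} {lam : Fin r → ℝ} {mu : Fin r → ℂ} {m : ℕ} {N : ℂ → Prop} {P : ℂ → Polynomial ℂ} {Q : ℝ} {ω : ℂ}
    {f : ℕ → ℂ} {al : ℕ → Fin m → ℂ} {P0 : ℝ} {G : ℂ → ℂ} (M : Mem r lam mu m N P Q ω f al P0 G) (hQ : 0 < Q) (hω : ‖ω‖ = 1)
    (hl : ∀ j, 0 < lam j) (hm : ∀ j, 0 ≤ (mu j).re) (hd : 0 < ∑ j, lam j) : af f M.f0 ≠ 1 := by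
  intro h
  have hc := M.cls hQ hω hl hm
  have hS := (isSel_iff _).1 (M.isSel hQ hω hl hm)
  have := Pool.Agent.H336R4.PF.degAdd _ _ _ _ _ _ hc hc hc (fun s hs => by
    rw [← LS_mul hS hS hs, h, mul_one])
  linarith

/-- the degree is well defined -/
lemma deg_unique {F : ArithmeticFunction ℂ} (hF : IsSel F) {d d' : ℝ}
    (h : Pool.Agent.H336R4.PF.Cls (fun n => F n) d) (h' : Pool.Agent.H336R4.PF.Cls (fun n => F n) d') : d = d' := by
  have hS := (isSel_iff _).1 hF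
  obtain ⟨e, he⟩ := Pool.Agent.H177R3.PFV.ss_cls (hS.mul hS)
  have h1 := Pool.Agent.H336R4.PF.degAdd _ _ _ _ _ _ he h h (fun s hs => LS_mul hS hS hs)
  have h2 := Pool.Agent.H336R4.PF.degAdd _ _ _ _ _ _ he h' h' (fun s hs => LS_mul hS hS hs)
  linarith

/-- uncountably many products need uncountably many factors -/
lemma uncountable_of_prod {A : Set (ArithmeticFunction ℂ)} {t : ℝ} (F : ℝ → ArithmeticFunction ℂ)
    (hinj : ∀ d d', t < d → t < d' → F d = F d' → d = d')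
    (hF : ∀ d, t < d → ∃ M : Multiset (ArithmeticFunction ℂ), (∀ p ∈ M, p ∈ A) ∧ M.prod = F d) : ¬ A.Countable := by
  intro hA
  have : Countable A := hA.to_subtype
  have h1 : (Set.range fun M : Multiset A => (M.map Subtype.val).prod).Countable := Set.countable_range _
  have h2 : (F '' Set.Ioi t).Countable := by
    refine h1.mono ?_
    rintro _ ⟨d, hd, rfl⟩
    obtain ⟨M, hM, hp⟩ := hF d hd
    lift M to Multiset A using hM
    exact ⟨M, hp⟩
  have h3 : (Set.Ioi t).Countable :=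
    Set.MapsTo.countable_of_injOn (f := F) (fun d hd => Set.mem_image_of_mem F hd) (fun d hd d' hd' h => hinj d d' hd hd' h) h2
  rw [← Cardinal.le_aleph0_iff_set_countable, Cardinal.mk_Ioi_real] at h3
  exact absurd Cardinal.aleph0_lt_continuum (not_lt.2 h3)

end Pool.Agent.H616.SP
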