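import Mathlib

set_option autoImplicit false

/-!
# Sums over prime powers with exponent at least `k0`
-/

namespace Pool.Agent.H616.SP

open Finset

/-- `q = p^k` with `k ≥ k0` -/
def PK (k0 : ℕ) (q : ℕ) : Prop := ∃ p k : ℕ, p.Prime ∧ k0 ≤ k ∧ q = p ^ k

lemma ppow_sum {κ : ℝ} {k0 : ℕ} (hk0 : 1 ≤ k0) (hκ : 1 < κ * k0) (hκ0 : 0 < κ) :
    ∃ C : ℝ, 0 ≤ C ∧ ∀ S : Finset ℕ, (∀ q ∈ S, PK k0 q) → ∑ q ∈ S, (q : ℝ) ^ (-κ) ≤ C := by
  classical
  have h1 : Summable fun m : ℕ => ((m + 2 : ℕ) : ℝ) ^ (-(κ * k0)) := by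
    have := (Real.summable_nat_rpow.2 (by linarith : -(κ * k0) < -1))
    exact (summable_nat_add_iff 2).2 this
  have hr1 : (2:ℝ) ^ (-κ) < 1 := Real.rpow_lt_one_of_one_lt_of_neg (by norm_num) (by linarith)
  have h2 : Summable fun j : ℕ => ((2:ℝ) ^ (-κ)) ^ j := summable_geometric_of_lt_one (by positivity) hr1
  have h3 := h1.mul_of_nonneg h2 (fun m => by positivity) (fun j => by positivity)
  refine ⟨∑' x : ℕ × ℕ, ((x.1 + 2 : ℕ) : ℝ) ^ (-(κ * k0)) * ((2:ℝ) ^ (-κ)) ^ x.2, tsum_nonneg fun x => by positivity,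
    fun S hS => ?_⟩
  have hdec : ∀ q ∈ S, ∃ x : ℕ × ℕ, q = (x.1 + 2) ^ (x.2 + k0) ∧ (x.1 + 2).Prime := by
    intro q hq
    obtain ⟨p, k, hp, hk, rfl⟩ := hS q hq
    refine ⟨(p - 2, k - k0), ?_, ?_⟩
    · simp only
      rw [Nat.sub_add_cancel hp.two_le, Nat.sub_add_cancel hk]
    · simp only
      rw [Nat.sub_add_cancel hp.two_le]; exact hp
  choose! f hf hfp using hdec
  have hinj : Set.InjOn f (S : Set ℕ) := by
    intro a ha b hb hab
    rw [hf a ha, hf b hb, hab]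
  calc ∑ q ∈ S, (q : ℝ) ^ (-κ) ≤ ∑ q ∈ S, (((f q).1 + 2 : ℕ) : ℝ) ^ (-(κ * k0)) * ((2:ℝ) ^ (-κ)) ^ (f q).2 := by
        apply Finset.sum_le_sum
        intro q hq
        have e := hf q hq
        set m := (f q).1
        set j := (f q).2
        have hm2 : (2:ℝ) ≤ ((m + 2 : ℕ) : ℝ) := by push_cast; linarith [Nat.cast_nonneg (α := ℝ) m]
        have hm0 : (0:ℝ) < ((m + 2 : ℕ) : ℝ) := by linarith
        have e2 : (q : ℝ) = ((m + 2 : ℕ) : ℝ) ^ (((j + k0 : ℕ) : ℝ)) := by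
          rw [Real.rpow_natCast]
          exact_mod_cast e
        rw [e2, ← Real.rpow_mul hm0.le]
        have e3 : ((j + k0 : ℕ) : ℝ) * -κ = -(κ * k0) + (-κ) * j := by push_cast; ring
        rw [e3, Real.rpow_add hm0, Real.rpow_mul hm0.le, Real.rpow_natCast]
        have h5 : ((m + 2 : ℕ) : ℝ) ^ (-κ) ≤ (2:ℝ) ^ (-κ) :=
          Real.rpow_le_rpow_of_nonpos (by norm_num) hm2 (by linarith)
        gcongr
    _ = ∑ x ∈ S.image f, ((x.1 + 2 : ℕ) : ℝ) ^ (-(κ * k0)) * ((2:ℝ) ^ (-κ)) ^ x.2 := by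
        rw [Finset.sum_image hinj]
    _ ≤ _ := h3.sum_le_tsum _ (fun x _ => by positivity)

/-- the sum restricted to prime powers of large primes -/
lemma ppow_sum_gt {κ κ' : ℝ} {k0 : ℕ} (hk0 : 1 ≤ k0) (hκ : 1 < κ * k0) (hκ0 : 0 < κ) (hκ' : κ ≤ κ') :
    ∃ C : ℝ, 0 ≤ C ∧ ∀ Y : ℝ, 1 ≤ Y → ∀ S : Finset ℕ, (∀ q ∈ S, PK k0 q ∧ Y < q.minFac) →
      ∑ q ∈ S, (q : ℝ) ^ (-κ') ≤ C * Y ^ (-((κ' - κ) * k0)) := by
  obtain ⟨C, hC0, hC⟩ := ppow_sum hk0 hκ hκ0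
  refine ⟨C, hC0, fun Y hY S hS => ?_⟩
  have hY0 : 0 < Y := by linarith
  calc ∑ q ∈ S, (q : ℝ) ^ (-κ') ≤ ∑ q ∈ S, (q : ℝ) ^ (-κ) * Y ^ (-((κ' - κ) * k0)) := by
        apply Finset.sum_le_sum
        intro q hq
        obtain ⟨⟨p, k, hp, hk, rfl⟩, hYq⟩ := hS q hq
        rw [hp.pow_minFac (by omega)] at hYq
        have hp0 : (0:ℝ) < p := by exact_mod_cast hp.pos
        have hq0 : (0:ℝ) < ((p ^ k : ℕ) : ℝ) := by exact_mod_cast pow_pos hp.pos k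
        have hq1 : Y ^ (k0 : ℝ) ≤ ((p ^ k : ℕ) : ℝ) := by
          rw [Real.rpow_natCast]
          push_cast
          calc Y ^ k0 ≤ Y ^ k := pow_le_pow_right₀ hY hk
            _ ≤ (p : ℝ) ^ k := by gcongr
        have e1 : -κ' = -κ + -(κ' - κ) := by ring
        rw [e1, Real.rpow_add hq0]
        have e2 : Y ^ (-((κ' - κ) * k0)) = (Y ^ (k0 : ℝ)) ^ (-(κ' - κ)) := by
          rw [← Real.rpow_mul hY0.le]; congr 1; ring
        rw [e2]
        have h5 : (((p ^ k : ℕ) : ℝ)) ^ (-(κ' - κ)) ≤ (Y ^ (k0 : ℝ)) ^ (-(κ' - κ)) :=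
          Real.rpow_le_rpow_of_nonpos (by positivity) hq1 (by linarith)
        gcongr
    _ = (∑ q ∈ S, (q : ℝ) ^ (-κ)) * Y ^ (-((κ' - κ) * k0)) := by rw [Finset.sum_mul]
    _ ≤ _ := by
        gcongr
        exact hC S fun q hq => (hS q hq).1

/-- logarithms against small powers -/
lemma log_bd : ∃ C : ℝ, 1 ≤ C ∧ ∀ t : ℝ, 1 ≤ t → (1 + Real.log t ^ 2) * (1 + Real.log t) ≤ C * t ^ (1 / 100 : ℝ) := by
  have h1 : ∀ᶠ t : ℝ in Filter.atTop, (1 + Real.log t ^ 2) * (1 + Real.log t) ≤ 1 * t ^ (1 / 100 : ℝ) := by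
    have h2 := (isLittleO_log_rpow_rpow_atTop (3 : ℝ) (by norm_num : (0:ℝ) < 1 / 100)).bound (by norm_num : (0:ℝ) < 1 / 8)
    filter_upwards [h2, Filter.eventually_ge_atTop (Real.exp 1)] with t h3 h4
    have ht0 : 0 < t := lt_of_lt_of_le (Real.exp_pos 1) h4
    have hl : 1 ≤ Real.log t := (Real.le_log_iff_exp_le ht0).2 h4
    have e : Real.log t ^ (3:ℝ) = Real.log t ^ 3 := by
      rw [show (3:ℝ) = ((3:ℕ):ℝ) by norm_num, Real.rpow_natCast]
    rw [e, Real.norm_eq_abs, Real.norm_eq_abs, abs_of_nonneg (by positivity), abs_of_nonneg (by positivity)] at h3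
    have h5 : (1 + Real.log t ^ 2) * (1 + Real.log t) ≤ 8 * Real.log t ^ 3 := by
      have a1 : 1 + Real.log t ^ 2 ≤ 2 * Real.log t ^ 2 := by nlinarith
      have a2 : 1 + Real.log t ≤ 2 * Real.log t := by linarith
      calc _ ≤ (2 * Real.log t ^ 2) * (2 * Real.log t) := by gcongr
        _ = 4 * Real.log t ^ 3 := by ring
        _ ≤ _ := by have : 0 ≤ Real.log t ^ 3 := by positivity
                    linarith
    linarith
  obtain ⟨T, hT⟩ := Filter.eventually_atTop.1 h1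
  set T' := max T 1 with hT'
  refine ⟨max 1 ((1 + Real.log T' ^ 2) * (1 + Real.log T')), le_max_left _ _, fun t ht => ?_⟩
  have ht0 : 0 < t := by linarith
  have hlt : 0 ≤ Real.log t := Real.log_nonneg ht
  rcases le_total T t with h | h
  · exact (hT t h).trans (mul_le_mul_of_nonneg_right (le_max_left _ _) (by positivity))
  · have h2 : 1 ≤ t ^ (1 / 100 : ℝ) := Real.one_le_rpow ht (by norm_num)
    have h3 : Real.log t ≤ Real.log T' := Real.log_le_log ht0 (h.trans (le_max_left _ _))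
    calc (1 + Real.log t ^ 2) * (1 + Real.log t) ≤ (1 + Real.log T' ^ 2) * (1 + Real.log T') := by gcongr
      _ ≤ max 1 ((1 + Real.log T' ^ 2) * (1 + Real.log T')) := le_max_right _ _
      _ = max 1 ((1 + Real.log T' ^ 2) * (1 + Real.log T')) * 1 := by ring
      _ ≤ _ := by gcongr

end Pool.Agent.H616.SP
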