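import Mathlib
import Pool.Agent.H483.SA.Comb

set_option autoImplicit false

/-!
# Exact prime power components of an integer
-/

namespace Pool.Agent.H616.SP

open Finset Pool.Agent.H483.SA

/-- the exact prime powers dividing `n` -/
def pp (n : ℕ) : Finset ℕ := n.primeFactors.image (fun p => p ^ n.factorization p)

lemma fac_pos {n p : ℕ} (hp : p ∈ n.primeFactors) : n.factorization p ≠ 0 := by
  rw [← Finsupp.mem_support_iff, Nat.support_factorization]; exact hp

lemma pp_inj (n : ℕ) : Set.InjOn (fun p => p ^ n.factorization p) (n.primeFactors : Set ℕ) := by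
  intro p hp q hq h
  have hpp := Nat.prime_of_mem_primeFactors (Finset.mem_coe.1 hp)
  have hqp := Nat.prime_of_mem_primeFactors (Finset.mem_coe.1 hq)
  have h1 : (p ^ n.factorization p).minFac = p := hpp.pow_minFac (fac_pos hp)
  have h2 : (q ^ n.factorization q).minFac = q := hqp.pow_minFac (fac_pos hq)
  simp only at h
  rw [← h1, ← h2, h]

lemma prod_pp' {M : Type*} [CommMonoid M] (n : ℕ) (f : ℕ → M) :
    ∏ q ∈ pp n, f q = ∏ p ∈ n.primeFactors, f (p ^ n.factorization p) := by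
  unfold pp
  rw [Finset.prod_image (pp_inj n)]

lemma prod_pp {n : ℕ} (hn : n ≠ 0) : ∏ q ∈ pp n, q = n := by
  rw [prod_pp' n (fun q => q)]
  exact Nat.factorization_prod_pow_eq_self hn

lemma mem_pp {n q : ℕ} : q ∈ pp n ↔ ∃ p ∈ n.primeFactors, p ^ n.factorization p = q := by
  unfold pp; rw [Finset.mem_image]

lemma pp_spec {n q : ℕ} (hq : q ∈ pp n) : ∃ p k : ℕ, p.Prime ∧ 1 ≤ k ∧ q = p ^ k ∧ p ∈ n.primeFactors ∧
    n.factorization p = k := by
  obtain ⟨p, hp, rfl⟩ := mem_pp.1 hq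
  exact ⟨p, _, Nat.prime_of_mem_primeFactors hp, Nat.one_le_iff_ne_zero.2 (fac_pos hp), rfl, hp, rfl⟩

lemma pp_injOn {F : Finset ℕ} (hF : ∀ n ∈ F, n ≠ 0) : Set.InjOn pp (F : Set ℕ) := by
  intro a ha b hb hab
  have h1 := prod_pp (hF a ha)
  have h2 := prod_pp (hF b hb)
  rw [← h1, ← h2, hab]

lemma sum_pp_le {F : Finset ℕ} (hF : ∀ n ∈ F, n ≠ 0) {g : Finset ℕ → ℝ} (hg : ∀ T, 0 ≤ g T)
    {S : Finset ℕ} (hS : ∀ n ∈ F, pp n ⊆ S) :
    ∑ n ∈ F, g (pp n) ≤ ∑ T ∈ S.powerset, g T := by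
  calc ∑ n ∈ F, g (pp n) = ∑ T ∈ F.image pp, g T := by
        rw [Finset.sum_image (pp_injOn hF)]
    _ ≤ _ := by
        apply Finset.sum_le_sum_of_subset_of_nonneg
        · intro T hT
          rw [Finset.mem_image] at hT
          obtain ⟨n, hn, rfl⟩ := hT
          exact Finset.mem_powerset.2 (hS n hn)
        · intro T _ _
          exact hg T

lemma sum_gg_pp {F : Finset ℕ} (hF : ∀ n ∈ F, n ≠ 0) {y x : ℕ → ℝ} (hy : ∀ n, 0 ≤ y n)
    (hx : ∀ n, 0 ≤ x n) {Y X : ℝ} (hY : ∀ S : Finset ℕ, ∑ p ∈ S, y p ≤ Y) (hX : ∀ S : Finset ℕ, ∑ p ∈ S, x p ≤ X) :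
    ∑ n ∈ F, gg y x (pp n) ≤ Y * Real.exp X := by
  set S := F.biUnion pp with hS
  refine (sum_pp_le hF (gg_nonneg hy hx) (S := S) (fun n hn => Finset.subset_biUnion_of_mem _ hn)).trans ?_
  refine (sum_gg_le S hy hx).trans ?_
  have h1 : ∏ q ∈ S, (1 + x q) ≤ Real.exp X := by
    calc ∏ q ∈ S, (1 + x q) ≤ ∏ q ∈ S, Real.exp (x q) := by
          apply Finset.prod_le_prod
          · intro q _; have := hx q; linarith
          · intro q _; have := Real.add_one_le_exp (x q); linarith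
      _ = Real.exp (∑ q ∈ S, x q) := (Real.exp_sum _ _).symm
      _ ≤ _ := Real.exp_le_exp.2 (hX S)
  have h2 : 0 ≤ ∑ p ∈ S, y p := Finset.sum_nonneg fun p _ => hy p
  exact mul_le_mul (hY S) h1 (Finset.prod_nonneg fun q _ => by have := hx q; linarith) (h2.trans (hY S))

lemma sum_prod_pp {F : Finset ℕ} (hF : ∀ n ∈ F, n ≠ 0) {x : ℕ → ℝ}
    (hx : ∀ n, 0 ≤ x n) {X : ℝ} (hX : ∀ S : Finset ℕ, ∑ p ∈ S, x p ≤ X) :
    ∑ n ∈ F, ∏ q ∈ pp n, x q ≤ Real.exp X := by
  set S := F.biUnion pp with hS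
  refine (sum_pp_le (g := fun T => ∏ q ∈ T, x q) hF (fun T => Finset.prod_nonneg fun q _ => hx q) (S := S)
    (fun n hn => Finset.subset_biUnion_of_mem _ hn)).trans ?_
  exact (sum_powerset_prod_le S hx).trans (Real.exp_le_exp.2 (hX S))

/-- a product is at most the sum with one distinguished element -/
lemma prod_le_gg {T : Finset ℕ} {x y : ℕ → ℝ} (hx : ∀ n, 0 ≤ x n) (hy : ∀ n, 0 ≤ y n) {q : ℕ} (hq : q ∈ T)
    (hxy : x q ≤ y q) : ∏ p ∈ T, x p ≤ gg y x T := by
  unfold gg
  rw [← Finset.mul_prod_erase T x hq]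
  refine le_trans ?_ (Finset.single_le_sum (f := fun p => y p * ∏ q ∈ T.erase p, x q)
    (fun p _ => mul_nonneg (hy p) (Finset.prod_nonneg fun q _ => hx q)) hq)
  exact mul_le_mul_of_nonneg_right hxy (Finset.prod_nonneg fun q _ => hx q)

lemma pp_one : pp 1 = ∅ := by simp [pp]

lemma pp_prime_pow {p k : ℕ} (hp : p.Prime) (hk : k ≠ 0) : pp (p ^ k) = {p ^ k} := by
  unfold pp
  rw [Nat.primeFactors_prime_pow hk hp, Finset.image_singleton]
  simp [hp.factorization_self]

lemma pp_prime {p : ℕ} (hp : p.Prime) : pp p = {p} := by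
  have := pp_prime_pow hp one_ne_zero
  simpa using this

lemma pp_mul {a b : ℕ} (h : Nat.Coprime a b) : pp (a * b) = pp a ∪ pp b := by
  rcases Nat.eq_zero_or_pos a with rfl | ha
  · have hb : b = 1 := by simpa using h
    subst hb
    simp [pp]
  rcases Nat.eq_zero_or_pos b with rfl | hb
  · have ha : a = 1 := by simpa using h
    subst ha
    simp [pp]
  unfold pp
  rw [h.primeFactors_mul, Finset.image_union]
  have hfac : (a * b).factorization = a.factorization + b.factorization :=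
    Nat.factorization_mul ha.ne' hb.ne'
  congr 1
  · apply Finset.image_congr
    intro p hp
    have hpb : b.factorization p = 0 := by
      apply Nat.factorization_eq_zero_of_not_dvd
      intro hd
      have hpa := Nat.dvd_of_mem_primeFactors (Finset.mem_coe.1 hp)
      have hpp := Nat.prime_of_mem_primeFactors (Finset.mem_coe.1 hp)
      have := Nat.dvd_gcd hpa hd
      rw [h.gcd_eq_one] at this
      exact hpp.one_lt.ne' (Nat.dvd_one.1 this)
    simp only
    rw [hfac, Finsupp.add_apply, hpb, add_zero]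
  · apply Finset.image_congr
    intro p hp
    have hpb : a.factorization p = 0 := by
      apply Nat.factorization_eq_zero_of_not_dvd
      intro hd
      have hpa := Nat.dvd_of_mem_primeFactors (Finset.mem_coe.1 hp)
      have hpp := Nat.prime_of_mem_primeFactors (Finset.mem_coe.1 hp)
      have := Nat.dvd_gcd hd hpa
      rw [h.gcd_eq_one] at this
      exact hpp.one_lt.ne' (Nat.dvd_one.1 this)
    simp only
    rw [hfac, Finsupp.add_apply, hpb, zero_add]

/-- the components of `n` are pairwise coprime -/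
lemma pp_coprime {n q q' : ℕ} (hq : q ∈ pp n) (hq' : q' ∈ pp n) (hne : q ≠ q') : Nat.Coprime q q' := by
  obtain ⟨p, hp, rfl⟩ := mem_pp.1 hq
  obtain ⟨p', hp', rfl⟩ := mem_pp.1 hq'
  have hpp := Nat.prime_of_mem_primeFactors hp
  have hpp' := Nat.prime_of_mem_primeFactors hp'
  apply Nat.Coprime.pow
  rw [Nat.coprime_primes hpp hpp']
  rintro rfl
  exact hne rfl

/-- the components of a partial product -/
lemma pp_prod {n : ℕ} {T : Finset ℕ} (hT : T ⊆ pp n) : pp (∏ q ∈ T, q) = T := by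
  induction T using Finset.induction_on with
  | empty => simp [pp_one]
  | insert q T hq ih =>
    have hqn : q ∈ pp n := hT (Finset.mem_insert_self _ _)
    have hTn : T ⊆ pp n := fun x hx => hT (Finset.mem_insert_of_mem hx)
    rw [Finset.prod_insert hq]
    have hcop : Nat.Coprime q (∏ q ∈ T, q) := by
      apply Nat.Coprime.prod_right
      intro r hr
      exact pp_coprime hqn (hTn hr) (fun h => hq (h ▸ hr))
    rw [pp_mul hcop, ih hTn]
    obtain ⟨p, k, hp, hk, rfl, -, -⟩ := pp_spec hqn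
    rw [pp_prime_pow hp (by omega)]
    rfl

/-- the prime components -/
def UU (n : ℕ) : Finset ℕ := (pp n).filter Nat.Prime
/-- the components with exponent at least two -/
def VV (n : ℕ) : Finset ℕ := (pp n).filter (fun q => ¬ q.Prime)

lemma prod_UV {M : Type*} [CommMonoid M] (n : ℕ) (f : ℕ → M) :
    ∏ q ∈ pp n, f q = (∏ q ∈ UU n, f q) * ∏ q ∈ VV n, f q :=
  (Finset.prod_filter_mul_prod_filter_not _ _ _).symm

lemma card_UV (n : ℕ) : (pp n).card = (UU n).card + (VV n).card :=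
  (Finset.card_filter_add_card_filter_not _).symm

lemma UU_sub (n : ℕ) : UU n ⊆ pp n := Finset.filter_subset _ _
lemma VV_sub (n : ℕ) : VV n ⊆ pp n := Finset.filter_subset _ _

/-- the squarefull part -/
def tf (n : ℕ) : ℕ := ∏ q ∈ VV n, q
/-- the squarefree part -/
def sf (n : ℕ) : ℕ := ∏ q ∈ UU n, q

lemma sf_mul_tf {n : ℕ} (hn : n ≠ 0) : sf n * tf n = n := by
  unfold sf tf
  rw [← prod_UV n (fun q => q)]
  exact prod_pp hn

lemma pp_tf (n : ℕ) : pp (tf n) = VV n := pp_prod (VV_sub n)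
lemma pp_sf (n : ℕ) : pp (sf n) = UU n := pp_prod (UU_sub n)

lemma tf_ne {n : ℕ} (hn : n ≠ 0) : tf n ≠ 0 := by
  intro h
  have := sf_mul_tf hn
  rw [h, mul_zero] at this
  exact hn this.symm

lemma sf_ne {n : ℕ} (hn : n ≠ 0) : sf n ≠ 0 := by
  intro h
  have := sf_mul_tf hn
  rw [h, zero_mul] at this
  exact hn this.symm

/-- removing an exact prime divisor -/
lemma pp_erase {n P : ℕ} (hn : n ≠ 0) (hP : P ∈ UU n) : ∃ r, n = r * P ∧ r ≠ 0 ∧ pp r = (pp n).erase P := by
  refine ⟨∏ q ∈ (pp n).erase P, q, ?_, ?_, pp_prod (Finset.erase_subset _ _)⟩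
  · rw [mul_comm, Finset.mul_prod_erase (pp n) (fun q => q) (UU_sub n hP), prod_pp hn]
  · rw [Finset.prod_ne_zero_iff]
    intro q hq
    obtain ⟨p, k, hp, -, rfl, -, -⟩ := pp_spec (Finset.mem_of_mem_erase hq)
    exact pow_ne_zero _ hp.ne_zero

end Pool.Agent.H616.SP
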