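import Pool.Agent.H483.SA.Count2
import Pool.Agent.H616.SP.Pp
import Pool.Agent.H616.SP.Pow

set_option autoImplicit false

/-!
# Weighted counts in short intervals of integers having a square factor
-/

namespace Pool.Agent.H616.SP

open Finset Pool.Agent.Q240.KS Pool.Agent.H483.SA

/-- all prime factors are larger than `Y` -/
def Rg (Y : ℝ) (n : ℕ) : Prop := n ≠ 0 ∧ ∀ q ∈ pp n, Y < q.minFac

/-- the weight -/
noncomputable def WT (η Q : ℝ) (n : ℕ) : ℝ := MM Q n * ∏ q ∈ UU n, (2 * gt η Q q)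

/-- `q^{-11/20}` at the higher prime powers -/
noncomputable def xv (Y : ℝ) (q : ℕ) : ℝ :=
  open Classical in if PK 2 q ∧ Y < q.minFac then (q : ℝ) ^ (-(11 / 20 : ℝ)) else 0

lemma xv_nonneg (Y : ℝ) (q : ℕ) : 0 ≤ xv Y q := by
  unfold xv; split_ifs <;> positivity

lemma WT_nonneg {η Q : ℝ} (hη : 0 ≤ η) (n : ℕ) : 0 ≤ WT η Q n := by
  unfold WT
  have h1 := MM_pos Q n
  have h2 : 0 ≤ ∏ q ∈ UU n, (2 * gt η Q q) := Finset.prod_nonneg fun q _ => by
    have := gt_nonneg (Q := Q) hη q; positivity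
  positivity

lemma UU_prime {n q : ℕ} (hq : q ∈ UU n) : q.Prime := (Finset.mem_filter.1 hq).2

lemma VV_PK {n q : ℕ} (hq : q ∈ VV n) : PK 2 q := by
  obtain ⟨h1, h2⟩ := Finset.mem_filter.1 hq
  obtain ⟨p, k, hp, hk, rfl, -, -⟩ := pp_spec h1
  refine ⟨p, k, hp, ?_, rfl⟩
  by_contra hcon
  have : k = 1 := by omega
  subst this
  rw [pow_one] at h2
  exact h2 hp

lemma PK_not_prime {q : ℕ} (hq : PK 2 q) : ¬ q.Prime := by
  obtain ⟨p, k, hp, hk, rfl⟩ := hq
  intro h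
  have := Nat.Prime.eq_one_of_pow h
  omega

lemma tf_eq_rpow {Y : ℝ} {n : ℕ} (hn : Rg Y n) :
    (tf n : ℝ) ^ (-(11 / 20 : ℝ)) = ∏ q ∈ VV n, xv Y q := by
  unfold tf
  push_cast
  rw [← Real.finsetProd_rpow]
  · apply Finset.prod_congr rfl
    intro q hq
    unfold xv
    rw [if_pos ⟨VV_PK hq, hn.2 q (VV_sub n hq)⟩]
  · intro q _
    positivity

lemma sf_primeFactors (n : ℕ) : (sf n).primeFactors = UU n := Nat.primeFactors_prod fun _ hq => UU_prime hq

lemma prod_primeFactors' {T : Finset ℕ} (hT : ∀ q ∈ T, q.Prime) : (∏ q ∈ T, q).primeFactors = T :=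
  Nat.primeFactors_prod hT

lemma prod_sqfree {T : Finset ℕ} (hT : ∀ q ∈ T, q.Prime) : Squarefree (∏ q ∈ T, q) := by
  induction T using Finset.induction_on with
  | empty => simp
  | insert q T hq ih =>
    have hq' := hT q (Finset.mem_insert_self _ _)
    have hT' : ∀ p ∈ T, p.Prime := fun p hp => hT p (Finset.mem_insert_of_mem hp)
    rw [Finset.prod_insert hq]
    have hcop : Nat.Coprime q (∏ q ∈ T, q) := by
      apply Nat.Coprime.prod_right
      intro r hr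
      rw [Nat.coprime_primes hq' (hT' r hr)]
      intro h
      exact hq (h ▸ hr)
    rw [Nat.squarefree_mul hcop]
    exact ⟨hq'.squarefree, ih hT'⟩

section

variable {Q η : ℝ}

/-- the product over the prime components -/
lemma prime_part (hQ : 1 ≤ Q) (hη : 0 < η) {T : Finset ℕ} (hT : ∀ q ∈ T, q.Prime) {P : ℕ} (hP : P ∈ T)
    (hle : ∀ q ∈ T, q ≤ P) :
    MM Q (∏ q ∈ T, q) * ∏ q ∈ T, (2 * gt η Q q) ≤
      2 * η * (1 + Real.log Q ^ 2) * Real.log P * ∏ q ∈ T.erase P, (16 * gt η Q q) := by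
  have hPp := hT P hP
  have hlP : 0 ≤ Real.log P := Real.log_natCast_nonneg P
  by_cases he : (T.erase P).card = 0
  · have he' := Finset.card_eq_zero.1 he
    have hTP : T = {P} := by
      rw [← Finset.insert_erase hP, he']; rfl
    rw [he', hTP]
    simp only [Finset.prod_singleton, Finset.prod_empty, mul_one]
    unfold gt
    have hM := MM_pos Q P
    have e : MM Q P * (2 * (η * Real.log P / MM Q P)) = 2 * η * 1 * Real.log P := by field_simp
    rw [e]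
    have : (1:ℝ) ≤ 1 + Real.log Q ^ 2 := by nlinarith [sq_nonneg (Real.log Q)]
    gcongr
  · have hTe : ∀ q ∈ T.erase P, q.Prime := fun q hq => hT q (Finset.mem_of_mem_erase hq)
    have hpf1 := prod_primeFactors' hT
    have hpf2 := prod_primeFactors' hTe
    have h := cn_le (η := η) hQ hη (n := ∏ q ∈ T, q) (P := P) (r := ∏ q ∈ T.erase P, q) (prod_sqfree hT) hPp
      (by rw [hpf2]; simp) (by rw [hpf1, hpf2, Finset.insert_erase hP])
      (by rw [hpf1, hpf2]; exact Finset.card_erase_add_one hP) (by rw [hpf2]; omega)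
      (by rw [hpf2]; exact fun q hq => hle q (Finset.mem_of_mem_erase hq))
    unfold cn at h
    rw [hpf1, hpf2] at h
    have e : MM Q (∏ q ∈ T, q) * ∏ q ∈ T, (2 * gt η Q q) =
        η * (2 ^ T.card * MM Q (∏ q ∈ T, q) * η⁻¹ * ∏ q ∈ T, gt η Q q) := by
      rw [Finset.prod_mul_distrib, Finset.prod_const]
      field_simp
    rw [e]
    calc _ ≤ η * (2 * (1 + Real.log Q ^ 2) * Real.log P * ∏ q ∈ T.erase P, (16 * gt η Q q)) := by gcongr
      _ = _ := by ring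

/-- the bound for the weight -/
lemma WT_le (hQ : 1 ≤ Q) (hη : 0 < η) {n P : ℕ} (hn : n ≠ 0) (hP : P ∈ UU n) (hle : ∀ q ∈ UU n, q ≤ P) :
    WT η Q n ≤ 4 * η * (1 + Real.log Q ^ 2) * (1 + Real.log (tf n) ^ 2) * Real.log P *
      ∏ q ∈ (UU n).erase P, (16 * gt η Q q) := by
  have h1 := prime_part hQ hη (T := UU n) (fun q hq => UU_prime hq) hP hle
  have hG : 0 ≤ ∏ q ∈ UU n, (2 * gt η Q q) := Finset.prod_nonneg fun q _ => by
    have := gt_nonneg (Q := Q) hη.le q; positivity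
  have hs0 : ((sf n : ℕ) : ℝ) ≠ 0 := by exact_mod_cast sf_ne hn
  have ht0 : ((tf n : ℕ) : ℝ) ≠ 0 := by exact_mod_cast tf_ne hn
  have hMM : MM Q n ≤ 2 * MM Q (sf n) * (1 + Real.log (tf n) ^ 2) := by
    unfold MM
    have e : Real.log n = Real.log (sf n) + Real.log (tf n) := by
      rw [← Real.log_mul hs0 ht0]
      congr 1
      exact_mod_cast (sf_mul_tf hn).symm
    have e2 : Real.log n - Real.log Q = (Real.log (sf n) - Real.log Q) + Real.log (tf n) := by rw [e]; ring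
    rw [e2]
    exact two_mul_aux
  unfold WT
  have e3 : sf n = ∏ q ∈ UU n, q := rfl
  rw [← e3] at h1
  calc _ ≤ (2 * MM Q (sf n) * (1 + Real.log (tf n) ^ 2)) * ∏ q ∈ UU n, (2 * gt η Q q) := by gcongr
    _ = 2 * (1 + Real.log (tf n) ^ 2) * (MM Q (sf n) * ∏ q ∈ UU n, (2 * gt η Q q)) := by ring
    _ ≤ 2 * (1 + Real.log (tf n) ^ 2) * (2 * η * (1 + Real.log Q ^ 2) * Real.log P *
        ∏ q ∈ (UU n).erase P, (16 * gt η Q q)) := by gcongr
    _ = _ := by ring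

lemma sixteen_prod (hQ : 1 ≤ Q) (hη : 0 ≤ η) (hη1 : 32 * η * (1 + Real.log Q) ≤ 1) (T : Finset ℕ) :
    ∏ q ∈ T, (16 * gt η Q q) ≤ 1 := by
  apply Finset.prod_le_one
  · intro q _
    have := gt_nonneg (Q := Q) hη q
    positivity
  · intro q _
    have := t_small hQ hη hη1 q
    linarith

/-- logarithm of a product times the weights -/
lemma log_prod_le (hQ : 1 ≤ Q) (hη : 0 ≤ η) (hη1 : 32 * η * (1 + Real.log Q) ≤ 1) {T : Finset ℕ}
    (hT : ∀ q ∈ T, q.Prime) :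
    Real.log (∏ q ∈ T, q : ℕ) * ∏ q ∈ T, (16 * gt η Q q) ≤ 32 * η * (1 + Real.log Q ^ 2) := by
  by_cases he : T.Nonempty
  · obtain ⟨q, hq, hmax⟩ := Finset.exists_max_image T id he
    have hlog : Real.log (∏ q ∈ T, q : ℕ) ≤ T.card * Real.log q := by
      push_cast
      rw [Real.log_prod]
      · calc ∑ p ∈ T, Real.log p ≤ ∑ p ∈ T, Real.log q := by
              apply Finset.sum_le_sum
              intro p hp
              apply Real.log_le_log (by exact_mod_cast (hT p hp).pos)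
              exact_mod_cast hmax p hp
          _ = _ := by rw [Finset.sum_const, nsmul_eq_mul]
      · intro p hp
        have := (hT p hp).pos
        positivity
    have hsplit : ∏ p ∈ T, (16 * gt η Q p) = (16 * gt η Q q) * ∏ p ∈ T.erase q, (16 * gt η Q p) :=
      (Finset.mul_prod_erase _ _ hq).symm
    have hrest : ∏ p ∈ T.erase q, (16 * gt η Q p) ≤ (1 / 2) ^ (T.card - 1) := by
      calc _ ≤ ∏ _p ∈ T.erase q, (1 / 2 : ℝ) := by
            apply Finset.prod_le_prod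
            · intro p _
              have := gt_nonneg (Q := Q) hη p
              positivity
            · intro p _
              exact t_small hQ hη hη1 p
        _ = _ := by rw [Finset.prod_const, Finset.card_erase_of_mem hq]
    have hrest0 : 0 ≤ ∏ p ∈ T.erase q, (16 * gt η Q p) :=
      Finset.prod_nonneg fun p _ => by have := gt_nonneg (Q := Q) hη p; positivity
    have hgq := gt_nonneg (Q := Q) hη q
    have hna := nat_aux T.card (Finset.card_pos.2 he)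
    have hlg := t_log hQ hη q
    have hlq : 0 ≤ Real.log q := Real.log_natCast_nonneg q
    have hΛ : 0 ≤ 32 * η * (1 + Real.log Q ^ 2) := by positivity
    rw [hsplit]
    calc _ ≤ (T.card * Real.log q) * ((16 * gt η Q q) * ∏ p ∈ T.erase q, (16 * gt η Q p)) := by
          gcongr
      _ = (Real.log q * (16 * gt η Q q)) * (T.card * ∏ p ∈ T.erase q, (16 * gt η Q p)) := by ring
      _ ≤ (32 * η * (1 + Real.log Q ^ 2)) * (T.card * (1 / 2) ^ (T.card - 1)) := by gcongr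
      _ ≤ (32 * η * (1 + Real.log Q ^ 2)) * 1 := by gcongr
      _ = _ := by ring
  · rw [Finset.not_nonempty_iff_eq_empty.1 he]
    simp only [Finset.prod_empty, Nat.cast_one, Real.log_one, zero_mul]
    positivity

/-- the pointwise bound when the cofactor is large -/
lemma WT_pt (hQ : 1 ≤ Q) (hη : 0 < η) (hη1 : 32 * η * (1 + Real.log Q) ≤ 1) {X : ℝ} (hX : 2 ≤ X) {n P r : ℕ}
    (hn : n ≠ 0) (hnX : (n : ℝ) ≤ 2 * X) (hP : P ∈ UU n) (hle : ∀ q ∈ UU n, q ≤ P) (hnr : n = r * P)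
    (hpr : pp r = (pp n).erase P) (hr : X ^ (1 / 4 : ℝ) < r) :
    WT η Q n ≤ 32 * η * (1 + Real.log Q ^ 2) ^ 2 * ((1 + Real.log (tf n) ^ 2) * (1 + Real.log (tf n))) := by
  have hX0 : 0 < X := by linarith
  have hPp := UU_prime hP
  refine (WT_le hQ hη hn hP hle).trans ?_
  have hr0 : r ≠ 0 := by rintro rfl; simp at hnr; exact hn hnr
  set r' := ∏ q ∈ (UU n).erase P, q with hr'
  have hrr : r = r' * tf n := by
    rw [← prod_pp hr0, hpr, hr']
    unfold tf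
    have hd : (pp n).erase P = (UU n).erase P ∪ VV n := by
      ext q
      simp only [UU, VV, Finset.mem_erase, Finset.mem_union, Finset.mem_filter]
      constructor
      · rintro ⟨h1, h2⟩
        by_cases h3 : q.Prime
        · exact Or.inl ⟨h1, h2, h3⟩
        · exact Or.inr ⟨h2, h3⟩
      · rintro (⟨h1, h2, -⟩ | ⟨h1, h2⟩)
        · exact ⟨h1, h2⟩
        · refine ⟨?_, h1⟩
          rintro rfl
          exact h2 hPp
    rw [hd, Finset.prod_union]
    rw [Finset.disjoint_left]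
    intro q h1 h2
    exact (Finset.mem_filter.1 h2).2 (UU_prime (Finset.mem_of_mem_erase h1))
  have ht0 : (tf n : ℝ) ≠ 0 := by exact_mod_cast tf_ne hn
  have hr'0 : (r' : ℝ) ≠ 0 := by
    have : r' ≠ 0 := by rintro h; rw [h, zero_mul] at hrr; exact hr0 hrr
    exact_mod_cast this
  have hlr : Real.log r = Real.log r' + Real.log (tf n) := by
    rw [← Real.log_mul hr'0 ht0]; congr 1; exact_mod_cast hrr
  have hlX : 1 / 4 * Real.log X ≤ Real.log r := by
    rw [← Real.log_rpow hX0]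
    exact Real.log_le_log (by positivity) hr.le
  have hP0 : (0:ℝ) < P := by exact_mod_cast hPp.pos
  have hlP : Real.log P ≤ 2 * Real.log X := by
    have hPn : (P : ℝ) ≤ n := by
      have : P ≤ n := by rw [hnr]; exact Nat.le_mul_of_pos_left P (Nat.pos_of_ne_zero hr0)
      exact_mod_cast this
    calc Real.log P ≤ Real.log (2 * X) := Real.log_le_log hP0 (hPn.trans hnX)
      _ ≤ Real.log (X * X) := Real.log_le_log (by positivity) (by nlinarith)
      _ = _ := by rw [Real.log_mul hX0.ne' hX0.ne']; ring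
  have hlP2 : Real.log P ≤ 8 * (Real.log r' + Real.log (tf n)) := by linarith
  have hG0 : 0 ≤ ∏ q ∈ (UU n).erase P, (16 * gt η Q q) := Finset.prod_nonneg fun q _ => by
    have := gt_nonneg (Q := Q) hη.le q; positivity
  have hG1 := sixteen_prod hQ hη.le hη1 ((UU n).erase P)
  have hlp := log_prod_le hQ hη.le hη1 (T := (UU n).erase P) (fun q hq => UU_prime (Finset.mem_of_mem_erase hq))
  rw [← hr'] at hlp
  have hlt : 0 ≤ Real.log (tf n) := Real.log_natCast_nonneg _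
  set G := ∏ q ∈ (UU n).erase P, (16 * gt η Q q) with hGd
  set Λ := 1 + Real.log Q ^ 2 with hΛ
  have hΛ1 : 1 ≤ Λ := by rw [hΛ]; nlinarith [sq_nonneg (Real.log Q)]
  have hη32 : 32 * η ≤ 1 := by
    have hL : 0 ≤ Real.log Q := Real.log_nonneg hQ
    nlinarith
  have hkey : Real.log P * G ≤ 8 * Λ * (1 + Real.log (tf n)) := by
    calc Real.log P * G ≤ 8 * (Real.log r' + Real.log (tf n)) * G := by gcongr
      _ = 8 * (Real.log r' * G) + 8 * (Real.log (tf n) * G) := by ring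
      _ ≤ 8 * (32 * η * Λ) + 8 * (Real.log (tf n) * 1) := by gcongr
      _ ≤ 8 * (1 * Λ) + 8 * (Real.log (tf n) * Λ) := by gcongr
      _ = _ := by ring
  calc _ = 4 * η * Λ * (1 + Real.log (tf n) ^ 2) * (Real.log P * G) := by ring
    _ ≤ 4 * η * Λ * (1 + Real.log (tf n) ^ 2) * (8 * Λ * (1 + Real.log (tf n))) := by gcongr
    _ = _ := by ring

/-- integers of an interval divisible by `t` -/
lemma card_mult {X H : ℝ} (hX : 0 ≤ X) (hH : 0 ≤ H) {t : ℕ} (ht : 0 < t) {F : Finset ℕ}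
    (hF : ∀ n ∈ F, t ∣ n ∧ X < n ∧ (n : ℝ) ≤ X + H) : (F.card : ℝ) ≤ H / t + 1 := by
  have ht0 : (0:ℝ) < t := by exact_mod_cast ht
  have hinj : Set.InjOn (fun n => n / t) (F : Set ℕ) := by
    intro a ha b hb hab
    obtain ⟨⟨c, hc⟩, -⟩ := hF a ha
    obtain ⟨⟨d, hd⟩, -⟩ := hF b hb
    simp only at hab
    rw [hc, hd, Nat.mul_div_cancel_left _ ht, Nat.mul_div_cancel_left _ ht] at hab
    rw [hc, hd, hab]
  have hsub : F.image (fun n => n / t) ⊆ Finset.Ioc ⌊X / t⌋₊ ⌊(X + H) / t⌋₊ := by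
    intro m hm
    rw [Finset.mem_image] at hm
    obtain ⟨n, hn, rfl⟩ := hm
    obtain ⟨⟨c, hc⟩, h1, h2⟩ := hF n hn
    rw [hc, Nat.mul_div_cancel_left _ ht]
    rw [hc] at h1 h2
    push_cast at h1 h2
    rw [Finset.mem_Ioc, Nat.floor_lt (by positivity), Nat.le_floor_iff (by positivity)]
    constructor
    · rw [div_lt_iff₀ ht0]; linarith
    · rw [le_div_iff₀ ht0]; linarith
  have h3 := Finset.card_le_card hsub
  rw [Finset.card_image_of_injOn hinj, Nat.card_Ioc] at h3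
  have h5 : (⌊X / t⌋₊ : ℝ) > X / t - 1 := by have := Nat.lt_floor_add_one (X / t); linarith
  have h6 : (⌊(X + H) / t⌋₊ : ℝ) ≤ (X + H) / t := Nat.floor_le (by positivity)
  have h7 : ⌊X / t⌋₊ ≤ ⌊(X + H) / t⌋₊ := Nat.floor_le_floor (by gcongr; linarith)
  have h8 : ((⌊(X + H) / t⌋₊ - ⌊X / t⌋₊ : ℕ) : ℝ) = (⌊(X + H) / t⌋₊ : ℝ) - ⌊X / t⌋₊ := Nat.cast_sub h7
  have h9 : (F.card : ℝ) ≤ ((⌊(X + H) / t⌋₊ - ⌊X / t⌋₊ : ℕ) : ℝ) := by exact_mod_cast h3
  rw [h8] at h9
  have h10 : (X + H) / t = X / t + H / t := by ring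
  linarith

lemma two_X_pow {X H : ℝ} (hX : 1 ≤ X) (hH1 : X ^ (3 / 5 : ℝ) ≤ H) : (2 * X) ^ (14 / 25 : ℝ) ≤ 2 * H := by
  have a1 : (2:ℝ) ^ (14 / 25 : ℝ) ≤ 2 := by
    calc (2:ℝ) ^ (14 / 25 : ℝ) ≤ 2 ^ (1:ℝ) := Real.rpow_le_rpow_of_exponent_le (by norm_num) (by norm_num)
      _ = 2 := Real.rpow_one _
  have a2 : X ^ (14 / 25 : ℝ) ≤ X ^ (3 / 5 : ℝ) := Real.rpow_le_rpow_of_exponent_le hX (by norm_num)
  rw [Real.mul_rpow (by norm_num) (by linarith)]
  have a3 : 0 ≤ X ^ (14 / 25 : ℝ) := by positivity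
  exact mul_le_mul a1 (a2.trans hH1) a3 (by norm_num)

lemma sum_xv {Y τ : ℝ} (hτ : ∀ S : Finset ℕ, ∑ q ∈ S, xv Y q ≤ τ) (hτ1 : τ ≤ 1) {F : Finset ℕ}
    (hF : ∀ n ∈ F, Rg Y n ∧ UU n = ∅ ∧ n ≠ 1) : ∑ n ∈ F, (n : ℝ) ^ (-(11 / 20 : ℝ)) ≤ 3 * τ := by
  have hτ0 : 0 ≤ τ := by simpa using hτ ∅
  have h1 : ∀ n ∈ F, (n : ℝ) ^ (-(11 / 20 : ℝ)) ≤ gg (xv Y) (xv Y) (pp n) := by
    intro n hn
    obtain ⟨hr, hU, hn1⟩ := hF n hn
    have hV : VV n = pp n := by
      have := card_UV n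
      rw [hU, Finset.card_empty, zero_add] at this
      exact Finset.eq_of_subset_of_card_le (VV_sub n) this.le
    have htf : tf n = n := by
      have := sf_mul_tf hr.1
      have hs : sf n = 1 := by unfold sf; rw [hU]; rfl
      rwa [hs, one_mul] at this
    have h2 := tf_eq_rpow hr
    rw [htf, hV] at h2
    rw [h2]
    have hne : (pp n).Nonempty := by
      by_contra hcon
      rw [Finset.not_nonempty_iff_eq_empty] at hcon
      have := prod_pp hr.1
      rw [hcon, Finset.prod_empty] at this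
      exact hn1 this.symm
    obtain ⟨q, hq⟩ := hne
    exact prod_le_gg (xv_nonneg Y) (xv_nonneg Y) hq le_rfl
  refine (Finset.sum_le_sum h1).trans ?_
  refine (sum_gg_pp (fun n hn => (hF n hn).1.1) (xv_nonneg Y) (xv_nonneg Y) hτ hτ).trans ?_
  have h3 : Real.exp τ ≤ 3 := by
    have := Real.exp_one_lt_d9
    have h4 := Real.exp_le_exp.2 hτ1
    linarith
  calc τ * Real.exp τ ≤ τ * 3 := by gcongr
    _ = _ := by ring

/-- squarefull numbers in a window -/
theorem count4 {X H Y τ C₀ : ℝ} (hX : 2 ≤ X) (hH1 : X ^ (3 / 5 : ℝ) ≤ H) (hH2 : H ≤ X)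
    (hC₁ : 1 ≤ C₀) (hC₀ : ∀ t : ℝ, 1 ≤ t → (1 + Real.log t ^ 2) * (1 + Real.log t) ≤ C₀ * t ^ (1 / 100 : ℝ))
    (hτ : ∀ S : Finset ℕ, ∑ q ∈ S, xv Y q ≤ τ) (hτ1 : τ ≤ 1) (hQ : 1 ≤ Q)
    {F : Finset ℕ} (hF : ∀ n ∈ F, Rg Y n ∧ UU n = ∅ ∧ n ≠ 1 ∧ Real.log Q ≤ 2 * Real.log n ∧ X < n ∧ (n : ℝ) ≤ X + H) :
    ∑ n ∈ F, MM Q n ≤ 6 * C₀ * τ * H := by
  have hX0 : 0 < X := by linarith
  have hH0 : 0 < H := lt_of_lt_of_le (by positivity) hH1
  have h1 : ∀ n ∈ F, MM Q n ≤ 2 * C₀ * H * (n : ℝ) ^ (-(11 / 20 : ℝ)) := by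
    intro n hn
    obtain ⟨hr, -, -, hL, h2, h3⟩ := hF n hn
    have hn1 : (1:ℝ) ≤ n := by exact_mod_cast Nat.one_le_iff_ne_zero.2 hr.1
    have hn0 : (0:ℝ) < n := by linarith
    have hln : 0 ≤ Real.log n := Real.log_nonneg hn1
    have hLQ : 0 ≤ Real.log Q := Real.log_nonneg hQ
    have h4 : MM Q n ≤ (1 + Real.log n ^ 2) * (1 + Real.log n) := by
      unfold MM
      have h5 : (Real.log n - Real.log Q) ^ 2 ≤ Real.log n ^ 2 := by
        apply sq_le_sq'
        · linarith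
        · linarith
      nlinarith [mul_nonneg (by positivity : 0 ≤ 1 + Real.log n ^ 2) hln]
    have h6 := hC₀ n hn1
    have h7 : (1:ℝ) ≤ ((2 * X) / n) ^ (14 / 25 : ℝ) := by
      apply Real.one_le_rpow _ (by norm_num)
      rw [le_div_iff₀ hn0]; linarith
    have h8 : (n : ℝ) ^ (1 / 100 : ℝ) ≤ 2 * H * (n : ℝ) ^ (-(11 / 20 : ℝ)) := by
      calc (n : ℝ) ^ (1 / 100 : ℝ) = (n : ℝ) ^ (1 / 100 : ℝ) * 1 := by ring
        _ ≤ (n : ℝ) ^ (1 / 100 : ℝ) * ((2 * X) / n) ^ (14 / 25 : ℝ) := by gcongr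
        _ = (2 * X) ^ (14 / 25 : ℝ) * ((n : ℝ) ^ (1 / 100 : ℝ) * (n : ℝ) ^ (-(14 / 25 : ℝ))) := by
            rw [Real.div_rpow (by positivity) hn0.le, Real.rpow_neg hn0.le]; ring
        _ = (2 * X) ^ (14 / 25 : ℝ) * (n : ℝ) ^ (-(11 / 20 : ℝ)) := by
            rw [← Real.rpow_add hn0]; norm_num
        _ ≤ 2 * H * (n : ℝ) ^ (-(11 / 20 : ℝ)) := by
            gcongr
            exact two_X_pow (by linarith) hH1
    calc MM Q n ≤ C₀ * (n : ℝ) ^ (1 / 100 : ℝ) := h4.trans h6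
      _ ≤ C₀ * (2 * H * (n : ℝ) ^ (-(11 / 20 : ℝ))) := by gcongr
      _ = _ := by ring
  refine (Finset.sum_le_sum h1).trans ?_
  rw [← Finset.mul_sum]
  have h2 := sum_xv hτ hτ1 (F := F) (fun n hn => by
    obtain ⟨a, b, c, -⟩ := hF n hn
    exact ⟨a, b, c⟩)
  calc _ ≤ 2 * C₀ * H * (3 * τ) := by gcongr
    _ = _ := by ring

end

end Pool.Agent.H616.SP
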