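import Pool.Agent.H616.SP.Cnt

set_option autoImplicit false

/-!
# Weighted counts in short intervals of integers having a square factor: the main case
-/

namespace Pool.Agent.H616.SP

open Finset Pool.Agent.Q240.KS Pool.Agent.H483.SA

/-- the weights of the cofactor -/
noncomputable def xx (η Q Y : ℝ) (q : ℕ) : ℝ := (if q.Prime then 16 * gt η Q q / q else 0) + xv Y q

lemma xx_nonneg {η Q : ℝ} (hη : 0 ≤ η) (Y : ℝ) (q : ℕ) : 0 ≤ xx η Q Y q := by
  unfold xx
  have h1 := xv_nonneg Y q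
  have h2 := gt_nonneg (Q := Q) hη q
  split_ifs
  · positivity
  · linarith

lemma sum_xx {η Q Y τ : ℝ} (hη : 0 ≤ η) (hτ : ∀ S : Finset ℕ, ∑ q ∈ S, xv Y q ≤ τ) (S : Finset ℕ) :
    ∑ q ∈ S, xx η Q Y q ≤ 1920 * η + τ := by
  unfold xx
  rw [Finset.sum_add_distrib]
  apply add_le_add _ (hτ S)
  have hm := mert (Real.log Q) S
  rw [← Finset.sum_filter]
  calc ∑ q ∈ S with q.Prime, 16 * gt η Q q / q =
      16 * η * ∑ q ∈ S with q.Prime, Real.log q / (q * (1 + (Real.log q - Real.log Q) ^ 2)) := by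
        rw [Finset.mul_sum]
        apply Finset.sum_congr rfl
        intro q hq
        have hq0 : (q : ℝ) ≠ 0 := by exact_mod_cast (Finset.mem_filter.1 hq).2.ne_zero
        have hM : MM Q q ≠ 0 := (MM_pos Q q).ne'
        unfold gt
        rw [← MM]
        field_simp
    _ ≤ 16 * η * 120 := by gcongr
    _ = _ := by ring

lemma pp_ne_nil {n : ℕ} (hn : n ≠ 0) (hn1 : n ≠ 1) : (pp n).Nonempty := by
  by_contra hcon
  rw [Finset.not_nonempty_iff_eq_empty] at hcon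
  have := prod_pp hn
  rw [hcon, Finset.prod_empty] at this
  exact hn1 this.symm

/-- the fibre weight in terms of the components of the cofactor -/
lemma cof_weight {η Q Y C₀ : ℝ} (hη : 0 < η)
    (hC₁ : 1 ≤ C₀) (hC₀ : ∀ t : ℝ, 1 ≤ t → (1 + Real.log t ^ 2) * (1 + Real.log t) ≤ C₀ * t ^ (1 / 100 : ℝ))
    {r : ℕ} (hr : Rg Y r) :
    (1 + Real.log (tf r) ^ 2) * (∏ q ∈ UU r, (16 * gt η Q q)) / r ≤ C₀ * ∏ q ∈ pp r, xx η Q Y q := by
  have ht : tf r ≠ 0 := tf_ne hr.1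
  have hs : sf r ≠ 0 := sf_ne hr.1
  have ht1 : (1:ℝ) ≤ tf r := by exact_mod_cast Nat.one_le_iff_ne_zero.2 ht
  have ht0 : (0:ℝ) < tf r := by linarith
  have hs0 : ((sf r : ℕ) : ℝ) ≠ 0 := by exact_mod_cast hs
  have hrst : (r : ℝ) = sf r * tf r := by exact_mod_cast (sf_mul_tf hr.1).symm
  have h1 : ∏ q ∈ UU r, (16 * gt η Q q) = sf r * ∏ q ∈ UU r, (16 * gt η Q q / q) := by
    unfold sf
    push_cast
    rw [← Finset.prod_mul_distrib]
    apply Finset.prod_congr rfl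
    intro q hq
    have hq0 : (q : ℝ) ≠ 0 := by exact_mod_cast (UU_prime hq).ne_zero
    field_simp
  have h2 : ∏ q ∈ UU r, (16 * gt η Q q / q) ≤ ∏ q ∈ UU r, xx η Q Y q := by
    apply Finset.prod_le_prod
    · intro q _
      have := gt_nonneg (Q := Q) hη.le q
      positivity
    · intro q hq
      unfold xx
      rw [if_pos (UU_prime hq)]
      have := xv_nonneg Y q
      linarith
  have h3 : (1 + Real.log (tf r) ^ 2) / tf r ≤ C₀ * ∏ q ∈ VV r, xx η Q Y q := by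
    have h4 : ∏ q ∈ VV r, xv Y q ≤ ∏ q ∈ VV r, xx η Q Y q := by
      apply Finset.prod_le_prod
      · intro q _; exact xv_nonneg Y q
      · intro q hq
        unfold xx
        rw [if_neg (PK_not_prime (VV_PK hq)), zero_add]
    rw [← tf_eq_rpow hr] at h4
    have h5 := hC₀ (tf r) ht1
    have hl : 0 ≤ Real.log (tf r) := Real.log_nonneg ht1
    have h6 : (1 + Real.log (tf r) ^ 2) ≤ C₀ * (tf r : ℝ) ^ (1 / 100 : ℝ) := by
      refine le_trans ?_ h5
      have : 0 ≤ 1 + Real.log (tf r) ^ 2 := by positivity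
      nlinarith
    calc (1 + Real.log (tf r) ^ 2) / tf r ≤ (C₀ * (tf r : ℝ) ^ (1 / 100 : ℝ)) / tf r := by gcongr
      _ = C₀ * (tf r : ℝ) ^ (-(99 / 100) : ℝ) := by
          rw [mul_div_assoc]
          congr 1
          rw [div_eq_mul_inv, ← Real.rpow_neg_one, ← Real.rpow_add ht0]
          norm_num
      _ ≤ C₀ * (tf r : ℝ) ^ (-(11 / 20) : ℝ) := by
          have : (tf r : ℝ) ^ (-(99 / 100) : ℝ) ≤ (tf r : ℝ) ^ (-(11 / 20) : ℝ) :=
            Real.rpow_le_rpow_of_exponent_le ht1 (by norm_num)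
          gcongr
      _ ≤ _ := by gcongr
  have h0 : 0 ≤ ∏ q ∈ UU r, xx η Q Y q := Finset.prod_nonneg fun q _ => xx_nonneg hη.le Y q
  have h00 : 0 ≤ (1 + Real.log (tf r) ^ 2) / tf r := by positivity
  rw [prod_UV r, h1, hrst]
  calc _ = (∏ q ∈ UU r, (16 * gt η Q q / q)) * ((1 + Real.log (tf r) ^ 2) / tf r) := by
        field_simp
    _ ≤ (∏ q ∈ UU r, xx η Q Y q) * (C₀ * ∏ q ∈ VV r, xx η Q Y q) := by gcongr
    _ = _ := by ring

/-- the weighted count -/
theorem count3 {B₀ C₀ η Q : ℝ} (hB2 : 2 ≤ B₀)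
    (hB : ∀ X H : ℝ, 0 ≤ X → B₀ ≤ H → (pic X H : ℝ) ≤ 6 * H / Real.log H)
    (hC₁ : 1 ≤ C₀) (hC₀ : ∀ t : ℝ, 1 ≤ t → (1 + Real.log t ^ 2) * (1 + Real.log t) ≤ C₀ * t ^ (1 / 100 : ℝ))
    (hQ : 1 ≤ Q) (hη : 0 < η) (hη1 : 32 * η * (1 + Real.log Q) ≤ 1) (hη2 : 1920 * η ≤ 1)
    {X H : ℝ} (hX : B₀ ^ 4 ≤ X) (hH1 : X ^ (3 / 5 : ℝ) ≤ H) (hH2 : H ≤ X) {Y τ : ℝ}
    (hτ : ∀ S : Finset ℕ, ∑ q ∈ S, xv Y q ≤ τ) (hτ1 : τ ≤ 1)
    {F : Finset ℕ} (hF : ∀ n ∈ F, Rg Y n ∧ (UU n).Nonempty ∧ (VV n).Nonempty ∧ X < n ∧ (n : ℝ) ≤ X + H) :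
    ∑ n ∈ F, WT η Q n ≤ 2000 * C₀ * (η * (1 + Real.log Q ^ 2) ^ 2 * τ) * H := by
  classical
  have hτ0 : 0 ≤ τ := by simpa using hτ ∅
  have hX1 : 16 ≤ X := by
    have : (2:ℝ) ^ 4 ≤ B₀ ^ 4 := pow_le_pow_left₀ (by norm_num) hB2 4
    norm_num at this
    linarith
  have hX0 : 0 < X := by linarith
  have hH12 : X ^ (1 / 2 : ℝ) ≤ H := by
    refine le_trans ?_ hH1
    exact Real.rpow_le_rpow_of_exponent_le (by linarith) (by norm_num)
  have hH0 : 1 ≤ H := le_trans (Real.one_le_rpow (by linarith) (by norm_num)) hH1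
  have hlX : 0 < Real.log X := Real.log_pos (by linarith)
  set Λ := 1 + Real.log Q ^ 2 with hΛ
  have hΛ1 : 1 ≤ Λ := by rw [hΛ]; nlinarith [sq_nonneg (Real.log Q)]
  have hdec : ∀ n ∈ F, ∃ P r : ℕ, P ∈ UU n ∧ (∀ q ∈ UU n, q ≤ P) ∧ n = r * P ∧ r ≠ 0 ∧ pp r = (pp n).erase P := by
    intro n hn
    obtain ⟨hr, hU, -, -, -⟩ := hF n hn
    obtain ⟨P, hP, hmax⟩ := Finset.exists_max_image (UU n) id hU
    obtain ⟨r, h1, h2, h3⟩ := pp_erase hr.1 hP
    exact ⟨P, r, hP, hmax, h1, h2, h3⟩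
  choose! Pf rf hPU hle hn hr0 hpr using hdec
  -- components of the cofactor
  have hUr : ∀ n ∈ F, UU (rf n) = (UU n).erase (Pf n) := by
    intro n hn'
    unfold UU
    rw [hpr n hn', Finset.filter_erase]
  have hVr : ∀ n ∈ F, VV (rf n) = VV n := by
    intro n hn'
    unfold VV
    rw [hpr n hn', Finset.filter_erase]
    apply Finset.erase_eq_of_notMem
    intro h
    exact (Finset.mem_filter.1 h).2 (UU_prime (hPU n hn'))
  have htr : ∀ n ∈ F, tf (rf n) = tf n := by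
    intro n hn'
    unfold tf
    rw [hVr n hn']
  have hRr : ∀ n ∈ F, Rg Y (rf n) := by
    intro n hn'
    refine ⟨hr0 n hn', fun q hq => ?_⟩
    rw [hpr n hn'] at hq
    exact (hF n hn').1.2 q (Finset.mem_of_mem_erase hq)
  rw [← Finset.sum_filter_add_sum_filter_not F (fun n => (rf n : ℝ) ≤ X ^ (1 / 4 : ℝ))]
  -- second case
  have hsec : ∑ n ∈ F with ¬ (rf n : ℝ) ≤ X ^ (1 / 4 : ℝ), WT η Q n ≤ 288 * C₀ * (η * Λ ^ 2 * τ) * H := by
    set F2 := F.filter (fun n => ¬ (rf n : ℝ) ≤ X ^ (1 / 4 : ℝ)) with hF2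
    rw [← Finset.sum_fiberwise_of_maps_to (g := tf) (t := F2.image tf) (fun n hn' => Finset.mem_image_of_mem tf hn')]
    have hfib : ∀ t ∈ F2.image tf, ∑ n ∈ F2 with tf n = t, WT η Q n ≤
        96 * C₀ * (η * Λ ^ 2) * H * (t : ℝ) ^ (-(11 / 20 : ℝ)) := by
      intro t ht
      rw [Finset.mem_image] at ht
      obtain ⟨n₀, hn₀, hn₀t⟩ := ht
      have hn₀F := (Finset.mem_filter.1 hn₀).1
      have ht0' : t ≠ 0 := hn₀t ▸ tf_ne (hF n₀ hn₀F).1.1
      have ht1 : (1:ℝ) ≤ t := by exact_mod_cast Nat.one_le_iff_ne_zero.2 ht0'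
      have ht0 : (0:ℝ) < t := by linarith
      have ht2 : (t : ℝ) ≤ 2 * X := by
        have h1 : tf n₀ ∣ n₀ := ⟨sf n₀, by rw [mul_comm]; exact (sf_mul_tf (hF n₀ hn₀F).1.1).symm⟩
        have h2 := Nat.le_of_dvd (Nat.pos_of_ne_zero (hF n₀ hn₀F).1.1) h1
        rw [hn₀t] at h2
        have h3 : (t : ℝ) ≤ n₀ := by exact_mod_cast h2
        have h4 := (hF n₀ hn₀F).2.2.2.2
        linarith
      have hc : ((F2.filter (fun n => tf n = t)).card : ℝ) ≤ H / t + 1 := by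
        apply card_mult hX0.le (by linarith) (Nat.pos_of_ne_zero ht0')
        intro n hn'
        rw [Finset.mem_filter, hF2, Finset.mem_filter] at hn'
        obtain ⟨hr, -, -, h4, h5⟩ := hF n hn'.1.1
        refine ⟨?_, h4, h5⟩
        rw [← hn'.2]
        exact ⟨sf n, by rw [mul_comm]; exact (sf_mul_tf hr.1).symm⟩
      have h7 : (1:ℝ) ≤ ((2 * X) / t) ^ (14 / 25 : ℝ) := by
        apply Real.one_le_rpow _ (by norm_num)
        rw [le_div_iff₀ ht0]; linarith
      have h8 : (t : ℝ) ^ (1 / 100 : ℝ) ≤ 2 * H * (t : ℝ) ^ (-(11 / 20 : ℝ)) := by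
        calc (t : ℝ) ^ (1 / 100 : ℝ) = (t : ℝ) ^ (1 / 100 : ℝ) * 1 := by ring
          _ ≤ (t : ℝ) ^ (1 / 100 : ℝ) * ((2 * X) / t) ^ (14 / 25 : ℝ) := by gcongr
          _ = (2 * X) ^ (14 / 25 : ℝ) * ((t : ℝ) ^ (1 / 100 : ℝ) * (t : ℝ) ^ (-(14 / 25 : ℝ))) := by
              rw [Real.div_rpow (by positivity) ht0.le, Real.rpow_neg ht0.le]; ring
          _ = (2 * X) ^ (14 / 25 : ℝ) * (t : ℝ) ^ (-(11 / 20 : ℝ)) := by
              rw [← Real.rpow_add ht0]; norm_num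
          _ ≤ 2 * H * (t : ℝ) ^ (-(11 / 20 : ℝ)) := by
              gcongr
              exact two_X_pow (by linarith) hH1
      have h9 : (t : ℝ) ^ (1 / 100 : ℝ) * (H / t) ≤ H * (t : ℝ) ^ (-(11 / 20 : ℝ)) := by
        calc (t : ℝ) ^ (1 / 100 : ℝ) * (H / t) = H * (t : ℝ) ^ (-(99 / 100) : ℝ) := by
              rw [div_eq_mul_inv H (t : ℝ), ← Real.rpow_neg_one (t : ℝ)]
              have : (t : ℝ) ^ (-(99 / 100) : ℝ) = (t : ℝ) ^ (1 / 100 : ℝ) * (t : ℝ) ^ (-1 : ℝ) := by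
                rw [← Real.rpow_add ht0]; norm_num
              rw [this]; ring
          _ ≤ _ := by
              have : (t : ℝ) ^ (-(99 / 100) : ℝ) ≤ (t : ℝ) ^ (-(11 / 20) : ℝ) :=
                Real.rpow_le_rpow_of_exponent_le ht1 (by norm_num)
              gcongr
      have hψ := hC₀ t ht1
      have hl : 0 ≤ Real.log t := Real.log_nonneg ht1
      calc _ ≤ ∑ n ∈ F2 with tf n = t, 32 * η * Λ ^ 2 * (C₀ * (t : ℝ) ^ (1 / 100 : ℝ)) := by
            apply Finset.sum_le_sum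
            intro n hn'
            rw [Finset.mem_filter, hF2, Finset.mem_filter] at hn'
            obtain ⟨hr, -, -, h4, h5⟩ := hF n hn'.1.1
            have h6 := WT_pt hQ hη hη1 (X := X) (by linarith) hr.1 (by linarith) (hPU n hn'.1.1) (hle n hn'.1.1)
              (hn n hn'.1.1) (hpr n hn'.1.1) (not_le.1 hn'.1.2)
            rw [hn'.2] at h6
            refine h6.trans ?_
            gcongr
        _ = ((F2.filter (fun n => tf n = t)).card : ℝ) * (32 * η * Λ ^ 2 * (C₀ * (t : ℝ) ^ (1 / 100 : ℝ))) := by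
            rw [Finset.sum_const, nsmul_eq_mul]
        _ ≤ (H / t + 1) * (32 * η * Λ ^ 2 * (C₀ * (t : ℝ) ^ (1 / 100 : ℝ))) := by gcongr
        _ = 32 * C₀ * (η * Λ ^ 2) * ((t : ℝ) ^ (1 / 100 : ℝ) * (H / t) + (t : ℝ) ^ (1 / 100 : ℝ)) := by ring
        _ ≤ 32 * C₀ * (η * Λ ^ 2) * (H * (t : ℝ) ^ (-(11 / 20 : ℝ)) + 2 * H * (t : ℝ) ^ (-(11 / 20 : ℝ))) := by
            gcongr
        _ = _ := by ring
    refine (Finset.sum_le_sum hfib).trans ?_
    rw [← Finset.mul_sum]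
    have hsx := sum_xv hτ hτ1 (F := F2.image tf) (by
      intro t ht
      rw [Finset.mem_image] at ht
      obtain ⟨n, hn', rfl⟩ := ht
      have hnF := (Finset.mem_filter.1 hn').1
      obtain ⟨hr, -, hV, -⟩ := hF n hnF
      have hUt : UU (tf n) = ∅ := by
        unfold UU
        rw [pp_tf]
        rw [Finset.filter_eq_empty_iff]
        intro q hq
        exact (Finset.mem_filter.1 hq).2
      refine ⟨⟨tf_ne hr.1, fun q hq => ?_⟩, hUt, ?_⟩
      · rw [pp_tf] at hq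
        exact hr.2 q (VV_sub n hq)
      · intro h
        have := pp_tf n
        rw [h, pp_one] at this
        rw [← this] at hV
        simp at hV)
    calc _ ≤ 96 * C₀ * (η * Λ ^ 2) * H * (3 * τ) := by gcongr
      _ = _ := by ring
  -- first case
  set F1 := F.filter (fun n => (rf n : ℝ) ≤ X ^ (1 / 4 : ℝ)) with hF1
  have hfst : ∑ n ∈ F1, WT η Q n ≤ 1536 * C₀ * (η * Λ * τ) * H := by
    rw [← Finset.sum_fiberwise_of_maps_to (g := rf) (t := F1.image rf) (fun n hn' => Finset.mem_image_of_mem rf hn')]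
    have hfib : ∀ r ∈ F1.image rf, ∑ n ∈ F1 with rf n = r, WT η Q n ≤
        192 * C₀ * (η * Λ) * H * ∏ q ∈ pp r, xx η Q Y q := by
      intro r hr
      rw [Finset.mem_image] at hr
      obtain ⟨n₀, hn₀, hrn⟩ := hr
      have hn₀F := (Finset.mem_filter.1 hn₀)
      have hRg : Rg Y r := hrn ▸ hRr n₀ hn₀F.1
      have hr0'' : 0 < r := Nat.pos_of_ne_zero hRg.1
      have hr0' : (0:ℝ) < r := by exact_mod_cast hr0''
      have hrX : (r : ℝ) ≤ X ^ (1 / 4 : ℝ) := hrn ▸ hn₀F.2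
      have hprod0 : 0 ≤ ∏ q ∈ UU r, (16 * gt η Q q) :=
        Finset.prod_nonneg fun q _ => by have := gt_nonneg (Q := Q) hη.le q; positivity
      have hcard2 : ((F1.filter (fun n => rf n = r)).card : ℝ) ≤ 24 * (H / r) / Real.log X := by
        have hinj : Set.InjOn Pf (F1.filter (fun n => rf n = r) : Set ℕ) := by
          intro a ha b hb hab
          rw [Finset.mem_coe, Finset.mem_filter, hF1, Finset.mem_filter] at ha hb
          have ea := hn a ha.1.1
          have eb := hn b hb.1.1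
          rw [ea, eb, ha.2, hb.2, hab]
        rw [← Finset.card_image_of_injOn hinj]
        apply case_one_fib hB2 hB hX hH12 hrX hr0''
        intro P hP'
        rw [Finset.mem_image] at hP'
        obtain ⟨n, hn', rfl⟩ := hP'
        rw [Finset.mem_filter, hF1, Finset.mem_filter] at hn'
        obtain ⟨-, -, -, d2, d3⟩ := hF n hn'.1.1
        have e := hn n hn'.1.1
        rw [hn'.2] at e
        have e' : (n : ℝ) = r * Pf n := by exact_mod_cast e
        rw [e'] at d2 d3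
        exact ⟨UU_prime (hPU n hn'.1.1), d2, d3⟩
      have hcw := cof_weight (Q := Q) hη hC₁ hC₀ hRg
      calc _ ≤ ∑ n ∈ F1 with rf n = r, 4 * η * Λ * (1 + Real.log (tf r) ^ 2) * (2 * Real.log X) *
            ∏ q ∈ UU r, (16 * gt η Q q) := by
            apply Finset.sum_le_sum
            intro n hn'
            rw [Finset.mem_filter, hF1, Finset.mem_filter] at hn'
            obtain ⟨hrg, -, -, d2, d3⟩ := hF n hn'.1.1
            have e := WT_le hQ hη hrg.1 (hPU n hn'.1.1) (hle n hn'.1.1)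
            rw [← hUr n hn'.1.1, ← htr n hn'.1.1, hn'.2] at e
            refine e.trans ?_
            have hlP : Real.log (Pf n) ≤ 2 * Real.log X := by
              have hP0 : (0:ℝ) < Pf n := by exact_mod_cast (UU_prime (hPU n hn'.1.1)).pos
              have hPn : (Pf n : ℝ) ≤ n := by
                have : Pf n ≤ n := by
                  conv_rhs => rw [hn n hn'.1.1]
                  exact Nat.le_mul_of_pos_left (Pf n) (Nat.pos_of_ne_zero (hr0 n hn'.1.1))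
                exact_mod_cast this
              calc Real.log (Pf n) ≤ Real.log (2 * X) := Real.log_le_log hP0 (by linarith)
                _ ≤ Real.log (X * X) := Real.log_le_log (by positivity) (by nlinarith)
                _ = _ := by rw [Real.log_mul hX0.ne' hX0.ne']; ring
            gcongr
        _ = (F1.filter (fun n => rf n = r)).card * (4 * η * Λ * (1 + Real.log (tf r) ^ 2) * (2 * Real.log X) *
            ∏ q ∈ UU r, (16 * gt η Q q)) := by
            rw [Finset.sum_const, nsmul_eq_mul]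
        _ ≤ (24 * (H / r) / Real.log X) * (4 * η * Λ * (1 + Real.log (tf r) ^ 2) * (2 * Real.log X) *
            ∏ q ∈ UU r, (16 * gt η Q q)) := by
            gcongr
        _ = 192 * (η * Λ) * H * ((1 + Real.log (tf r) ^ 2) * (∏ q ∈ UU r, (16 * gt η Q q)) / r) := by
            field_simp
            ring
        _ ≤ 192 * (η * Λ) * H * (C₀ * ∏ q ∈ pp r, xx η Q Y q) := by gcongr
        _ = _ := by ring
    have hexp : ∑ r ∈ F1.image rf, ∏ q ∈ pp r, xx η Q Y q ≤ τ * Real.exp (1920 * η + τ) := by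
      refine le_trans (Finset.sum_le_sum (g := fun r => gg (xv Y) (xx η Q Y) (pp r)) ?_)
        (sum_gg_pp (fun r hr => ?_) (xv_nonneg Y) (xx_nonneg hη.le Y) hτ (sum_xx hη.le hτ))
      · intro r hr
        rw [Finset.mem_image] at hr
        obtain ⟨n₀, hn₀, hrn⟩ := hr
        have hn₀F := (Finset.mem_filter.1 hn₀).1
        obtain ⟨q, hq⟩ := (hF n₀ hn₀F).2.2.1
        have hq' : q ∈ VV r := by rw [← hrn, hVr n₀ hn₀F]; exact hq
        apply prod_le_gg (xx_nonneg hη.le Y) (xv_nonneg Y) (VV_sub r hq')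
        unfold xx
        rw [if_neg (PK_not_prime (VV_PK hq')), zero_add]
      · rw [Finset.mem_image] at hr
        obtain ⟨n₀, hn₀, hrn⟩ := hr
        exact hrn ▸ hr0 n₀ (Finset.mem_filter.1 hn₀).1
    have hexp2 : Real.exp (1920 * η + τ) ≤ 8 := by
      have h3 : Real.exp (1920 * η + τ) ≤ Real.exp 1 * Real.exp 1 := by
        rw [← Real.exp_add]
        exact Real.exp_le_exp.2 (by linarith)
      have := Real.exp_one_lt_d9
      have h4 := Real.exp_pos 1
      nlinarith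
    calc _ ≤ ∑ r ∈ F1.image rf, 192 * C₀ * (η * Λ) * H * ∏ q ∈ pp r, xx η Q Y q := Finset.sum_le_sum hfib
      _ = 192 * C₀ * (η * Λ) * H * ∑ r ∈ F1.image rf, ∏ q ∈ pp r, xx η Q Y q := by rw [Finset.mul_sum]
      _ ≤ 192 * C₀ * (η * Λ) * H * (τ * 8) := by
          gcongr
          exact hexp.trans (by gcongr)
      _ = _ := by ring
  have h10 : 1536 * C₀ * (η * Λ * τ) * H ≤ 1536 * C₀ * (η * Λ ^ 2 * τ) * H := by
    have : Λ ≤ Λ ^ 2 := by nlinarith
    gcongr
  have h11 : 0 ≤ C₀ * (η * Λ ^ 2 * τ) * H := by positivity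
  nlinarith [hfst, hsec]

end Pool.Agent.H616.SP
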