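import Pool.Agent.H483.SA.Map
import Pool.Agent.H616.SP.Dat

set_option autoImplicit false

/-!
# The nonlinear functional for Euler products with a general local factor
-/

namespace Pool.Agent.H616.SP

open Filter Topology Set Complex
open Pool.Agent.H483.FE Pool.Agent.H483.SA
open scoped ComplexConjugate

/-- a local factor `∑ c a k X^k` depending on the linear coefficient `a` -/
structure Loc (c : ℂ → ℕ → ℂ) (A : ℝ) : Prop where
  one_le : 1 ≤ A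
  zero : ∀ a, c a 0 = 1
  one : ∀ a, c a 1 = a
  two : c 0 2 = 0
  bd : ∀ a, ‖a‖ ≤ 1 → ∀ k, ‖c a k‖ ≤ A ^ k
  lip : ∀ a b, ‖a‖ ≤ 1 → ‖b‖ ≤ 1 → ∀ k, ‖c a k - c b k‖ ≤ A ^ k * ‖a - b‖

/-- the exponent of a prime power -/
def ex (q : ℕ) : ℕ := q.factorization q.minFac

lemma ex_pow {p k : ℕ} (hp : p.Prime) (hk : k ≠ 0) : ex (p ^ k) = k := by
  unfold ex
  rw [hp.pow_minFac hk, hp.factorization_pow]
  simp

lemma minFac_pow {p k : ℕ} (hp : p.Prime) (hk : k ≠ 0) : (p ^ k).minFac = p := hp.pow_minFac hk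

/-- the coefficient at a prime power -/
noncomputable def rho (c : ℂ → ℕ → ℂ) (Q y0 : ℝ) (a : ℕ → ℂ) (q : ℕ) : ℂ :=
  open Classical in if PK 1 q ∧ Big Q y0 q.minFac then c (a q.minFac) (ex q) else 0

/-- the multiplicative coefficients -/
noncomputable def mf (c : ℂ → ℕ → ℂ) (Q y0 : ℝ) (a : ℕ → ℂ) (n : ℕ) : ℂ :=
  if n = 0 then 0 else ∏ q ∈ pp n, rho c Q y0 a q

lemma mf_zero (c : ℂ → ℕ → ℂ) (Q y0 : ℝ) (a : ℕ → ℂ) : mf c Q y0 a 0 = 0 := by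
  unfold mf; rw [if_pos rfl]

lemma mf_one (c : ℂ → ℕ → ℂ) (Q y0 : ℝ) (a : ℕ → ℂ) : mf c Q y0 a 1 = 1 := by
  unfold mf; rw [if_neg one_ne_zero, pp_one]; simp

lemma mf_ne {c : ℂ → ℕ → ℂ} {Q y0 : ℝ} {a : ℕ → ℂ} {n : ℕ} (hn : n ≠ 0) :
    mf c Q y0 a n = ∏ q ∈ pp n, rho c Q y0 a q := by
  unfold mf; rw [if_neg hn]

lemma mf_not_Rg {c : ℂ → ℕ → ℂ} {Q y0 : ℝ} {a : ℕ → ℂ} {n : ℕ} (hn : ¬ Rg (Q * Real.exp y0) n) :
    mf c Q y0 a n = 0 := by
  by_cases h0 : n = 0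
  · rw [h0, mf_zero]
  · rw [mf_ne h0]
    have h1 : ∃ q ∈ pp n, ¬ (Q * Real.exp y0 < q.minFac) := by
      by_contra hcon
      push Not at hcon
      exact hn ⟨h0, hcon⟩
    obtain ⟨q, hq, hq'⟩ := h1
    refine Finset.prod_eq_zero hq ?_
    unfold rho
    rw [if_neg]
    rintro ⟨-, hb⟩
    exact hq' hb.2

/-- not `0`, `1` or a prime -/
def Cn (n : ℕ) : Prop := n ≠ 0 ∧ n ≠ 1 ∧ ¬ n.Prime

/-- the composite part of the coefficients -/
noncomputable def cc2 (c : ℂ → ℕ → ℂ) (Q y0 : ℝ) (a : ℕ → ℂ) (n : ℕ) : ℂ :=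
  open Classical in if Cn n then mf c Q y0 a n else 0

/-- weights at the higher prime powers -/
noncomputable def yy (A α Y : ℝ) (d : ℕ → ℝ) (q : ℕ) : ℝ :=
  open Classical in if PK 2 q ∧ Y < q.minFac then 2 * A ^ (2 * ex q) * d q.minFac * (q : ℝ) ^ (-(2 * α)) else 0

/-- weights at the higher prime powers with exponent at least three -/
noncomputable def z3 (A α Y : ℝ) (q : ℕ) : ℝ :=
  open Classical in if PK 3 q ∧ Y < q.minFac then 2 * A ^ (2 * ex q) * (q : ℝ) ^ (-(2 * α)) else 0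

lemma yy_nonneg {A α Y : ℝ} (hA : 0 ≤ A) {d : ℕ → ℝ} (hd : ∀ p, 0 ≤ d p) (q : ℕ) : 0 ≤ yy A α Y d q := by
  unfold yy
  split_ifs
  · have := hd q.minFac
    positivity
  · exact le_rfl

lemma z3_nonneg {A α Y : ℝ} (hA : 0 ≤ A) (q : ℕ) : 0 ≤ z3 A α Y q := by
  unfold z3
  split_ifs
  · positivity
  · exact le_rfl

/-- sums over prime powers through the pair (prime, exponent) -/
lemma sum_pair {S : Finset ℕ} (hS : ∀ q ∈ S, PK 2 q) {f g : ℕ → ℝ} (hf : ∀ n, 0 ≤ f n) (hg : ∀ n, 0 ≤ g n) {B : ℝ}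
    (hfB : ∀ T : Finset ℕ, ∑ p ∈ T, f p ≤ B) {G : ℝ} (hgG : ∀ T : Finset ℕ, ∑ p ∈ T, g p ≤ G) :
    ∑ q ∈ S, f q.minFac * g (ex q) ≤ B * G := by
  classical
  have hinj : Set.InjOn (fun q : ℕ => (q.minFac, ex q)) (S : Set ℕ) := by
    intro x hx y hy hxy
    obtain ⟨p, k, hp, hk, rfl⟩ := hS x hx
    obtain ⟨p', k', hp', hk', rfl⟩ := hS y hy
    simp only [Prod.mk.injEq] at hxy
    rw [minFac_pow hp (by omega), minFac_pow hp' (by omega), ex_pow hp (by omega), ex_pow hp' (by omega)] at hxy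
    rw [hxy.1, hxy.2]
  have hB0 : 0 ≤ B := (Finset.sum_nonneg fun p _ => hf p).trans (hfB ∅)
  calc ∑ q ∈ S, f q.minFac * g (ex q) = ∑ x ∈ S.image (fun q : ℕ => (q.minFac, ex q)), f x.1 * g x.2 := by
        rw [Finset.sum_image hinj]
    _ ≤ ∑ x ∈ (S.image Nat.minFac) ×ˢ (S.image ex), f x.1 * g x.2 := by
        apply Finset.sum_le_sum_of_subset_of_nonneg
        · intro x hx
          rw [Finset.mem_image] at hx
          obtain ⟨q, hq, rfl⟩ := hx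
          exact Finset.mem_product.2 ⟨Finset.mem_image_of_mem _ hq, Finset.mem_image_of_mem _ hq⟩
        · intro x _ _
          exact mul_nonneg (hf _) (hg _)
    _ = (∑ p ∈ S.image Nat.minFac, f p) * ∑ k ∈ S.image ex, g k := by
        rw [Finset.sum_product, Finset.sum_mul_sum]
    _ ≤ B * G := mul_le_mul (hfB _) (hgG _) (Finset.sum_nonneg fun p _ => hg p) hB0

lemma sum_half (T : Finset ℕ) : ∑ k ∈ T, (1 / 2 : ℝ) ^ k ≤ 2 := by
  have h := summable_geometric_two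
  have h1 := h.sum_le_tsum T (fun k _ => by positivity)
  rwa [tsum_geometric_two] at h1

/-- the sum of `yy` -/
lemma sum_yy {A α Y : ℝ} (hA : 1 ≤ A) (hα : 0 < α) (hY : 1 ≤ Y) (hc1 : 16 * A ^ 4 * Y ^ (-(2 * α)) ≤ 1)
    {d : ℕ → ℝ} (hd : ∀ p, 0 ≤ d p) {B : ℝ} (hB : ∀ T : Finset ℕ, ∑ p ∈ T, d p * (p : ℝ) ^ (-(2 * α)) ≤ B)
    (S : Finset ℕ) : ∑ q ∈ S, yy A α Y d q ≤ 16 * A ^ 4 * Y ^ (-(2 * α)) * B := by
  classical
  have hY0 : 0 < Y := by linarith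
  have hA2 : A ^ 2 * Y ^ (-(2 * α)) ≤ 1 / 2 := by
    have h1 : A ^ 2 ≤ A ^ 4 := pow_le_pow_right₀ hA (by norm_num)
    have h2 : 0 ≤ Y ^ (-(2 * α)) := by positivity
    nlinarith [mul_le_mul_of_nonneg_right h1 h2]
  have h1 : ∑ q ∈ S, yy A α Y d q = ∑ q ∈ S with PK 2 q ∧ Y < q.minFac,
      2 * A ^ (2 * ex q) * d q.minFac * (q : ℝ) ^ (-(2 * α)) := by
    rw [Finset.sum_filter]
    apply Finset.sum_congr rfl
    intro q _
    unfold yy
    split_ifs <;> rfl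
  rw [h1]
  have h2 : ∀ q ∈ S.filter (fun q => PK 2 q ∧ Y < q.minFac),
      2 * A ^ (2 * ex q) * d q.minFac * (q : ℝ) ^ (-(2 * α)) ≤
        (8 * A ^ 4 * Y ^ (-(2 * α))) * ((d q.minFac * ((q.minFac : ℕ) : ℝ) ^ (-(2 * α))) * (1 / 2) ^ (ex q)) := by
    intro q hq
    obtain ⟨⟨p, k, hp, hk, rfl⟩, hYq⟩ := (Finset.mem_filter.1 hq).2
    rw [minFac_pow hp (by omega)] at hYq ⊢
    rw [ex_pow hp (by omega)]
    have hp0 : (0:ℝ) < p := by exact_mod_cast hp.pos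
    obtain ⟨j, rfl⟩ : ∃ j, k = j + 2 := ⟨k - 2, by omega⟩
    set w := (p : ℝ) ^ (-(2 * α)) with hw
    have hw0 : 0 ≤ w := by positivity
    have hwY : w ≤ Y ^ (-(2 * α)) := Real.rpow_le_rpow_of_nonpos hY0 hYq.le (by linarith)
    have e1 : (((p ^ (j + 2) : ℕ)) : ℝ) ^ (-(2 * α)) = w ^ (j + 2) := by
      rw [hw, ← Real.rpow_natCast, ← Real.rpow_mul hp0.le]
      push_cast
      rw [← Real.rpow_natCast, ← Real.rpow_mul hp0.le]
      congr 1
      push_cast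
      ring
    rw [e1]
    have h3 : A ^ 2 * w ≤ 1 / 2 := (mul_le_mul_of_nonneg_left hwY (by positivity)).trans hA2
    have hdp := hd p
    calc 2 * A ^ (2 * (j + 2)) * d p * w ^ (j + 2) = 2 * A ^ 4 * w * (A ^ 2 * w) ^ j * (d p * w) := by ring
      _ ≤ 2 * A ^ 4 * Y ^ (-(2 * α)) * (1 / 2) ^ j * (d p * w) := by gcongr
      _ = _ := by ring
  refine (Finset.sum_le_sum h2).trans ?_
  rw [← Finset.mul_sum]
  have h4 := sum_pair (S := S.filter (fun q => PK 2 q ∧ Y < q.minFac)) (fun q hq => (Finset.mem_filter.1 hq).2.1)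
    (f := fun p => d p * (p : ℝ) ^ (-(2 * α))) (g := fun k => (1 / 2 : ℝ) ^ k)
    (fun n => mul_nonneg (hd n) (by positivity)) (fun n => by positivity) hB sum_half
  calc _ ≤ (8 * A ^ 4 * Y ^ (-(2 * α))) * (B * 2) := by gcongr
    _ = _ := by ring

lemma ww_div_MM' {α y0 Q : ℝ} (hα : 0 < α) (hQ : 1 ≤ Q) (q : ℕ) :
    ww α y0 Q q / MM Q q * (q : ℝ) ^ (-(2 * α)) ≤ (1 + Real.log Q) * Q ^ (-(1 + 2 * α)) := by
  have hQ0 : 0 < Q := by linarith
  have hL : 0 ≤ Real.log Q := Real.log_nonneg hQ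
  unfold ww
  split_ifs with hb
  · have hq0 : (0:ℝ) < q := by exact_mod_cast hb.1.pos
    have hM := MM_pos Q q
    have h1 : Real.log q ≤ (1 + Real.log Q) * MM Q q := by
      set u := Real.log q - Real.log Q with hu
      unfold MM
      have : Real.log q = u + Real.log Q := by rw [hu]; ring
      rw [this]
      nlinarith [sq_nonneg (u - 1), mul_nonneg hL (sq_nonneg u)]
    have h2 : ((q : ℝ) / Q) ^ (2 * α) * (q : ℝ) ^ (-(2 * α)) = (Q ^ (2 * α))⁻¹ := by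
      rw [Real.div_rpow hq0.le hQ0.le, Real.rpow_neg hq0.le]
      have := (Real.rpow_pos_of_pos hq0 (2 * α)).ne'
      field_simp
    have e2 : Q ^ (-(1 + 2 * α)) = Q⁻¹ * (Q ^ (2 * α))⁻¹ := by
      rw [neg_add, Real.rpow_add hQ0, Real.rpow_neg_one, Real.rpow_neg hQ0.le]
    calc _ = Real.log q / MM Q q * (Q⁻¹ * (((q : ℝ) / Q) ^ (2 * α) * (q : ℝ) ^ (-(2 * α)))) := by
          field_simp
      _ = Real.log q / MM Q q * Q ^ (-(1 + 2 * α)) := by rw [h2, e2]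
      _ ≤ _ := by
          gcongr
          rw [div_le_iff₀ hM]; exact h1
  · simp
    positivity

end Pool.Agent.H616.SP
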