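import Pool.Agent.H616.SP.Map

set_option autoImplicit false

/-!
# Local factors which are inverses of polynomials
-/

namespace Pool.Agent.H616.SP

open Polynomial

/-- a family of polynomials with linear coefficient `-a` -/
structure PF (P : ℂ → ℂ[X]) (M : ℝ) : Prop where
  one_le : 1 ≤ M
  c0 : ∀ a, (P a).coeff 0 = 1
  c1 : ∀ a, (P a).coeff 1 = -a
  c2 : (P 0).coeff 2 = 0
  bd : ∀ a, ‖a‖ ≤ 1 → ∀ i, ‖(P a).coeff i‖ ≤ M
  lip : ∀ a b, ‖a‖ ≤ 1 → ‖b‖ ≤ 1 → ∀ i, ‖(P a).coeff i - (P b).coeff i‖ ≤ M * ‖a - b‖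

/-- the coefficients of the inverse -/
noncomputable def cof (P : ℂ → ℂ[X]) (a : ℂ) (k : ℕ) : ℂ := PowerSeries.coeff k ((P a : PowerSeries ℂ)⁻¹)

lemma cof_mul {P : ℂ → ℂ[X]} {a : ℂ} (h : (P a).coeff 0 = 1) :
    PowerSeries.mk (cof P a) * (P a : PowerSeries ℂ) = 1 := by
  have h1 : PowerSeries.mk (cof P a) = (P a : PowerSeries ℂ)⁻¹ := by
    ext k
    rw [PowerSeries.coeff_mk]
    rfl
  rw [h1]
  apply PowerSeries.inv_mul_cancel
  have : PowerSeries.constantCoeff (P a : PowerSeries ℂ) = (P a).coeff 0 := by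
    rw [← PowerSeries.coeff_zero_eq_constantCoeff_apply, Polynomial.coeff_coe]
  rw [this, h]
  exact one_ne_zero

lemma cof_zero {P : ℂ → ℂ[X]} {a : ℂ} (h : (P a).coeff 0 = 1) : cof P a 0 = 1 := by
  have h1 := congrArg (PowerSeries.coeff 0) (cof_mul h)
  rw [PowerSeries.coeff_mul] at h1
  simp [h] at h1
  exact h1

/-- the recursion -/
lemma cof_rec {P : ℂ → ℂ[X]} {a : ℂ} (h : (P a).coeff 0 = 1) {k : ℕ} (hk : 1 ≤ k) :
    cof P a k = -∑ i ∈ Finset.range k, (P a).coeff (k - i) * cof P a i := by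
  have h1 := congrArg (PowerSeries.coeff k) (cof_mul h)
  rw [PowerSeries.coeff_mul, Finset.Nat.sum_antidiagonal_eq_sum_range_succ_mk, Finset.sum_range_succ] at h1
  simp only [PowerSeries.coeff_mk, Polynomial.coeff_coe, Nat.sub_self, h, mul_one] at h1
  rw [PowerSeries.coeff_one, if_neg (by omega)] at h1
  have h2 : ∑ i ∈ Finset.range k, (P a).coeff (k - i) * cof P a i =
      ∑ i ∈ Finset.range k, cof P a i * (P a).coeff (k - i) :=
    Finset.sum_congr rfl fun i _ => mul_comm _ _
  rw [h2]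
  linear_combination h1

lemma geom_bd {x : ℝ} (hx : 0 ≤ x) (k : ℕ) : x * ∑ i ∈ Finset.range k, (1 + x) ^ i = (1 + x) ^ k - 1 := by
  have := geom_sum_mul (1 + x) k
  rw [add_sub_cancel_left] at this
  rw [mul_comm]; exact this

lemma cof_bd {P : ℂ → ℂ[X]} {M : ℝ} (h : PF P M) {a : ℂ} (ha : ‖a‖ ≤ 1) (k : ℕ) : ‖cof P a k‖ ≤ (1 + M) ^ k := by
  have hM := h.one_le
  induction k using Nat.strong_induction_on with
  | _ k ih =>
    rcases Nat.eq_zero_or_pos k with rfl | hk
    · rw [cof_zero (h.c0 a)]; simp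
    · rw [cof_rec (h.c0 a) hk, norm_neg]
      refine (norm_sum_le _ _).trans ?_
      calc ∑ i ∈ Finset.range k, ‖(P a).coeff (k - i) * cof P a i‖ ≤ ∑ i ∈ Finset.range k, M * (1 + M) ^ i := by
            apply Finset.sum_le_sum
            intro i hi
            rw [norm_mul]
            have h1 := h.bd a ha (k - i)
            have h2 := ih i (Finset.mem_range.1 hi)
            gcongr
        _ = (1 + M) ^ k - 1 := by rw [← Finset.mul_sum, geom_bd (by linarith)]
        _ ≤ _ := by linarith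

lemma cof_lip {P : ℂ → ℂ[X]} {M : ℝ} (h : PF P M) {a b : ℂ} (ha : ‖a‖ ≤ 1) (hb : ‖b‖ ≤ 1) (k : ℕ) :
    ‖cof P a k - cof P b k‖ ≤ (2 + 2 * M) ^ k * ‖a - b‖ := by
  have hM := h.one_le
  set D := ‖a - b‖ with hD
  have hD0 : 0 ≤ D := norm_nonneg _
  induction k using Nat.strong_induction_on with
  | _ k ih =>
    rcases Nat.eq_zero_or_pos k with rfl | hk
    · rw [cof_zero (h.c0 a), cof_zero (h.c0 b)]; simpa using hD0
    · rw [cof_rec (h.c0 a) hk, cof_rec (h.c0 b) hk]
      have e : -∑ i ∈ Finset.range k, (P a).coeff (k - i) * cof P a i -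
          -∑ i ∈ Finset.range k, (P b).coeff (k - i) * cof P b i =
          -∑ i ∈ Finset.range k, (((P a).coeff (k - i) - (P b).coeff (k - i)) * cof P a i +
            (P b).coeff (k - i) * (cof P a i - cof P b i)) := by
        rw [← Finset.sum_neg_distrib, ← Finset.sum_neg_distrib, ← Finset.sum_sub_distrib, ← Finset.sum_neg_distrib]
        apply Finset.sum_congr rfl
        intro i _
        ring
      rw [e, norm_neg]
      refine (norm_sum_le _ _).trans ?_
      have h1 : ∑ i ∈ Finset.range k, ‖((P a).coeff (k - i) - (P b).coeff (k - i)) * cof P a i +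
            (P b).coeff (k - i) * (cof P a i - cof P b i)‖ ≤
          ∑ i ∈ Finset.range k, (M * D * (1 + M) ^ i + M * ((2 + 2 * M) ^ i * D)) := by
        apply Finset.sum_le_sum
        intro i hi
        refine (norm_add_le _ _).trans ?_
        rw [norm_mul, norm_mul]
        have h1 := h.lip a b ha hb (k - i)
        have h2 := ih i (Finset.mem_range.1 hi)
        have h3 := cof_bd h ha i
        have h4 := h.bd b hb (k - i)
        gcongr
      refine h1.trans ?_
      rw [Finset.sum_add_distrib, ← Finset.mul_sum, ← Finset.mul_sum, ← Finset.sum_mul]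
      have g1 := geom_bd (x := M) (by linarith) k
      have g2 := geom_bd (x := 1 + 2 * M) (by linarith) k
      have e2 : (1 + (1 + 2 * M)) = 2 + 2 * M := by ring
      rw [e2] at g2
      set S1 := ∑ i ∈ Finset.range k, (1 + M) ^ i with hS1
      set S2 := ∑ i ∈ Finset.range k, (2 + 2 * M) ^ i with hS2
      have hS2' : M * S2 ≤ 1 / 2 * ((2 + 2 * M) ^ k) := by
        have h5 : M * S2 ≤ 1 / 2 * ((1 + 2 * M) * S2) := by
          have : 0 ≤ S2 := Finset.sum_nonneg fun i _ => by positivity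
          nlinarith
        rw [g2] at h5
        linarith
      have h6 : (1 + M) ^ k ≤ 1 / 2 * (2 + 2 * M) ^ k := by
        obtain ⟨j, rfl⟩ : ∃ j, k = j + 1 := ⟨k - 1, by omega⟩
        have h7 : (1 + M) ^ j ≤ (2 + 2 * M) ^ j := by gcongr <;> linarith
        rw [pow_succ, pow_succ]
        nlinarith
      calc M * D * S1 + M * (S2 * D) = D * (M * S1 + M * S2) := by ring
        _ ≤ D * (((1 + M) ^ k - 1) + 1 / 2 * ((2 + 2 * M) ^ k)) := by rw [g1]; gcongr
        _ ≤ D * ((1 / 2 * (2 + 2 * M) ^ k) + 1 / 2 * ((2 + 2 * M) ^ k)) := by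
            gcongr
            linarith
        _ = _ := by ring

/-- the local factor of a polynomial family -/
lemma PF.loc {P : ℂ → ℂ[X]} {M : ℝ} (h : PF P M) : Loc (cof P) (2 + 2 * M) := by
  have hM := h.one_le
  have h1 : ∀ a, cof P a 1 = a := by
    intro a
    rw [cof_rec (h.c0 a) le_rfl, Finset.sum_range_one, Nat.sub_zero, h.c1, cof_zero (h.c0 a)]
    ring
  refine ⟨by linarith, fun a => cof_zero (h.c0 a), h1, ?_, fun a ha k => ?_, fun a b ha hb k => cof_lip h ha hb k⟩
  · rw [cof_rec (h.c0 0) (by norm_num : 1 ≤ 2), Finset.sum_range_succ, Finset.sum_range_one, h1]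
    simp [h.c2]
  · refine (cof_bd h ha k).trans ?_
    gcongr <;> linarith

/-- the simplest family: `1 - a X` -/
lemma PF_lin : PF (fun a => 1 - C a * X) 1 := by
  have hco : ∀ (a : ℂ) (i : ℕ), (1 - C a * X : ℂ[X]).coeff i = if i = 0 then 1 else if i = 1 then -a else 0 := by
    intro a i
    rw [coeff_sub, coeff_one, coeff_C_mul, coeff_X]
    rcases i with _ | _ | i <;> simp
  refine ⟨le_rfl, fun a => by rw [hco]; simp, fun a => by rw [hco]; simp, by rw [hco]; simp, ?_, ?_⟩
  · intro a ha i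
    rw [hco]
    split_ifs <;> simp [ha]
  · intro a b _ _ i
    rw [hco, hco]
    split_ifs
    · simp
    · rw [one_mul, neg_sub_neg, norm_sub_rev]
    · simp

/-- the self-inversive cubic -/
noncomputable def cub (a : ℂ) : ℂ[X] := 1 - C a * X + C (starRingEnd ℂ a) * X ^ 2 - X ^ 3

lemma cub_coeff (a : ℂ) (i : ℕ) : (cub a).coeff i =
    if i = 0 then 1 else if i = 1 then -a else if i = 2 then starRingEnd ℂ a else if i = 3 then -1 else 0 := by
  unfold cub
  rw [coeff_sub, coeff_add, coeff_sub, coeff_one, coeff_C_mul, coeff_X, coeff_C_mul, coeff_X_pow, coeff_X_pow]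
  rcases i with _ | _ | _ | _ | i <;> simp

/-- the family of rank `l + 3` -/
noncomputable def uni (l : ℕ) (a : ℂ) : ℂ[X] := cub a * (1 - X ^ l)

lemma uni_coeff (l : ℕ) (a : ℂ) (i : ℕ) : (uni l a).coeff i = (cub a).coeff i - if l ≤ i then (cub a).coeff (i - l) else 0 := by
  unfold uni
  rw [mul_sub, mul_one, coeff_sub, coeff_mul_X_pow']

lemma PF_uni {l : ℕ} (hl : 3 ≤ l) : PF (uni l) 2 := by
  have hb : ∀ a : ℂ, ‖a‖ ≤ 1 → ∀ i, ‖(cub a).coeff i‖ ≤ 1 := by
    intro a ha i
    rw [cub_coeff]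
    split_ifs <;> simp [ha]
  have hL : ∀ a b : ℂ, ∀ i, ‖(cub a).coeff i - (cub b).coeff i‖ ≤ ‖a - b‖ := by
    intro a b i
    rw [cub_coeff, cub_coeff]
    split_ifs
    · simp
    · rw [neg_sub_neg, norm_sub_rev]
    · rw [← map_sub, Complex.norm_conj]
    · simp
    · simp
  refine ⟨by norm_num, fun a => ?_, fun a => ?_, ?_, ?_, ?_⟩
  · rw [uni_coeff, if_neg (by omega), cub_coeff]; simp
  · rw [uni_coeff, if_neg (by omega), cub_coeff]; simp
  · rw [uni_coeff, if_neg (by omega), cub_coeff]; simp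
  · intro a ha i
    rw [uni_coeff]
    refine (norm_sub_le _ _).trans ?_
    have h1 := hb a ha i
    have h2 := hb a ha (i - l)
    split_ifs
    · linarith
    · rw [norm_zero]; linarith
  · intro a b _ _ i
    rw [uni_coeff, uni_coeff]
    have h1 := hL a b i
    have h2 := hL a b (i - l)
    have h3 : 0 ≤ ‖a - b‖ := norm_nonneg _
    split_ifs
    · have e : (cub a).coeff i - (cub a).coeff (i - l) - ((cub b).coeff i - (cub b).coeff (i - l)) =
          ((cub a).coeff i - (cub b).coeff i) - ((cub a).coeff (i - l) - (cub b).coeff (i - l)) := by ring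
      rw [e]
      refine (norm_sub_le _ _).trans ?_
      linarith
    · rw [sub_zero, sub_zero]; linarith

end Pool.Agent.H616.SP
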