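import Pool.Agent.H616.SP.Poly

set_option autoImplicit false

/-!
# Unimodular roots
-/

namespace Pool.Agent.H616.SP

open Polynomial

/-- the roots of the self-inversive cubic are unimodular -/
lemma cub_root_norm {a z : ℂ} (ha : ‖a‖ ≤ 1) (hz : z ^ 3 - a * z ^ 2 + starRingEnd ℂ a * z - 1 = 0) : ‖z‖ = 1 := by
  by_contra hne
  set w := starRingEnd ℂ z with hw
  have hconj : w ^ 3 - starRingEnd ℂ a * w ^ 2 + a * w - 1 = 0 := by
    have := congrArg (starRingEnd ℂ) hz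
    simp only [map_sub, map_add, map_mul, map_pow, Complex.conj_conj, map_one, map_zero] at this
    exact this
  have hzw : z * w = ((‖z‖ ^ 2 : ℝ) : ℂ) := by rw [hw, Complex.mul_conj, Complex.normSq_eq_norm_sq]
  have hkey : (z * w - 1) * (z * w * a - w ^ 2 - z * (z * w + 1)) = 0 := by
    linear_combination (-(w ^ 2)) * hz - z * hconj
  have hz0 : z ≠ 0 := by
    rintro rfl
    simp at hz
  set r := ‖z‖ with hr
  have hr0 : 0 < r := norm_pos_iff.2 hz0
  have h1 : z * w - 1 ≠ 0 := by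
    rw [hzw]
    intro h
    have h2 : ((r ^ 2 - 1 : ℝ) : ℂ) = 0 := by push_cast; push_cast at h; exact h
    have h3 : r ^ 2 - 1 = 0 := by exact_mod_cast h2
    apply hne
    nlinarith
  have h2 := (mul_eq_zero.1 hkey).resolve_left h1
  rw [hzw] at h2
  have h3 : ((r ^ 2 : ℝ) : ℂ) * a = w ^ 2 + z * (((r ^ 2 : ℝ) : ℂ) + 1) := by linear_combination h2
  have hwn : ‖w‖ = r := by rw [hw, Complex.norm_conj]
  have h4 : ‖z * (((r ^ 2 : ℝ) : ℂ) + 1)‖ = r * (r ^ 2 + 1) := by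
    have e : (((r ^ 2 : ℝ) : ℂ) + 1) = ((r ^ 2 + 1 : ℝ) : ℂ) := by push_cast; ring
    rw [norm_mul, e, Complex.norm_real, Real.norm_of_nonneg (by positivity)]
  have h5 : r * (r ^ 2 + 1) ≤ r ^ 2 * ‖a‖ + r ^ 2 := by
    have e1 : z * (((r ^ 2 : ℝ) : ℂ) + 1) = ((r ^ 2 : ℝ) : ℂ) * a - w ^ 2 := by rw [h3]; ring
    have h6 := norm_sub_le (((r ^ 2 : ℝ) : ℂ) * a) (w ^ 2)
    rw [← e1, h4, norm_mul, Complex.norm_real, Real.norm_of_nonneg (by positivity), norm_pow, hwn] at h6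
    exact h6
  have h6 : r * (r - 1) ^ 2 ≤ 0 := by nlinarith
  have h7 : 0 < (r - 1) ^ 2 := by
    have : r - 1 ≠ 0 := sub_ne_zero.2 hne
    positivity
  nlinarith [mul_pos hr0 h7]

/-- square roots -/
lemma exists_sq (d : ℂ) : ∃ s : ℂ, s ^ 2 = d := IsAlgClosed.exists_pow_nat_eq d (by norm_num)

/-- the factorisation of the cubic -/
lemma cub_roots {a : ℂ} (ha : ‖a‖ ≤ 1) : ∃ α β γ : ℂ, ‖α‖ = 1 ∧ ‖β‖ = 1 ∧ ‖γ‖ = 1 ∧
    cub a = (1 - C α * X) * (1 - C β * X) * (1 - C γ * X) := by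
  obtain ⟨α, hα⟩ : ∃ z : ℂ, z ^ 3 - a * z ^ 2 + starRingEnd ℂ a * z - 1 = 0 := by
    have hdeg : (X ^ 3 - C a * X ^ 2 + C (starRingEnd ℂ a) * X - 1 : ℂ[X]).degree ≠ 0 := by
      have : (X ^ 3 - C a * X ^ 2 + C (starRingEnd ℂ a) * X - 1 : ℂ[X]).degree = 3 := by compute_degree!
      rw [this]; norm_num
    obtain ⟨z, hz⟩ := IsAlgClosed.exists_root _ hdeg
    refine ⟨z, ?_⟩
    simpa [IsRoot] using hz
  have hα0 : α ≠ 0 := by
    rintro rfl
    simp at hα
  obtain ⟨s, hs⟩ := exists_sq ((α - a) ^ 2 - 4 * α⁻¹)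
  set β := (-(α - a) + s) / 2 with hβ
  set γ := (-(α - a) - s) / 2 with hγ
  have h1 : β + γ = -(α - a) := by rw [hβ, hγ]; ring
  have h2 : β * γ = α⁻¹ := by
    rw [hβ, hγ]
    linear_combination (-1 / 4 : ℂ) * hs
  have h3 : α * α⁻¹ = 1 := mul_inv_cancel₀ hα0
  have e1 : α + β + γ = a := by linear_combination h1
  have e3 : α * (β * γ) = 1 := by rw [h2, h3]
  have e2 : α * (β + γ) + β * γ = starRingEnd ℂ a := by
    rw [h1, h2]
    have : α * (α * -(α - a) + α⁻¹ - starRingEnd ℂ a) = 0 := by linear_combination h3 - hα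
    have := (mul_eq_zero.1 this).resolve_left hα0
    linear_combination this
  have hroot : ∀ z, z ^ 3 - a * z ^ 2 + starRingEnd ℂ a * z - 1 = (z - α) * (z - β) * (z - γ) := by
    intro z
    linear_combination z ^ 2 * e1 - z * e2 + e3
  refine ⟨α, β, γ, cub_root_norm ha hα, cub_root_norm ha (by rw [hroot]; ring), cub_root_norm ha (by rw [hroot]; ring), ?_⟩
  unfold cub
  rw [← e2]
  have e1' : a = α + β + γ := e1.symm
  have e3' : (1 : ℂ[X]) * X ^ 3 = C (α * (β * γ)) * X ^ 3 := by rw [e3, C_1]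
  rw [one_mul] at e3'
  rw [e3', e1']
  simp only [C_add, C_mul]
  ring

/-- the roots of unity -/
lemma one_sub_pow {l : ℕ} (hl : 0 < l) : (1 - X ^ l : ℂ[X]) =
    ∏ j : Fin l, (1 - C (Complex.exp (2 * Real.pi * Complex.I / l) ^ (j : ℕ)) * X) := by
  have hζ0 := Complex.isPrimitiveRoot_exp l hl.ne'
  set ζ0 := Complex.exp (2 * Real.pi * Complex.I / l)
  have hζ := hζ0.map_of_injective (f := (C : ℂ →+* ℂ[X])) C_injective
  have h1 := hζ.pow_sub_pow_eq_prod_sub_mul (1 : ℂ[X]) X hl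
  rw [one_pow] at h1
  rw [h1]
  symm
  apply Finset.prod_bij (fun (j : Fin l) _ => (C ζ0 : ℂ[X]) ^ (j : ℕ))
  · intro j _
    rw [mem_nthRootsFinset hl, ← pow_mul, mul_comm, pow_mul, hζ.pow_eq_one, one_pow]
  · intro i _ j _ hij
    exact Fin.ext (hζ.pow_inj i.2 j.2 hij)
  · intro b hb
    rw [mem_nthRootsFinset hl] at hb
    have : NeZero l := ⟨hl.ne'⟩
    obtain ⟨i, hi, h⟩ := hζ.eq_pow_of_pow_eq_one hb
    exact ⟨⟨i, hi⟩, Finset.mem_univ _, h⟩
  · intro j _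
    rw [C_pow]

/-- the unimodular roots of the family of rank `l + 3` -/
lemma uni_roots {l : ℕ} (hl : 0 < l) {a : ℂ} (ha : ‖a‖ ≤ 1) : ∃ α : Fin (3 + l) → ℂ, (∀ j, ‖α j‖ = 1) ∧
    uni l a = ∏ j, (1 - C (α j) * X) := by
  obtain ⟨x, y, z, hx, hy, hz, h⟩ := cub_roots ha
  refine ⟨Fin.append ![x, y, z] (fun j : Fin l => Complex.exp (2 * Real.pi * Complex.I / l) ^ (j : ℕ)), ?_, ?_⟩
  · intro j
    induction j using Fin.addCases with
    | left i =>
      rw [Fin.append_left]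
      fin_cases i
      · exact hx
      · exact hy
      · exact hz
    | right i =>
      rw [Fin.append_right, norm_pow]
      have : ‖Complex.exp (2 * Real.pi * Complex.I / l)‖ = 1 := by
        have e : (2 * Real.pi * Complex.I / l : ℂ) = ((2 * Real.pi / l : ℝ) : ℂ) * Complex.I := by
          push_cast; ring
        rw [e, Complex.norm_exp_ofReal_mul_I]
      rw [this, one_pow]
  · rw [Fin.prod_univ_add]
    simp only [Fin.append_left, Fin.append_right]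
    rw [← one_sub_pow hl, Fin.prod_univ_three]
    unfold uni
    rw [h]
    simp

end Pool.Agent.H616.SP
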